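import Mathlib
import Pool.Agent.H97.ClaimF

/-!
# Places over a valuation ring, pencils

`O` is a valuation ring of a field `K`, `F` a field over `K`.  A place of `F` over `O` is a
valuation ring `W` of `F` with `W ∩ K = O`.
-/

set_option autoImplicit false

noncomputable section

namespace Pool.Agent.EN2

open IsLocalRing Pool.Agent.ClaimF

/-- The valuation ring `O` has rank one. -/
structure Arch {K : Type} [Field K] (O : ValuationSubring K) : Prop where
  nontrivial : ∃ a : K, a ≠ 0 ∧ a ∈ O.nonunits
  arch : ∀ a b : K, a ∈ O.nonunits → ∃ n : ℕ, a ^ n * b ∈ O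

variable {K : Type} [Field K] (O : ValuationSubring K) (F : Type) [Field F] [Algebra K F]

/-- A place of `F` over `O`. -/
structure Pl where
  /-- the valuation ring -/
  W : ValuationSubring F
  mem_iff : ∀ a : K, algebraMap K F a ∈ W ↔ a ∈ O

variable {O F}

namespace Pl

/-- the inclusion `O → W` -/
def inc (c : Pl O F) : O →+* c.W where
  toFun a := ⟨algebraMap K F a, (c.mem_iff a).mpr a.2⟩
  map_one' := by ext; simp
  map_mul' a b := by ext; simp
  map_zero' := by ext; simp
  map_add' a b := by ext; simp

@[simp] lemma inc_coe (c : Pl O F) (a : O) : (c.inc a : F) = algebraMap K F a := rfl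

instance (c : Pl O F) : IsLocalHom c.inc := by
  refine ⟨fun a ha => ?_⟩
  obtain ⟨b, hb⟩ := ha.exists_right_inv
  have hb' : algebraMap K F a * (b : F) = 1 := by
    have := congrArg (Subtype.val) hb
    simpa using this
  have ha0 : (a : K) ≠ 0 := by
    intro h
    rw [h, map_zero, zero_mul] at hb'
    exact zero_ne_one hb'
  have hb2 : (b : F) = algebraMap K F (a : K)⁻¹ := by
    rw [map_inv₀]
    exact eq_inv_of_mul_eq_one_right hb'
  have h3 : (a : K)⁻¹ ∈ O := by
    rw [← c.mem_iff, ← hb2]
    exact b.2
  exact isUnit_iff_exists_inv.mpr ⟨⟨(a : K)⁻¹, h3⟩, by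
    ext
    simp [ha0]⟩

instance instAlg (c : Pl O F) : Algebra (ResidueField O) (ResidueField c.W) :=
  (ResidueField.map c.inc).toAlgebra

/-- the residue of an element of `F` (`0` outside of the valuation ring) -/
def res (c : Pl O F) (f : F) : ResidueField c.W := by
  classical exact if h : f ∈ c.W then residue c.W ⟨f, h⟩ else 0

lemma res_of_mem (c : Pl O F) {f : F} (h : f ∈ c.W) : c.res f = residue c.W ⟨f, h⟩ := by
  rw [res, dif_pos h]

end Pl

/-- A pencil on a family `P` of places: rings `R j` of functions, parameters `u j`, with a form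
of the maximum principle. -/
structure Pen {C : Type} (P : C → Pl O F) where
  /-- the indices of the charts -/
  J : Type
  [fin : Finite J]
  /-- functions on the charts -/
  R : J → Subalgebra K F
  /-- the parameter of the pencil on the charts -/
  u : J → F
  u_mem : ∀ j, u j ∈ R j
  uinv_mem : ∀ j, (u j)⁻¹ ∈ R j
  u_int : ∀ c j, u j ∈ (P c).W
  u_res : ∀ c j j', (P c).res (u j) = (P c).res (u j')
  u_tr : ∀ c j, Transcendental (ResidueField O) ((P c).res (u j))
  key : ∀ c (V : ValuationSubring (ResidueField (P c).W)),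
    (∀ j, ∀ e ∈ IntermediateField.adjoin (ResidueField O) {(P c).res (u j)}, e ∈ V) →
    ∃ j, ∀ f ∈ R j, (∀ c', f ∈ (P c').W) → (P c).res f ∈ V

attribute [instance] Pen.fin

/-- every element of `F` has the same size as an element of `K`, at all places of `P` -/
def VG {C : Type} (P : C → Pl O F) : Prop :=
  ∀ (c : C) (f : F), f ≠ 0 → ∃ κ : K, κ ≠ 0 ∧ κ⁻¹ • f ∈ (P c).W ∧ (P c).res (κ⁻¹ • f) ≠ 0

/-- best approximation by constants -/
def BA {C : Type} (P : C → Pl O F) : Prop :=
  ∀ (c : C) (z : F), z ∉ Set.range (algebraMap K F) → ∃ α κ : K, κ ≠ 0 ∧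
    κ⁻¹ • (z - algebraMap K F α) ∈ (P c).W ∧ (P c).res (κ⁻¹ • (z - algebraMap K F α)) ∉
      Set.range (algebraMap (ResidueField O) (ResidueField (P c).W))

end Pool.Agent.EN2
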