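import Pool.Agent.EN2.Peel

/-!
# Chains of pencils
-/

set_option autoImplicit false

noncomputable section

namespace Pool.Agent.EN2

open IsLocalRing Pool.Agent.ClaimF Polynomial

/-- the residue field of a valuation ring of an algebraically closed field -/
instance instAC {K : Type} [Field K] [IsAlgClosed K] (O : ValuationSubring K) :
    IsAlgClosed (ResidueField O) := by
  apply IsAlgClosed.of_exists_root
  intro q hq hirr
  obtain ⟨P, hP, hdeg, hmon⟩ := Polynomial.lifts_and_degree_eq_and_monic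
    ((Polynomial.mem_lifts _).mpr (Polynomial.map_surjective _ residue_surjective q)) hq
  have hd : P.degree ≠ 0 := by
    rw [hdeg]
    exact hirr.degree_pos.ne'
  have hd' : (P.map O.subtype).degree ≠ 0 := by
    rwa [hmon.degree_map]
  obtain ⟨x, hx⟩ := IsAlgClosed.exists_root _ hd'
  have hint : IsIntegral O x := ⟨P, hmon, by
    rw [Polynomial.IsRoot.def, Polynomial.eval_map] at hx
    exact hx⟩
  obtain ⟨y, hy⟩ := (IsIntegrallyClosed.isIntegral_iff (R := O) (K := K)).mp hint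
  refine ⟨residue O y, ?_⟩
  have h1 : P.eval y = 0 := by
    apply O.subtype_injective
    rw [map_zero, ← Polynomial.eval₂_hom, ← Polynomial.eval_map]
    have : O.subtype y = x := hy
    rw [this]
    exact hx
  rw [← hP, Polynomial.eval_map, Polynomial.eval₂_hom, h1, map_zero]

variable {K : Type} [Field K] {O : ValuationSubring K} {F : Type} [Field F] [Algebra K F]

/-- the constants in the residue field -/
def Pl.Cst (c : Pl O F) : Subfield (ResidueField c.W) :=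
  (algebraMap (ResidueField O) (ResidueField c.W)).fieldRange

lemma Pl.mem_cst (c : Pl O F) (y : ResidueField c.W) :
    y ∈ c.Cst ↔ y ∈ Set.range (algebraMap (ResidueField O) (ResidueField c.W)) := Iff.rfl

lemma Pl.cst_alg (c : Pl O F) {a : K} (ha : a ∈ O) : c.res (algebraMap K F a) ∈ c.Cst :=
  ⟨residue O ⟨a, ha⟩, (c.res_algebraMap ⟨a, ha⟩).symm⟩

lemma Pl.cst_of_algebraic [IsAlgClosed K] (c : Pl O F) {y : ResidueField c.W}
    (h : IsAlgebraic (ResidueField O) y) : y ∈ c.Cst := by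
  have h1 : (⊥ : IntermediateField (ResidueField O) (ResidueField c.W)) =
      algebraicClosure (ResidueField O) (ResidueField c.W) := by
    symm
    exact IntermediateField.eq_bot_of_isAlgClosed_of_isAlgebraic
      (algebraicClosure (ResidueField O) (ResidueField c.W))
  have h2 : y ∈ algebraicClosure (ResidueField O) (ResidueField c.W) :=
    mem_algebraicClosure_iff.mpr h
  rw [← h1] at h2
  exact IntermediateField.mem_bot.mp h2

lemma Pl.algebraic_of_cst (c : Pl O F) {y : ResidueField c.W} (h : y ∈ c.Cst) :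
    IsAlgebraic (ResidueField O) y := by
  obtain ⟨a, rfl⟩ := h
  exact isAlgebraic_algebraMap a

section

variable (c : Pl O F)

/-- two normalisations of the same element differ by a unit of `O` -/
lemma ratio_mem {κ l : K} (hκ : κ ≠ 0) (hl : l ≠ 0) {f : F} (h1 : κ⁻¹ • f ∈ c.W)
    (h2 : c.res (l⁻¹ • f) ≠ 0) : κ⁻¹ * l ∈ O := by
  by_contra h
  have h3 : (κ⁻¹ * l)⁻¹ ∈ O.nonunits := by
    rw [ValuationSubring.mem_nonunits_iff_or]
    right
    rwa [inv_inv]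
  have h4 : l⁻¹ • f = (κ⁻¹ * l)⁻¹ • (κ⁻¹ • f) := by
    rw [smul_smul]
    congr 1
    field_simp
  apply h2
  rw [h4]
  exact c.res_nonunit (c.smul_nonunit h3 h1)

lemma res_change {κ l : K} (hκ : κ ≠ 0) (hl : l ≠ 0) {f : F} (h1 : κ⁻¹ • f ∈ c.W)
    (h2 : c.res (l⁻¹ • f) ≠ 0) : c.res (l⁻¹ • f) ∈ c.Cst ↔ c.res (κ⁻¹ • f) ∈ c.Cst ∧
      c.res (κ⁻¹ • f) ≠ 0 ∨ c.res (l⁻¹ • f) ∈ c.Cst := by
  constructor
  · exact fun h => Or.inr h
  · rintro (⟨h3, h4⟩ | h)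
    · have h5 : l⁻¹ * κ ∈ O := ratio_mem c hl hκ (c.mem_of_res h2) h4
      have h6 : l⁻¹ • f = (l⁻¹ * κ) • (κ⁻¹ • f) := by
        rw [smul_smul]
        congr 1
        field_simp
      rw [h6, c.res_smul h5 h1]
      exact mul_mem ⟨_, rfl⟩ h3
    · exact h

/-- the residue of a normalised element is constant or not, independently of the
normalisation -/
lemma cst_change {κ l : K} (hκ : κ ≠ 0) (hl : l ≠ 0) {f : F} (h1 : c.res (κ⁻¹ • f) ≠ 0)
    (h2 : c.res (l⁻¹ • f) ≠ 0) (h3 : c.res (κ⁻¹ • f) ∈ c.Cst) : c.res (l⁻¹ • f) ∈ c.Cst :=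
  (res_change c hκ hl (c.mem_of_res h1) h2).mpr (Or.inl ⟨h3, h1⟩)

/-- an approximation datum for an element of size less than one -/
def Apx (e : F) : Prop :=
  e = 0 ∨ ∃ δ : K, δ ≠ 0 ∧ δ ∈ O.nonunits ∧ δ⁻¹ • e ∈ c.W ∧ c.res (δ⁻¹ • e) ∉ c.Cst

lemma approx {C : Type} {P : C → Pl O F} (hba : BA P) (a : C) (z : F) (κ : K) (hκ : κ ≠ 0)
    (h1 : (P a).res (κ⁻¹ • z) ≠ 0) (h2 : (P a).res (κ⁻¹ • z) ∈ (P a).Cst) :
    ∃ α : K, α ≠ 0 ∧ Apx (P a) (α⁻¹ • z - 1) := by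
  set c := P a with hc
  have hzW : κ⁻¹ • z ∈ c.W := c.mem_of_res h1
  by_cases hz : z ∈ Set.range (algebraMap K F)
  · obtain ⟨α, rfl⟩ := hz
    have hα : α ≠ 0 := by
      rintro rfl
      apply h1
      rw [map_zero, smul_zero, c.res_zero]
    refine ⟨α, hα, Or.inl ?_⟩
    rw [Algebra.smul_def, ← map_mul, inv_mul_cancel₀ hα, map_one, sub_self]
  obtain ⟨α, l, hl, hl1, hl2⟩ := hba a z hz
  change c.res (l⁻¹ • (z - algebraMap K F α)) ∉ c.Cst at hl2
  change l⁻¹ • (z - algebraMap K F α) ∈ c.W at hl1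
  have hl0 : c.res (l⁻¹ • (z - algebraMap K F α)) ≠ 0 := by
    intro h
    apply hl2
    rw [h]
    exact zero_mem _
  have hexp : ∀ q : K, q⁻¹ • (z - algebraMap K F α) = q⁻¹ • z - algebraMap K F (q⁻¹ * α) := by
    intro q
    rw [smul_sub, Algebra.smul_def q⁻¹ (algebraMap K F α), ← map_mul]
  -- `α / κ` is integral
  have hακ : κ⁻¹ * α ∈ O := by
    by_contra hn
    have hα0 : α ≠ 0 := by
      rintro rfl
      apply hn
      rw [mul_zero]
      exact zero_mem _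
    have hn' : α⁻¹ * κ ∈ O.nonunits := by
      rw [ValuationSubring.mem_nonunits_iff_or]
      right
      rwa [mul_inv, inv_inv, mul_comm]
    have h3 : α⁻¹ • z ∈ c.W.nonunits := size_lt c hκ hn' hzW
    have h4 : c.res (α⁻¹ • (z - algebraMap K F α)) = -1 := by
      rw [hexp, inv_mul_cancel₀ hα0, map_one, c.res_sub (c.mem_of_nonunit h3) (one_mem _),
        c.res_nonunit h3, c.res_one, zero_sub]
    exact hl2 (cst_change c hα0 hl (by rw [h4]; simp) hl0 (by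
      rw [h4]
      exact neg_mem (one_mem _)))
  have hW2 : κ⁻¹ • (z - algebraMap K F α) ∈ c.W := by
    rw [hexp]
    exact sub_mem hzW (c.mem_alg hακ)
  have h5 : c.res (κ⁻¹ • (z - algebraMap K F α)) = 0 := by
    by_contra hn
    refine hl2 (cst_change c hκ hl hn hl0 ?_)
    rw [hexp, c.res_sub hzW (c.mem_alg hακ)]
    exact sub_mem h2 (c.cst_alg hακ)
  have h6 : c.res (algebraMap K F (κ⁻¹ * α)) = c.res (κ⁻¹ • z) := by
    rw [hexp, c.res_sub hzW (c.mem_alg hακ)] at h5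
    exact (sub_eq_zero.mp h5).symm
  have hα0 : α ≠ 0 := by
    rintro rfl
    apply h1
    rw [← h6, mul_zero, map_zero, c.res_zero]
  have hαu : κ⁻¹ * α ∉ O.nonunits := by
    rw [← c.alg_nonunit, ← c.res_eq_zero (c.mem_alg hακ), h6]
    exact h1
  have hακ' : α⁻¹ * κ ∈ O := by
    by_contra hn
    apply hαu
    rw [ValuationSubring.mem_nonunits_iff_or]
    right
    intro h
    apply hn
    rwa [mul_inv, inv_inv, mul_comm] at h
  refine ⟨α, hα0, Or.inr ⟨α⁻¹ * l, mul_ne_zero (inv_ne_zero hα0) hl, ?_, ?_, ?_⟩⟩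
  · -- `l / α` is a nonunit
    have h7 : κ⁻¹ * l ∈ O.nonunits := by
      rw [ValuationSubring.mem_nonunits_iff_or]
      right
      intro h
      have h8 : l⁻¹ * κ ∈ O := by
        rwa [mul_inv, inv_inv, mul_comm] at h
      apply hl0
      have h9 : l⁻¹ • (z - algebraMap K F α) = (l⁻¹ * κ) • (κ⁻¹ • (z - algebraMap K F α)) := by
        rw [smul_smul]
        congr 1
        field_simp
      rw [h9, c.res_smul h8 hW2, h5, mul_zero]
    have h10 : α⁻¹ * l = (κ⁻¹ * l) * (α⁻¹ * κ) := by field_simp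
    rw [h10]
    exact nonunit_mul_mem h7 hακ'
  · have h11 : (α⁻¹ * l)⁻¹ • (α⁻¹ • z - 1) = l⁻¹ • (z - algebraMap K F α) := by
      have hαF : algebraMap K F α ≠ 0 := by simpa using hα0
      simp only [Algebra.smul_def, map_inv₀, map_mul]
      field_simp
    rw [h11]
    exact hl1
  · have h11 : (α⁻¹ * l)⁻¹ • (α⁻¹ • z - 1) = l⁻¹ • (z - algebraMap K F α) := by
      have hαF : algebraMap K F α ≠ 0 := by simpa using hα0
      simp only [Algebra.smul_def, map_inv₀, map_mul]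
      field_simp
    rw [h11]
    exact hl2

/-- a common approximation datum -/
lemma combine {ι : Type} [Finite ι] (e : ι → F) (h : ∀ i, Apx c (e i)) (i₀ : ι) (h0 : e i₀ ≠ 0) :
    ∃ δ : K, δ ≠ 0 ∧ δ ∈ O.nonunits ∧ (∀ i, δ⁻¹ • e i ∈ c.W) ∧
      ∃ i, c.res (δ⁻¹ • e i) ∉ c.Cst := by
  classical
  have hfin : Fintype ι := Fintype.ofFinite ι
  have h' : ∀ i, ∃ δ : K, e i ≠ 0 → δ ≠ 0 ∧ δ ∈ O.nonunits ∧ δ⁻¹ • e i ∈ c.W ∧
      c.res (δ⁻¹ • e i) ∉ c.Cst := by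
    intro i
    rcases h i with h1 | ⟨δ, h1⟩
    · exact ⟨1, fun h2 => absurd h1 h2⟩
    · exact ⟨δ, fun _ => h1⟩
  choose δ hδ using h'
  obtain ⟨i, hi, hmax⟩ := Finset.exists_max_image (Finset.univ.filter fun i => e i ≠ 0)
    (fun i => O.valuation (δ i)) ⟨i₀, by simpa using h0⟩
  simp only [Finset.mem_filter, Finset.mem_univ, true_and] at hi hmax
  obtain ⟨d1, d2, d3, d4⟩ := hδ i hi
  refine ⟨δ i, d1, d2, fun j => ?_, i, d4⟩
  by_cases hj : e j = 0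
  · rw [hj, smul_zero]
    exact zero_mem _
  obtain ⟨e1, e2, e3, e4⟩ := hδ j hj
  refine size_trans c e1 ?_ e3
  rw [← O.valuation_le_one_iff, map_mul, map_inv₀]
  have h7 : O.valuation (δ i) ≠ 0 := (Valuation.ne_zero_iff _).mpr d1
  rw [mul_comm, ← div_eq_mul_inv]
  exact div_le_one_of_le₀ (hmax j hj) zero_le

end

section

variable {C : Type} {P : C → Pl O F}

lemma charP_res (p : ℕ) [Fact p.Prime] [CharP K p] (c : Pl O F) :
    CharP (ResidueField c.W) p := by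
  have h0 : ((p : ℕ) : ResidueField c.W) = 0 := by
    have h1 : ((p : ℕ) : F) = 0 := by
      have := congrArg (algebraMap K F) (CharP.cast_eq_zero K p)
      rwa [map_natCast, map_zero] at this
    have h2 : ((p : ℕ) : c.W) = 0 := by
      ext
      simpa using h1
    have := congrArg (residue c.W) h2
    rwa [map_natCast, map_zero] at this
  have h1 := CharP.ringChar_of_prime_eq_zero (Fact.out : p.Prime) h0
  rw [← h1]
  exact ringChar.charP _

/-- peeling for one function -/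
lemma peel_one [Finite C] (hO : Arch O) (hvg : VG P) (Q : Pen P) (f : F) (hf : ∀ j, f ∈ Q.R j)
    (κ : K) (hκ : κ ≠ 0) (c : C) (hc : κ⁻¹ • f ∈ (P c).W) (j : Q.J) :
    AO (ResidueField O) ((P c).res (Q.u j)) ((P c).res (κ⁻¹ • f)) :=
  peel hO hvg Q (fun _ => f) hf κ hκ (fun a _ _ => by
    rw [sub_self, smul_zero, (P a).nonunits_iff]
    exact ⟨zero_mem _, (P a).res_zero⟩) c (fun _ => hc) j

/-- the residue of a product -/
lemma res_prod {c : Pl O F} {κ₁ κ₂ κ₃ : K} (h1 : κ₁ ≠ 0) (h2 : κ₂ ≠ 0) (h3 : κ₃ ≠ 0)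
    {z₁ z₂ z₃ : F} (hz : z₁ = z₂ * z₃) (r1 : c.res (κ₁⁻¹ • z₁) ≠ 0)
    (r2 : c.res (κ₂⁻¹ • z₂) ≠ 0) (r3 : c.res (κ₃⁻¹ • z₃) ≠ 0) :
    ∃ γ ∈ c.Cst, γ ≠ 0 ∧ c.res (κ₁⁻¹ • z₁) = γ * (c.res (κ₂⁻¹ • z₂) * c.res (κ₃⁻¹ • z₃)) := by
  have e1 : (κ₂ * κ₃)⁻¹ • z₁ = (κ₂⁻¹ • z₂) * (κ₃⁻¹ • z₃) := by
    rw [hz]
    simp only [Algebra.smul_def, mul_inv, map_mul]
    ring
  have e2 : c.res ((κ₂ * κ₃)⁻¹ • z₁) = c.res (κ₂⁻¹ • z₂) * c.res (κ₃⁻¹ • z₃) := by
    rw [e1, c.res_mul (c.mem_of_res r2) (c.mem_of_res r3)]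
  have e3 : c.res ((κ₂ * κ₃)⁻¹ • z₁) ≠ 0 := by
    rw [e2]
    exact mul_ne_zero r2 r3
  have h23 : κ₂ * κ₃ ≠ 0 := mul_ne_zero h2 h3
  have h4 : κ₁⁻¹ * (κ₂ * κ₃) ∈ O := ratio_mem c h1 h23 (c.mem_of_res r1) e3
  refine ⟨c.res (algebraMap K F (κ₁⁻¹ * (κ₂ * κ₃))), c.cst_alg h4, ?_, ?_⟩
  · intro h5
    have h6 : κ₁⁻¹ • z₁ = (κ₁⁻¹ * (κ₂ * κ₃)) • ((κ₂ * κ₃)⁻¹ • z₁) := by
      rw [smul_smul]
      congr 1
      field_simp
    apply r1
    rw [h6, Algebra.smul_def, c.res_mul (c.mem_alg h4) (c.mem_of_res e3), h5, zero_mul]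
  · have h6 : κ₁⁻¹ • z₁ = (κ₁⁻¹ * (κ₂ * κ₃)) • ((κ₂ * κ₃)⁻¹ • z₁) := by
      rw [smul_smul]
      congr 1
      field_simp
    rw [← e2]
    conv_lhs => rw [h6, Algebra.smul_def, c.res_mul (c.mem_alg h4) (c.mem_of_res e3)]

/-- **Chain lemma**: the residue of a nonconstant function in a chain is not constant. -/
theorem chain [Finite C] [IsAlgClosed K] (p : ℕ) [Fact p.Prime] [CharP K p] (hO : Arch O)
    (hvg : VG P) (hba : BA P) (Q₁ Q₂ Q₃ : Pen P) (c : C) (j₁ : Q₁.J) (j₂ : Q₂.J) (j₃ : Q₃.J)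
    (hrel : (P c).res (Q₃.u j₃) = (P c).res (Q₁.u j₁) / (P c).res (Q₂.u j₂))
    (hind : ¬ AO (ResidueField O) ((P c).res (Q₂.u j₂)) ((P c).res (Q₁.u j₁)))
    (z₁ z₂ z₃ : F) (hz : z₁ = z₂ * z₃) (hz1 : ∀ j, z₁ ∈ Q₁.R j) (hz2 : ∀ j, z₂ ∈ Q₂.R j)
    (hz3 : ∀ j, z₃ ∈ Q₃.R j) (hne : z₁ ∉ Set.range (algebraMap K F)) (κ : K) (hκ : κ ≠ 0)
    (hr : (P c).res (κ⁻¹ • z₁) ≠ 0) : (P c).res (κ⁻¹ • z₁) ∉ (P c).Cst := by
  intro hcst
  have h10 : z₁ ≠ 0 := by
    rintro rfl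
    exact hne ⟨0, map_zero _⟩
  have h20 : z₂ ≠ 0 := by
    rintro rfl
    exact h10 (by rw [hz, zero_mul])
  have h30 : z₃ ≠ 0 := by
    rintro rfl
    exact h10 (by rw [hz, mul_zero])
  set x := (P c).res (Q₁.u j₁) with hx
  set x' := (P c).res (Q₂.u j₂) with hx'
  have hx't : Transcendental (ResidueField O) x' := Q₂.u_tr c j₂
  obtain ⟨κ₂, k20, k21, k22⟩ := hvg c z₂ h20
  obtain ⟨κ₃, k30, k31, k32⟩ := hvg c z₃ h30
  obtain ⟨γ, hγ, hγ0, hγe⟩ := res_prod hκ k20 k30 hz hr k22 k32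
  have a2 := peel_one hO hvg Q₂ z₂ hz2 κ₂ k20 c k21 j₂
  have a3 := peel_one hO hvg Q₃ z₃ hz3 κ₃ k30 c k31 j₃
  rw [← hx'] at a2
  rw [hrel] at a3
  have hchar : CharP (ResidueField (P c).W) p := charP_res p (P c)
  have hgg : (P c).res (κ₂⁻¹ • z₂) * (P c).res (κ₃⁻¹ • z₃) ∈ (P c).Cst := by
    have : (P c).res (κ₂⁻¹ • z₂) * (P c).res (κ₃⁻¹ • z₃) = γ⁻¹ * (P c).res (κ⁻¹ • z₁) := by
      rw [hγe]
      field_simp
    rw [this]
    exact mul_mem (inv_mem hγ) hcst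
  have hx'x : ¬ AO (ResidueField O) x' (x / x') := by
    intro h
    apply hind
    rw [← mem_cl] at h ⊢
    have hx'0 : x' ≠ 0 := by
      intro h0
      rw [h0] at hx't
      exact hx't isAlgebraic_zero
    have : x = x / x' * x' := by field_simp
    rw [this]
    exact mul_mem h (self_mem_cl _)
  have c2 : (P c).res (κ₂⁻¹ • z₂) ∈ (P c).Cst := by
    apply (P c).cst_of_algebraic
    have hwt : Transcendental (ResidueField O) (x / x') := trans_of hx'x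
    refine inter hx't (x' := x / x') ?_ a2 ?_
    · intro h
      exact hx'x (exch hwt hx't h)
    · have e : (P c).res (κ₂⁻¹ • z₂) =
          ((P c).res (κ₂⁻¹ • z₂) * (P c).res (κ₃⁻¹ • z₃)) / (P c).res (κ₃⁻¹ • z₃) := by
        rw [mul_div_assoc, div_self k32, mul_one]
      rw [e, ← mem_cl]
      exact div_mem ((mem_cl _ _).mpr (ao_of_alg ((P c).algebraic_of_cst hgg)))
        ((mem_cl _ _).mpr a3)
  have c3 : (P c).res (κ₃⁻¹ • z₃) ∈ (P c).Cst := by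
    have e : (P c).res (κ₃⁻¹ • z₃) =
        (P c).res (κ₂⁻¹ • z₂) * (P c).res (κ₃⁻¹ • z₃) / (P c).res (κ₂⁻¹ • z₂) := by
      rw [mul_comm, mul_div_assoc, div_self k22, mul_one]
    rw [e]
    exact div_mem hgg c2
  obtain ⟨α₁, b10, b1⟩ := approx hba c z₁ κ hκ hr hcst
  obtain ⟨α₂, b20, b2⟩ := approx hba c z₂ κ₂ k20 k22 c2
  obtain ⟨α₃, b30, b3⟩ := approx hba c z₃ κ₃ k30 k32 c3
  let e : Fin 3 → F := ![α₁⁻¹ • z₁ - 1, α₂⁻¹ • z₂ - 1, α₃⁻¹ • z₃ - 1]
  have he0 : e 0 ≠ 0 := by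
    intro h
    apply hne
    refine ⟨α₁, ?_⟩
    have h1 : α₁⁻¹ • z₁ = 1 := sub_eq_zero.mp h
    rw [Algebra.smul_def, map_inv₀] at h1
    have q1 : algebraMap K F α₁ ≠ 0 := by simpa using b10
    field_simp at h1
    exact h1.symm
  obtain ⟨δ, hδ0, hδn, hδm, i, hi⟩ := combine (P c) e (by
    intro i
    fin_cases i
    · exact b1
    · exact b2
    · exact b3) 0 he0
  have r1 := peel_one hO hvg Q₁ (e 0) (fun j => (Q₁.R j).sub_mem
    ((Q₁.R j).smul_mem (hz1 j) _) (one_mem _)) δ hδ0 c (hδm 0) j₁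
  have r2 := peel_one hO hvg Q₂ (e 1) (fun j => (Q₂.R j).sub_mem
    ((Q₂.R j).smul_mem (hz2 j) _) (one_mem _)) δ hδ0 c (hδm 1) j₂
  have r3 := peel_one hO hvg Q₃ (e 2) (fun j => (Q₃.R j).sub_mem
    ((Q₃.R j).smul_mem (hz3 j) _) (one_mem _)) δ hδ0 c (hδm 2) j₃
  rw [← hx] at r1
  rw [← hx'] at r2
  rw [hrel] at r3
  have hnon : ∀ i, e i ∈ (P c).W.nonunits := by
    intro i
    have h1 : e i = δ • (δ⁻¹ • e i) := by
      rw [smul_smul, mul_inv_cancel₀ hδ0, one_smul]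
    rw [h1]
    exact (P c).smul_nonunit hδn (hδm i)
  -- the additive relation
  have hlin : IsAlgebraic (ResidueField O) ((P c).res (δ⁻¹ • e 0) - (P c).res (δ⁻¹ • e 1) -
      (P c).res (δ⁻¹ • e 2)) := by
    set β : K := α₂ * α₃ * α₁⁻¹ - 1 with hβ
    have hzz : 1 + e 0 = algebraMap K F (1 + β) * ((1 + e 1) * (1 + e 2)) := by
      have q1 : algebraMap K F α₁ ≠ 0 := by simpa using b10
      have q2 : algebraMap K F α₂ ≠ 0 := by simpa using b20
      have q3 : algebraMap K F α₃ ≠ 0 := by simpa using b30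
      have s0 : e 0 = α₁⁻¹ • z₁ - 1 := rfl
      have s1 : e 1 = α₂⁻¹ • z₂ - 1 := rfl
      have s2 : e 2 = α₃⁻¹ • z₃ - 1 := rfl
      rw [s0, s1, s2, hβ]
      simp only [Algebra.smul_def, map_inv₀, map_add, map_sub, map_mul, map_one]
      rw [hz]
      field_simp
      ring
    have hlin0 : δ⁻¹ • e 0 - δ⁻¹ • e 1 - δ⁻¹ • e 2 - (δ⁻¹ • e 1) * e 2 =
        algebraMap K F (δ⁻¹ * β) * ((1 + e 1) * (1 + e 2)) := by
      have s0 : e 0 = algebraMap K F (1 + β) * ((1 + e 1) * (1 + e 2)) - 1 := by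
        rw [← hzz]
        ring
      rw [s0]
      simp only [Algebra.smul_def, map_inv₀, map_add, map_mul, map_one]
      ring
    have hu : (1 + e 1) * (1 + e 2) ∈ (P c).W :=
      mul_mem (add_mem (one_mem _) ((P c).mem_of_nonunit (hnon 1)))
        (add_mem (one_mem _) ((P c).mem_of_nonunit (hnon 2)))
    have hu1 : (P c).res ((1 + e 1) * (1 + e 2)) = 1 := by
      rw [(P c).res_mul (add_mem (one_mem _) ((P c).mem_of_nonunit (hnon 1)))
        (add_mem (one_mem _) ((P c).mem_of_nonunit (hnon 2))),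
        (P c).res_add (one_mem _) ((P c).mem_of_nonunit (hnon 1)),
        (P c).res_add (one_mem _) ((P c).mem_of_nonunit (hnon 2)),
        (P c).res_nonunit (hnon 1), (P c).res_nonunit (hnon 2), (P c).res_one]
      ring
    have hl : δ⁻¹ • e 0 - δ⁻¹ • e 1 - δ⁻¹ • e 2 - (δ⁻¹ • e 1) * e 2 ∈ (P c).W :=
      sub_mem (sub_mem (sub_mem (hδm 0) (hδm 1)) (hδm 2))
        (mul_mem (hδm 1) ((P c).mem_of_nonunit (hnon 2)))
    have hβm : δ⁻¹ * β ∈ O := by
      rw [← (P c).mem_iff]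
      have h1 : algebraMap K F (δ⁻¹ * β) = (δ⁻¹ • e 0 - δ⁻¹ • e 1 - δ⁻¹ • e 2 -
          (δ⁻¹ • e 1) * e 2) / ((1 + e 1) * (1 + e 2)) := by
        rw [hlin0]
        have : (1 + e 1) * (1 + e 2) ≠ 0 := (P c).ne_zero_of_res (by rw [hu1]; exact one_ne_zero)
        rw [mul_div_assoc, div_self this, mul_one]
      rw [h1]
      exact (P c).div_mem hl (by rw [hu1]; exact one_ne_zero)
    have h2 : (P c).res (δ⁻¹ • e 0) - (P c).res (δ⁻¹ • e 1) - (P c).res (δ⁻¹ • e 2) =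
        (P c).res (algebraMap K F (δ⁻¹ * β)) := by
      have h3 := congrArg (P c).res hlin0
      rw [(P c).res_mul ((P c).mem_alg hβm) hu, hu1, mul_one,
        (P c).res_sub (sub_mem (sub_mem (hδm 0) (hδm 1)) (hδm 2))
          (mul_mem (hδm 1) ((P c).mem_of_nonunit (hnon 2))),
        (P c).res_sub (sub_mem (hδm 0) (hδm 1)) (hδm 2), (P c).res_sub (hδm 0) (hδm 1),
        (P c).res_mul (hδm 1) ((P c).mem_of_nonunit (hnon 2)), (P c).res_nonunit (hnon 2),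
        mul_zero, sub_zero] at h3
      exact h3
    rw [h2]
    exact (P c).algebraic_of_cst ((P c).cst_alg hβm)
  obtain ⟨f1, f2, f3⟩ := claimF p x x' _ _ _ hx't hind r1 r2 r3 hlin
  apply hi
  apply (P c).cst_of_algebraic
  fin_cases i
  · exact f1
  · exact f2
  · exact f3

end

end Pool.Agent.EN2
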