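import Pool.Agent.EN2.MaxPr

/-!
# Bounded sections, small sections, sections which vanish on curves in the tube
-/

set_option autoImplicit false

noncomputable section

namespace Pool.Agent.EN2

open IsLocalRing Pool.Agent.ClaimF Pool.Agent.SRF Pool.Agent.DIS

variable {K : Type} [Field K] {F : Type} [Field F] [Algebra K F]
variable {O : ValuationSubring K} {x y : F}

/-- the coordinate `z i` is maximal at `W` -/
def Mz (x y : F) (W : ValuationSubring F) (i : Fin 3) : Prop :=
  z x y i ≠ 0 ∧ ∀ j, z x y j / z x y i ∈ W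

lemma intO_at (hS : IsSurf K x y) {n : ℕ} {f : F} (h : IntO O x y n f) (W : Pl O F) (i : Fin 3)
    (hi : Mz x y W.W i) : f / z x y i ^ n ∈ W.W := by
  obtain ⟨j, hj⟩ := h W
  have hj0 := pow_ne_zero n (z_ne hS j)
  have hi0 := pow_ne_zero n hi.1
  have e : f / z x y i ^ n = f / z x y j ^ n * (z x y j / z x y i) ^ n := by
    rw [div_pow]
    field_simp
  rw [e]
  exact mul_mem hj (pow_mem (hi.2 j) _)

lemma intO_of {n : ℕ} {f : F} (h : ∀ (W : Pl O F) (i : Fin 3), Mz x y W.W i →
    f / z x y i ^ n ∈ W.W) : IntO O x y n f := by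
  intro W
  obtain ⟨i, hi⟩ := zmax (x := x) (y := y) W.W
  exact ⟨i, h W i hi⟩

lemma mz_comp {c : Pl O F} (hc : IsComp O x y c) : Mz x y c.W 0 := by
  refine ⟨one_ne_zero, fun j => ?_⟩
  have z0 : z x y 0 = 1 := rfl
  rw [z0, div_one]
  fin_cases j
  · exact one_mem _
  · exact hc.memx
  · exact hc.memy

lemma intO_comp (hS : IsSurf K x y) {n : ℕ} {f : F} (h : IntO O x y n f) {c : Pl O F}
    (hc : IsComp O x y c) : f ∈ c.W := by
  have h1 := intO_at hS h c 0 (mz_comp hc)
  have z0 : z x y 0 = 1 := rfl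
  rwa [z0, one_pow, div_one] at h1

lemma intO_add (hS : IsSurf K x y) {n : ℕ} {f g : F} (hf : IntO O x y n f)
    (hg : IntO O x y n g) : IntO O x y n (f + g) := by
  refine intO_of fun W i hi => ?_
  rw [add_div]
  exact add_mem (intO_at hS hf W i hi) (intO_at hS hg W i hi)

lemma intO_mul (hS : IsSurf K x y) {n m : ℕ} {f g : F} (hf : IntO O x y n f)
    (hg : IntO O x y m g) : IntO O x y (n + m) (f * g) := by
  refine intO_of fun W i hi => ?_
  rw [pow_add, mul_div_mul_comm]
  exact mul_mem (intO_at hS hf W i hi) (intO_at hS hg W i hi)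

lemma intO_pow (hS : IsSurf K x y) {n : ℕ} {f : F} (hf : IntO O x y n f) (m : ℕ) :
    IntO O x y (n * m) (f ^ m) := by
  refine intO_of fun W i hi => ?_
  rw [pow_mul, ← div_pow]
  exact pow_mem (intO_at hS hf W i hi) _

lemma intO_neg (hS : IsSurf K x y) {n : ℕ} {f : F} (hf : IntO O x y n f) :
    IntO O x y n (-f) := by
  refine intO_of fun W i hi => ?_
  rw [neg_div]
  exact neg_mem (intO_at hS hf W i hi)

lemma intO_zero {n : ℕ} : IntO O x y n 0 := by
  refine intO_of fun W i hi => ?_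
  rw [zero_div]
  exact zero_mem _

lemma intO_const {a : K} (ha : a ∈ O) : IntO O x y 0 (algebraMap K F a) := by
  refine intO_of fun W i hi => ?_
  rw [pow_zero, div_one]
  exact W.mem_alg ha

lemma intO_one : IntO O x y 0 1 := by
  refine intO_of fun W i hi => ?_
  rw [pow_zero, div_one]
  exact one_mem _

lemma intO_smul {n : ℕ} {f : F} {a : K} (ha : a ∈ O) (hf : IntO O x y n f) :
    IntO O x y n (a • f) := by
  intro W
  obtain ⟨i, hi⟩ := hf W
  refine ⟨i, ?_⟩
  rw [Algebra.smul_def, mul_div_assoc]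
  exact mul_mem (W.mem_alg ha) hi

lemma intO_sum (hS : IsSurf K x y) {n : ℕ} {κ : Type} (S : Finset κ) (f : κ → F)
    (hf : ∀ i ∈ S, IntO O x y n (f i)) : IntO O x y n (∑ i ∈ S, f i) := by
  refine intO_of fun W i hi => ?_
  rw [Finset.sum_div]
  exact sum_mem fun j hj => intO_at hS (hf j hj) W i hi

/-- values of homogeneous polynomials over `O` -/
lemma intO_hom (hS : IsSurf K x y) {ι : Type} (X : ι → F) (hX : ∀ i, IntO O x y 1 (X i))
    (P : MvPolynomial ι O) (m : ℕ) (hP : P.IsHomogeneous m) :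
    IntO O x y m (MvPolynomial.eval₂ (toF O F) X P) := by
  classical
  rw [MvPolynomial.eval₂_eq]
  refine intO_sum hS _ _ fun d hd => ?_
  have h1 : d.degree = m := by
    have := hP (MvPolynomial.mem_support_iff.mp hd)
    rw [Finsupp.degree_eq_weight_one]
    exact this
  have h2 : ∀ S : Finset ι, IntO O x y (∑ i ∈ S, d i) (∏ i ∈ S, X i ^ d i) := by
    intro S
    induction S using Finset.induction_on with
    | empty => simpa using intO_one
    | insert i S hi ih =>
      rw [Finset.sum_insert hi, Finset.prod_insert hi]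
      have := intO_pow hS (hX i) (d i)
      rw [one_mul] at this
      exact intO_mul hS this ih
  have h3 := h2 d.support
  have h4 : (toF O F) (MvPolynomial.coeff d P) * ∏ i ∈ d.support, X i ^ d i =
      ((MvPolynomial.coeff d P : O) : K) • ∏ i ∈ d.support, X i ^ d i := by
    rw [Algebra.smul_def]
    rfl
  rw [h4]
  refine intO_smul (MvPolynomial.coeff d P).2 ?_
  have h5 : ∑ i ∈ d.support, d i = m := h1
  rw [h5] at h3
  exact h3

/-- small sections -/
def Sm (O : ValuationSubring K) (x y : F) (n : ℕ) (r : F) : Prop :=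
  ∃ a ∈ O.nonunits, a ≠ 0 ∧ IntO O x y n (a⁻¹ • r)

lemma Sm.zero (hO : Arch O) {n : ℕ} : Sm O x y n 0 := by
  obtain ⟨a, ha0, ha⟩ := hO.nontrivial
  exact ⟨a, ha, ha0, by rw [smul_zero]; exact intO_zero⟩

lemma Sm.intO {n : ℕ} {r : F} (h : Sm O x y n r) : IntO O x y n r := by
  obtain ⟨a, ha, ha0, h⟩ := h
  have := intO_smul (nu_mem ha) h
  rwa [smul_smul, mul_inv_cancel₀ ha0, one_smul] at this

lemma Sm.add (hS : IsSurf K x y) {n : ℕ} {r s : F} (hr : Sm O x y n r) (hs : Sm O x y n s) :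
    Sm O x y n (r + s) := by
  obtain ⟨a, ha, ha0, h1⟩ := hr
  obtain ⟨b, hb, hb0, h2⟩ := hs
  rcases O.mem_or_inv_mem (b * a⁻¹) with h | h
  · refine ⟨a, ha, ha0, ?_⟩
    rw [smul_add]
    refine intO_add hS h1 ?_
    have := intO_smul h h2
    rwa [smul_smul, mul_right_comm, mul_inv_cancel₀ hb0, one_mul] at this
  · refine ⟨b, hb, hb0, ?_⟩
    rw [smul_add]
    refine intO_add hS ?_ h2
    have := intO_smul h h1
    rwa [smul_smul, mul_inv, inv_inv, mul_assoc, mul_inv_cancel₀ ha0, mul_one] at this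

lemma Sm.mul (hS : IsSurf K x y) {n m : ℕ} {r f : F} (hr : Sm O x y n r)
    (hf : IntO O x y m f) : Sm O x y (n + m) (r * f) := by
  obtain ⟨a, ha, ha0, h1⟩ := hr
  refine ⟨a, ha, ha0, ?_⟩
  rw [← smul_mul_assoc]
  exact intO_mul hS h1 hf

lemma Sm.neg (hS : IsSurf K x y) {n : ℕ} {r : F} (hr : Sm O x y n r) : Sm O x y n (-r) := by
  obtain ⟨a, ha, ha0, h1⟩ := hr
  refine ⟨a, ha, ha0, ?_⟩
  rw [smul_neg]
  exact intO_neg hS h1

lemma Sm.at (hS : IsSurf K x y) {n : ℕ} {r : F} (hr : Sm O x y n r) (W : Pl O F) (i : Fin 3)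
    (hi : Mz x y W.W i) : r / z x y i ^ n ∈ W.W.nonunits := by
  obtain ⟨a, ha, ha0, h1⟩ := hr
  have h2 := intO_at hS h1 W i hi
  have haF : algebraMap K F a ≠ 0 := by simpa using ha0
  have e : r / z x y i ^ n = algebraMap K F a * (a⁻¹ • r / z x y i ^ n) := by
    rw [Algebra.smul_def, map_inv₀]
    field_simp
  rw [e]
  exact nu_mul' (W.alg_nonunit.mpr ha) h2

/-- homogenisation -/
lemma homogenise {ι : Type} (X : ι → F) (a : ι) (ha : X a ≠ 0) (P : MvPolynomial ι O) :
    ∃ (m : ℕ) (Q : MvPolynomial ι O), Q.IsHomogeneous m ∧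
      MvPolynomial.eval₂ (toF O F) X Q =
        X a ^ m * MvPolynomial.eval₂ (toF O F) (fun i => X i / X a) P := by
  classical
  refine ⟨P.totalDegree, ∑ d ∈ P.support,
    MvPolynomial.monomial (d + Finsupp.single a (P.totalDegree - d.degree)) (P.coeff d), ?_, ?_⟩
  · refine MvPolynomial.IsHomogeneous.sum _ _ _ fun d hd => ?_
    refine MvPolynomial.isHomogeneous_monomial _ ?_
    have h1 : d.degree ≤ P.totalDegree := MvPolynomial.le_totalDegree hd
    rw [map_add, Finsupp.degree_single]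
    omega
  · rw [MvPolynomial.eval₂_sum, MvPolynomial.eval₂_eq, Finset.mul_sum]
    refine Finset.sum_congr rfl fun d hd => ?_
    have h1 : d.degree ≤ P.totalDegree := MvPolynomial.le_totalDegree hd
    have h5 : ((Finsupp.single a (P.totalDegree - d.degree)).prod fun x n => X x ^ n) =
        X a ^ (P.totalDegree - d.degree) := Finsupp.prod_single_index (pow_zero _)
    rw [MvPolynomial.eval₂_monomial, Finsupp.prod_add_index' (fun _ => pow_zero _)
      (fun _ _ _ => pow_add _ _ _), h5]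
    have h2 : ∏ i ∈ d.support, (X i / X a) ^ d i = (∏ i ∈ d.support, X i ^ d i) / X a ^ d.degree := by
      rw [Finsupp.degree_apply, ← Finset.prod_pow_eq_pow_sum, ← Finset.prod_div_distrib]
      refine Finset.prod_congr rfl fun i _ => ?_
      rw [div_pow]
    rw [h2]
    have h3 : X a ^ P.totalDegree = X a ^ (P.totalDegree - d.degree) * X a ^ d.degree := by
      rw [← pow_add]
      congr 1
      omega
    rw [h3]
    have h4 := pow_ne_zero d.degree ha
    rw [Finsupp.prod]
    field_simp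

/-- order and nonunits -/
lemma pp_nonunit (e : PP K x y) {f : F} (h0 : f ≠ 0) (hf : f ∈ e.1.nonunits) :
    1 ≤ ord e.1 f := by
  have h1 := nu_inv_not_mem hf h0
  rw [e.isOrd.mem _ (inv_ne_zero h0), e.isOrd.inv h0] at h1
  omega

/-- the order of a section -/
lemma ord_sec (hS : IsSurf K x y) {n : ℕ} {f : F} (hf : IntO O x y n f) (h0 : f ≠ 0)
    (e : PP K x y) : -(n * H K x y e) ≤ ord e.1 f :=
  ((mem_L K x y).mp (intO_L hS hf)).resolve_left h0 e

/-- **Sections which vanish on a curve in the tube.** -/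
theorem tub (hO : Arch O) (hS : IsSurf K x y) {ι : Type} [Fintype ι] (X : ι → F)
    (hX : ∀ i, IntO O x y 1 (X i))
    (hlin : ∀ j : Fin 3, ∃ l : ι → O, z x y j = ∑ i, (l i : K) • X i) (A : Set ι)
    (e : PP K x y) (he : InTube O x y X A e.1) (a : ι) (ha : a ∈ A) :
    ∃ (m : ℕ) (c : K) (P : MvPolynomial ι O), c ∈ O.nonunits ∧ c ≠ 0 ∧ P.IsHomogeneous m ∧
      (X a ^ m - algebraMap K F c * MvPolynomial.eval₂ (toF O F) X P = 0 ∨
        1 ≤ ord e.1 (X a ^ m - algebraMap K F c * MvPolynomial.eval₂ (toF O F) X P) +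
          m * H K x y e) := by
  classical
  obtain ⟨c₁, hc₁0, hc₁⟩ := hO.nontrivial
  have h0hom : (0 : MvPolynomial ι O).IsHomogeneous 1 := MvPolynomial.isHomogeneous_zero _ _ _
  by_cases hXa : X a = 0
  · refine ⟨1, c₁, 0, hc₁, hc₁0, h0hom, Or.inl ?_⟩
    rw [hXa, MvPolynomial.eval₂_zero]
    simp
  have hord := ord_sec hS (hX a) hXa e
  rw [Nat.cast_one, one_mul] at hord
  by_cases hlt : 1 ≤ ord e.1 (X a) + H K x y e
  · refine ⟨1, c₁, 0, hc₁, hc₁0, h0hom, Or.inr ?_⟩
    rw [MvPolynomial.eval₂_zero, mul_zero, sub_zero, pow_one, Nat.cast_one, one_mul]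
    exact hlt
  have hmax : ord e.1 (X a) = -H K x y e := by omega
  have hY : ∀ i, X i / X a ∈ e.1 := by
    intro i
    by_cases hi : X i = 0
    · rw [hi, zero_div]
      exact zero_mem _
    rw [e.isOrd.mem _ (div_ne_zero hi hXa), div_eq_mul_inv,
      e.isOrd.mul _ _ hi (inv_ne_zero hXa), e.isOrd.inv hXa, hmax]
    have := ord_sec hS (hX i) hi e
    rw [Nat.cast_one, one_mul] at this
    omega
  rcases place_or O e.1 (e.2.const_mem K x y) (fun i => X i / X a) hY with h | h
  · exfalso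
    obtain ⟨W, hWe, hW⟩ := h
    obtain ⟨j, hj0, hj⟩ := he W hWe a ha
    obtain ⟨l, hl⟩ := hlin j
    have h1 : z x y j / X a ∈ W.W := by
      have e1 : z x y j / X a = ∑ i, (l i : K) • (X i / X a) := by
        rw [hl, Finset.sum_div]
        refine Finset.sum_congr rfl fun i _ => ?_
        rw [Algebra.smul_def, Algebra.smul_def, mul_div_assoc]
      rw [e1]
      exact sum_mem fun i _ => W.smul_mem (l i).2 (hW i)
    have h2 := nu_inv_not_mem hj (div_ne_zero hXa hj0)
    rw [inv_div] at h2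
    exact h2 h1
  · obtain ⟨c, hc, P, hP⟩ := h
    have hc0 : c ≠ 0 := by
      rintro rfl
      rw [map_zero, zero_mul, sub_zero] at hP
      exact one_not_nu hP
    obtain ⟨m, Q, hQ, hQe⟩ := homogenise X a hXa P
    refine ⟨m, c, Q, hc, hc0, hQ, ?_⟩
    rw [hQe]
    have e1 : X a ^ m - algebraMap K F c * (X a ^ m *
        MvPolynomial.eval₂ (toF O F) (fun i => X i / X a) P) = X a ^ m *
        (1 - algebraMap K F c * MvPolynomial.eval₂ (toF O F) (fun i => X i / X a) P) := by ring
    rw [e1]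
    by_cases h0 : 1 - algebraMap K F c * MvPolynomial.eval₂ (toF O F) (fun i => X i / X a) P = 0
    · left
      rw [h0, mul_zero]
    right
    have h1 := pp_nonunit e h0 hP
    rw [e.isOrd.mul _ _ (pow_ne_zero _ hXa) h0, e.isOrd.pow hXa, hmax]
    linarith

end Pool.Agent.EN2
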