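import Pool.Agent.EN2.Defs

/-!
# Components

The components of the special fibre are the places of `F` over `O` for which the residues of `x`,
`y` are algebraically independent.
-/

set_option autoImplicit false

noncomputable section

namespace Pool.Agent.EN2

open IsLocalRing

variable {K : Type} [Field K] (O : ValuationSubring K) {F : Type} [Field F] [Algebra K F]
  (x y : F)

/-- The components of the special fibre. -/
structure IsComp (c : Pl O F) : Prop where
  memx : x ∈ c.W
  memy : y ∈ c.W
  indep : AlgebraicIndependent (ResidueField O) ![c.res x, c.res y]

/-- The type of components. -/
abbrev Comp : Type := {c : Pl O F // IsComp O x y c}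

end Pool.Agent.EN2
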