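import Pool.Agent.EN2.Pls
import Pool.Agent.EN2.CompDef

/-!
# Components: places centred at the generic point of the special fibre
-/

set_option autoImplicit false

noncomputable section

namespace Pool.Agent.EN2

open IsLocalRing Pool.Agent.ClaimF Pool.Agent.SRF Pool.Agent.DIS

variable {K : Type} [Field K] {F : Type} [Field F] [Algebra K F]

variable {O : ValuationSubring K} {x y : F}

lemma IsComp.mem {c : Pl O F} (h : IsComp O x y c) (m : Fin 2) : (![x, y] : Fin 2 → F) m ∈ c.W := by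
  fin_cases m
  · exact h.memx
  · exact h.memy

lemma IsComp.ind {c : Pl O F} (h : IsComp O x y c) :
    AlgebraicIndependent (ResidueField O) fun m => c.res ((![x, y] : Fin 2 → F) m) := by
  have e : (fun m => c.res ((![x, y] : Fin 2 → F) m)) = ![c.res x, c.res y] := by
    funext m
    fin_cases m <;> rfl
  rw [e]
  exact h.indep

/-- the uniform version of the Gauss valuation -/
lemma gaussU (P : MvPolynomial (Fin 2) K) (hP : P ≠ 0) :
    ∃ κ : K, κ ≠ 0 ∧ ∀ c : Pl O F, IsComp O x y c →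
      κ⁻¹ • MvPolynomial.aeval ![x, y] P ∈ c.W ∧
        c.res (κ⁻¹ • MvPolynomial.aeval ![x, y] P) ≠ 0 := by
  obtain ⟨κ, P', hκ, hP', hr⟩ := scale (O := O) P hP
  refine ⟨κ, hκ, fun c hc => ?_⟩
  have h1 : κ⁻¹ • MvPolynomial.aeval ![x, y] P = MvPolynomial.eval₂ (toF O F) ![x, y] P' := by
    have h2 : MvPolynomial.aeval ![x, y] (MvPolynomial.C κ⁻¹ * P) =
        MvPolynomial.aeval ![x, y] (MvPolynomial.map O.subtype P') := by rw [hP']
    rw [map_mul, MvPolynomial.aeval_C, ← Algebra.smul_def, MvPolynomial.aeval_def ![x, y]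
      (MvPolynomial.map O.subtype P'), MvPolynomial.eval₂_map] at h2
    exact h2
  refine ⟨?_, ?_⟩
  · rw [h1]
    exact (eval_mem c _ hc.mem P').1
  · rw [h1, (eval_mem c _ hc.mem P').2]
    intro h
    apply hr
    have := hc.ind
    rw [AlgebraicIndependent] at this
    exact this (by rw [h, map_zero])

omit [Field F] in
lemma range_xy (x y : F) : Set.range (![x, y] : Fin 2 → F) = {x, y} := by
  simp [Matrix.range_cons, Set.pair_comm]

/-- the uniform size of an element of `K(x, y)` -/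
lemma sizeU (f : F) (hf : f ∈ IntermediateField.adjoin K {x, y}) (hf0 : f ≠ 0) :
    ∃ κ : K, κ ≠ 0 ∧ ∀ c : Pl O F, IsComp O x y c → κ⁻¹ • f ∈ c.W ∧ c.res (κ⁻¹ • f) ≠ 0 := by
  rw [← range_xy, IntermediateField.mem_adjoin_range_iff] at hf
  obtain ⟨r, s, rfl⟩ := hf
  have hr0 : r ≠ 0 := by
    rintro rfl
    exact hf0 (by rw [map_zero, zero_div])
  have hs0 : s ≠ 0 := by
    rintro rfl
    exact hf0 (by rw [map_zero, div_zero])
  obtain ⟨κ, hκ, h1⟩ := gaussU (O := O) (x := x) (y := y) r hr0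
  obtain ⟨l, hl, h2⟩ := gaussU (O := O) (x := x) (y := y) s hs0
  refine ⟨κ / l, div_ne_zero hκ hl, fun c hc => ?_⟩
  have e : (κ / l)⁻¹ • (MvPolynomial.aeval ![x, y] r / MvPolynomial.aeval ![x, y] s) =
      (κ⁻¹ • MvPolynomial.aeval ![x, y] r) / (l⁻¹ • MvPolynomial.aeval ![x, y] s) := by
    have hκF : algebraMap K F κ ≠ 0 := by simpa using hκ
    have hlF : algebraMap K F l ≠ 0 := by simpa using hl
    simp only [Algebra.smul_def, map_inv₀, map_div₀]
    field_simp
  rw [e]
  refine ⟨c.div_mem (h1 c hc).1 (h2 c hc).2, ?_⟩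
  rw [c.res_div (h1 c hc).1 (h2 c hc).2]
  exact div_ne_zero (h1 c hc).2 (h2 c hc).2

/-- every nonzero element of `F` has the size of a constant -/
theorem IsComp.sz [IsAlgClosed K] (hS : IsSurf K x y) {c : Pl O F} (hc : IsComp O x y c) {f : F}
    (hf : f ≠ 0) : Sz c f := by
  refine sz_algebraic c (IntermediateField.adjoin K {x, y}).toSubfield ?_ f hf ?_
  · intro g hg hg0
    obtain ⟨κ, hκ, h⟩ := sizeU (O := O) g hg hg0
    exact ⟨κ, hκ, h c hc⟩
  · have := hS.fin
    exact Algebra.IsAlgebraic.isAlgebraic (R := IntermediateField.adjoin K {x, y}) f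

theorem comp_vg [IsAlgClosed K] (hS : IsSurf K x y) : VG (fun c : Comp O x y => c.1) := by
  intro c f hf
  exact c.2.sz hS hf

/-- powers of nonunits are small -/
lemma pow_small [IsAlgClosed K] (hO : Arch O) (hS : IsSurf K x y) {c : Pl O F}
    (hc : IsComp O x y c) {a : F} (ha : a ∈ c.W.nonunits) (b : F) :
    ∃ n : ℕ, ∀ m, n ≤ m → a ^ m * b ∈ c.W.nonunits := by
  by_cases ha0 : a = 0
  · refine ⟨1, fun m hm => ?_⟩
    rw [ha0, zero_pow (by omega), zero_mul]
    exact nu_zero
  by_cases hb0 : b = 0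
  · refine ⟨0, fun m _ => ?_⟩
    rw [hb0, mul_zero]
    exact nu_zero
  obtain ⟨κ, hκ, hκ'⟩ := sz_val.mp (hc.sz hS ha0)
  obtain ⟨l, hl, hl'⟩ := sz_val.mp (hc.sz hS hb0)
  have hκn : κ ∈ O.nonunits := by
    rw [← c.alg_nonunit, ValuationSubring.mem_nonunits_iff, ← hκ', ← ValuationSubring.mem_nonunits_iff]
    exact ha
  obtain ⟨n, hn⟩ := hO.arch κ l hκn
  refine ⟨n + 1, fun m hm => ?_⟩
  rw [ValuationSubring.mem_nonunits_iff, map_mul, map_pow, hκ', hl', ← map_pow, ← map_pow, ← map_mul,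
    ← map_mul, ← ValuationSubring.mem_nonunits_iff, c.alg_nonunit]
  obtain ⟨j, rfl⟩ := Nat.exists_eq_add_of_le hm
  have e : κ ^ (n + 1 + j) * l = κ * (κ ^ j * (κ ^ n * l)) := by ring
  rw [e]
  exact nu_mul' hκn (mul_mem (pow_mem (nu_mem hκn) _) hn)

/-- different components are independent -/
lemma indep_comp [IsAlgClosed K] (hO : Arch O) (hS : IsSurf K x y) {c d : Pl O F}
    (hc : IsComp O x y c) (h : c ≠ d) : ∃ a ∈ c.W, a ∉ d.W := by
  by_contra hcon
  push Not at hcon
  have hle : c.W ≤ d.W := hcon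
  apply h
  have he : c.W = d.W := by
    refine le_antisymm hle ?_
    intro f hf
    by_contra hn
    have h1 := nu_of_inv hn
    obtain ⟨a, ha0, ha⟩ := hO.nontrivial
    obtain ⟨n, hn'⟩ := pow_small hO hS hc h1 (algebraMap K F a⁻¹)
    have h2 : f⁻¹ ^ n * algebraMap K F a⁻¹ ∈ d.W := hle (nu_mem (hn' n le_rfl))
    have hf0 : f ≠ 0 := by
      rintro rfl
      exact hn (zero_mem _)
    have h3 : algebraMap K F a⁻¹ = f ^ n * (f⁻¹ ^ n * algebraMap K F a⁻¹) := by
      rw [inv_pow, ← mul_assoc, mul_inv_cancel₀ (pow_ne_zero _ hf0), one_mul]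
    have h4 : algebraMap K F a⁻¹ ∈ d.W := by
      rw [h3]
      exact mul_mem (pow_mem hf _) h2
    rw [d.mem_iff] at h4
    exact nu_inv_not_mem ha ha0 h4
  cases c
  cases d
  simp only at he
  subst he
  rfl

omit [Algebra K F] in
lemma inv_add_inv' {u : F} (hu : u ≠ 0) : (1 + u⁻¹)⁻¹ = u * (1 + u)⁻¹ := by
  have h : 1 + u⁻¹ = (1 + u) * u⁻¹ := by
    rw [add_mul, one_mul, mul_inv_cancel₀ hu, add_comm]
  rw [h, mul_inv, inv_inv, mul_comm]

/-- weak approximation -/
lemma approx_comp [IsAlgClosed K] (hO : Arch O) (hS : IsSurf K x y) (c : Comp O x y)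
    (S : Finset (Comp O x y)) (hcS : c ∉ S) :
    ∃ a : F, a ∉ c.1.W ∧ ∀ s ∈ S, a ∈ s.1.W.nonunits := by
  classical
  induction S using Finset.induction_on with
  | empty =>
    obtain ⟨a, ha0, ha⟩ := hO.nontrivial
    refine ⟨algebraMap K F a⁻¹, ?_, fun s hs => absurd hs (Finset.notMem_empty s)⟩
    rw [c.1.mem_iff]
    exact nu_inv_not_mem ha ha0
  | insert d S hd ih =>
    rw [Finset.mem_insert, not_or] at hcS
    obtain ⟨a, ha, haS⟩ := ih hcS.2
    -- `b` large at `c`, small at `d`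
    obtain ⟨b, hb, hbd⟩ : ∃ b : F, b ∉ c.1.W ∧ b ∈ d.1.W.nonunits := by
      have hne : c.1 ≠ d.1 := fun h => hcS.1 (Subtype.ext h)
      obtain ⟨f, hf1, hf2⟩ := indep_comp hO hS c.2 hne
      obtain ⟨g, hg1, hg2⟩ := indep_comp hO hS d.2 hne.symm
      have hf0 : f ≠ 0 := by
        rintro rfl
        exact hf2 (zero_mem _)
      refine ⟨g / f, ?_, ?_⟩
      · intro h
        apply hg2
        have : g = (g / f) * f := by field_simp
        rw [this]
        exact mul_mem h hf1
      · rw [div_eq_mul_inv]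
        exact nu_mul hg1 (nu_of_inv hf2)
    have hS' : ∃ n : ℕ, ∀ s ∈ S, ∀ m, n ≤ m → a ^ m * b ∈ s.1.W.nonunits := by
      have h1 : ∀ s : Comp O x y, ∃ n : ℕ, s ∈ S → ∀ m, n ≤ m → a ^ m * b ∈ s.1.W.nonunits := by
        intro s
        by_cases hs : s ∈ S
        · obtain ⟨n, hn⟩ := pow_small hO hS s.2 (haS s hs) b
          exact ⟨n, fun _ => hn⟩
        · exact ⟨0, fun h => absurd h hs⟩
      choose n hn using h1
      refine ⟨S.sup n, fun s hs m hm => hn s hs m (le_trans (Finset.le_sup hs) hm)⟩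
    obtain ⟨n, hn⟩ := hS'
    have ha0 : a ≠ 0 := by
      rintro rfl
      exact ha (zero_mem _)
    have hb0 : b ≠ 0 := by
      rintro rfl
      exact hb (zero_mem _)
    -- powers of `a` are not in `c`
    have hpow : ∀ (e : Comp O x y), a ∉ e.1.W → ∀ m, (a ^ (m + 1))⁻¹ ∈ e.1.W.nonunits := by
      intro e he m
      rw [← inv_pow, pow_succ]
      exact nu_mul (pow_mem (nu_mem (nu_of_inv he)) _) (nu_of_inv he)
    by_cases had : a ∈ d.1.W
    · refine ⟨a ^ n * b, ?_, ?_⟩
      · intro h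
        apply hb
        have e : b = (a⁻¹) ^ n * (a ^ n * b) := by
          rw [inv_pow, ← mul_assoc, inv_mul_cancel₀ (pow_ne_zero _ ha0), one_mul]
        rw [e]
        exact mul_mem (pow_mem (nu_mem (nu_of_inv ha)) _) h
      · intro s hs
        rcases Finset.mem_insert.mp hs with rfl | hs
        · exact nu_mul (pow_mem had _) hbd
        · exact hn s hs n le_rfl
    · -- `b a ^ m / (1 + a ^ m)`
      set m := n + 1 with hm
      have key : ∀ e : Comp O x y, a ∉ e.1.W →
          (1 + (a ^ m)⁻¹) ∈ e.1.W ∧ (1 + (a ^ m)⁻¹)⁻¹ ∈ e.1.W := by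
        intro e he
        have h1 := hpow e he n
        have h2 : (1 + (a ^ m)⁻¹) ∈ e.1.W := add_mem (one_mem _) (nu_mem h1)
        refine ⟨h2, ?_⟩
        by_contra h3
        have h4 := nu_of_inv h3
        rw [inv_inv] at h4
        have h5 := nu_sub h4 h1
        rw [add_sub_cancel_right] at h5
        exact one_not_nu h5
      have hne1 : 1 + (a ^ m)⁻¹ ≠ 0 := by
        intro h0
        have h1 := hpow c ha n
        have h2 := nu_neg h1
        have h3 : (1 : F) = -(a ^ (n + 1))⁻¹ := by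
          rw [← hm]
          linear_combination h0
        rw [← h3] at h2
        exact one_not_nu h2
      refine ⟨b * (1 + (a ^ m)⁻¹)⁻¹, ?_, ?_⟩
      · intro h
        apply hb
        have e : b = (b * (1 + (a ^ m)⁻¹)⁻¹) * (1 + (a ^ m)⁻¹) := by
          rw [mul_assoc, inv_mul_cancel₀ hne1, mul_one]
        rw [e]
        exact mul_mem h (key c ha).1
      · intro s hs
        rcases Finset.mem_insert.mp hs with rfl | hs
        · exact nu_mul' hbd (key _ had).2
        · have h1 : b * (1 + (a ^ m)⁻¹)⁻¹ = (a ^ m * b) * (1 + a ^ m)⁻¹ := by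
            rw [inv_add_inv' (pow_ne_zero _ ha0)]
            ring
          rw [h1]
          have h2 : a ^ m ∈ s.1.W.nonunits := by
            rw [hm, pow_succ]
            exact nu_mul (pow_mem (nu_mem (haS s hs)) _) (haS s hs)
          have h3 : (1 + a ^ m)⁻¹ ∈ s.1.W := by
            by_contra h3
            have h4 := nu_of_inv h3
            rw [inv_inv] at h4
            have h5 := nu_sub h4 h2
            rw [add_sub_cancel_right] at h5
            exact one_not_nu h5
          exact nu_mul' (hn s hs m (by omega)) h3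

/-- elements which separate the components -/
theorem comp_sep [IsAlgClosed K] (hO : Arch O) (hS : IsSurf K x y) (c : Comp O x y)
    (S : Finset (Comp O x y)) (hcS : c ∉ S) :
    ∃ e : F, e ∈ c.1.W ∧ c.1.res e ≠ 0 ∧ ∀ s ∈ S, e ∈ s.1.W.nonunits := by
  obtain ⟨a, ha, haS⟩ := approx_comp hO hS c S hcS
  have ha0 : a ≠ 0 := by
    rintro rfl
    exact ha (zero_mem _)
  have h1 := nu_of_inv ha
  have h2 : 1 + a⁻¹ ∈ c.1.W := add_mem (one_mem _) (nu_mem h1)
  have h3 : c.1.res (1 + a⁻¹) = 1 := by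
    rw [c.1.res_add (one_mem _) (nu_mem h1), c.1.res_one, c.1.res_nonunit h1, add_zero]
  have h4 : c.1.res (1 + a⁻¹) ≠ 0 := by
    rw [h3]
    exact one_ne_zero
  have hne : 1 + a⁻¹ ≠ 0 := c.1.ne_zero_of_res h4
  refine ⟨(1 + a⁻¹)⁻¹, c.1.inv_mem h4, ?_, fun s hs => ?_⟩
  · rw [c.1.res_inv h4, h3, inv_one]
    exact one_ne_zero
  · rw [inv_add_inv' ha0]
    refine nu_mul' (haS s hs) ?_
    by_contra h5
    have h6 := nu_of_inv h5
    rw [inv_inv] at h6
    have h7 := nu_sub h6 (haS s hs)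
    rw [add_sub_cancel_right] at h7
    exact one_not_nu h7

/-- a bound for the number of components -/
lemma comp_bound [IsAlgClosed K] (hO : Arch O) (hS : IsSurf K x y) (n : ℕ)
    (c : Fin n → Comp O x y) (hc : Function.Injective c) :
    n ≤ Module.finrank (IntermediateField.adjoin K {x, y}) F := by
  classical
  have hfin := hS.fin
  have h1 : ∀ i, ∃ e : F, e ∈ (c i).1.W ∧ (c i).1.res e ≠ 0 ∧
      ∀ j, j ≠ i → e ∈ (c j).1.W.nonunits := by
    intro i
    obtain ⟨e, h1, h2, h3⟩ := comp_sep hO hS (c i) ((Finset.univ.erase i).image c) (by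
      intro h
      obtain ⟨j, hj, hji⟩ := Finset.mem_image.mp h
      exact (Finset.mem_erase.mp hj).1 (hc hji))
    exact ⟨e, h1, h2, fun j hj => h3 _ (Finset.mem_image_of_mem _ (Finset.mem_erase.mpr
      ⟨hj, Finset.mem_univ _⟩))⟩
  choose e he1 he2 he3 using h1
  have hli : LinearIndependent (IntermediateField.adjoin K {x, y}) e := by
    rw [Fintype.linearIndependent_iff]
    intro g hg
    by_contra hcon
    push Not at hcon
    obtain ⟨i₀, hi₀⟩ := hcon
    have hs : ∀ i, ∃ κ : K, g i ≠ 0 → κ ≠ 0 ∧ ∀ d : Pl O F, IsComp O x y d →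
        κ⁻¹ • (g i : F) ∈ d.W ∧ d.res (κ⁻¹ • (g i : F)) ≠ 0 := by
      intro i
      by_cases hi : g i = 0
      · exact ⟨1, fun h => absurd hi h⟩
      · obtain ⟨κ, h⟩ := sizeU (O := O) (g i : F) (g i).2 (fun h => hi (by ext; exact h))
        exact ⟨κ, fun _ => h⟩
    choose κ hκ using hs
    obtain ⟨i, hi, hmax⟩ := Finset.exists_max_image (Finset.univ.filter fun i => g i ≠ 0)
      (fun i => O.valuation (κ i)) ⟨i₀, by simpa using hi₀⟩
    simp only [Finset.mem_filter, Finset.mem_univ, true_and] at hi hmax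
    obtain ⟨k0, k1⟩ := hκ i hi
    have h2 : ∀ j, (κ i)⁻¹ • (g j : F) ∈ (c i).1.W := by
      intro j
      by_cases hj : g j = 0
      · rw [hj]
        simp
      obtain ⟨l0, l1⟩ := hκ j hj
      refine size_trans (c i).1 l0 ?_ (l1 _ (c i).2).1
      rw [← O.valuation_le_one_iff, map_mul, map_inv₀]
      rw [mul_comm, ← div_eq_mul_inv]
      exact div_le_one_of_le₀ (hmax j hj) zero_le
    have h3 : ∑ j, (κ i)⁻¹ • ((g j : F) * e j) = 0 := by
      rw [← Finset.smul_sum]
      have : ∑ j, (g j : F) * e j = 0 := hg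
      rw [this, smul_zero]
    rw [← Finset.add_sum_erase _ _ (Finset.mem_univ i)] at h3
    have h4 : ∑ j ∈ Finset.univ.erase i, (κ i)⁻¹ • ((g j : F) * e j) ∈ (c i).1.W.nonunits := by
      have : ∀ S : Finset (Fin n), (∀ j ∈ S, j ≠ i) →
          ∑ j ∈ S, (κ i)⁻¹ • ((g j : F) * e j) ∈ (c i).1.W.nonunits := by
        intro S
        induction S using Finset.induction_on with
        | empty =>
          intro _
          rw [Finset.sum_empty]
          exact nu_zero
        | insert j S hj ih =>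
          intro hS'
          rw [Finset.sum_insert hj]
          refine nu_add ?_ (ih fun k hk => hS' k (Finset.mem_insert_of_mem hk))
          rw [← smul_mul_assoc]
          exact nu_mul (h2 j) (he3 j i (Ne.symm (hS' j (Finset.mem_insert_self _ _))))
      exact this _ fun j hj => (Finset.mem_erase.mp hj).1
    have h5 : (κ i)⁻¹ • ((g i : F) * e i) ∈ (c i).1.W.nonunits := by
      have : (κ i)⁻¹ • ((g i : F) * e i) =
          -∑ j ∈ Finset.univ.erase i, (κ i)⁻¹ • ((g j : F) * e j) := by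
        linear_combination h3
      rw [this]
      exact nu_neg h4
    rw [← smul_mul_assoc, (c i).1.nonunits_iff, (c i).1.res_mul (k1 _ (c i).2).1 (he1 i)] at h5
    exact mul_ne_zero (k1 _ (c i).2).2 (he2 i) h5.2
  have := hli.fintype_card_le_finrank
  simpa using this

theorem comp_finite [IsAlgClosed K] (hO : Arch O) (hS : IsSurf K x y) : Finite (Comp O x y) := by
  by_contra h
  rw [not_finite_iff_infinite] at h
  have h1 := comp_bound hO hS (Module.finrank (IntermediateField.adjoin K {x, y}) F + 1)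
    (fun i => Infinite.natEmbedding (Comp O x y) i.1)
    (fun i j hij => Fin.ext ((Infinite.natEmbedding (Comp O x y)).injective hij))
  omega

end Pool.Agent.EN2
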