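import Pool.Agent.EN2.Peel

/-!
# Gauss valuations, value groups, best approximation
-/

set_option autoImplicit false

noncomputable section

namespace Pool.Agent.EN2

open IsLocalRing Pool.Agent.ClaimF

variable {K : Type} [Field K] {O : ValuationSubring K} {F : Type} [Field F] [Algebra K F]

lemma mem_iff_val {W : ValuationSubring F} {f : F} : f ∈ W ↔ W.valuation f ≤ 1 :=
  (W.valuation_le_one_iff f).symm

/-- lift of a polynomial to `O` after scaling -/
lemma scale {σ : Type} (P : MvPolynomial σ K) (hP : P ≠ 0) :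
    ∃ (κ : K) (P' : MvPolynomial σ O), κ ≠ 0 ∧
      MvPolynomial.map O.subtype P' = MvPolynomial.C κ⁻¹ * P ∧
      MvPolynomial.map (residue O) P' ≠ 0 := by
  classical
  obtain ⟨d₀, hd₀, hmax⟩ := Finset.exists_max_image P.support (fun d => O.valuation (P.coeff d))
    (MvPolynomial.support_nonempty.mpr hP)
  have h0 : P.coeff d₀ ≠ 0 := MvPolynomial.mem_support_iff.mp hd₀
  have hmem : ∀ d, (P.coeff d₀)⁻¹ * P.coeff d ∈ O := by
    intro d
    by_cases hd : d ∈ P.support
    · rw [mem_iff_val, map_mul, map_inv₀]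
      have h7 : O.valuation (P.coeff d₀) ≠ 0 := (Valuation.ne_zero_iff _).mpr h0
      rw [mul_comm, ← div_eq_mul_inv]
      exact div_le_one_of_le₀ (hmax d hd) zero_le
    · rw [MvPolynomial.notMem_support_iff.mp hd, mul_zero]
      exact zero_mem _
  have hr : MvPolynomial.C (P.coeff d₀)⁻¹ * P ∈ Set.range (MvPolynomial.map (σ := σ) O.subtype) := by
    rw [MvPolynomial.mem_range_map_iff_coeffs_subset]
    intro a ha
    rw [Finset.mem_coe, MvPolynomial.mem_coeffs_iff] at ha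
    obtain ⟨d, -, rfl⟩ := ha
    rw [MvPolynomial.coeff_C_mul]
    exact ⟨⟨_, hmem d⟩, rfl⟩
  obtain ⟨P', hP'⟩ := hr
  refine ⟨P.coeff d₀, P', h0, hP', ?_⟩
  intro h
  have h1 : ((MvPolynomial.coeff d₀ P' : O) : K) = 1 := by
    have := congrArg (MvPolynomial.coeff d₀) hP'
    rw [MvPolynomial.coeff_map, MvPolynomial.coeff_C_mul, inv_mul_cancel₀ h0] at this
    exact this
  have h2 : P'.coeff d₀ = 1 := by
    ext
    exact h1
  have h3 := congrArg (MvPolynomial.coeff d₀) h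
  rw [MvPolynomial.coeff_map, h2, map_one, MvPolynomial.coeff_zero] at h3
  exact one_ne_zero h3

/-- evaluation in `F` of a polynomial over `O` at elements of `W` -/
lemma eval_mem (c : Pl O F) {σ : Type} (ζ : σ → F) (hζ : ∀ m, ζ m ∈ c.W) (P' : MvPolynomial σ O) :
    MvPolynomial.eval₂ (toF O F) ζ P' ∈ c.W ∧ c.res (MvPolynomial.eval₂ (toF O F) ζ P') =
      MvPolynomial.aeval (fun m => c.res (ζ m)) (MvPolynomial.map (residue O) P') := by
  have h1 : MvPolynomial.eval₂ (toF O F) ζ P' =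
      c.W.subtype (MvPolynomial.eval₂ c.inc (fun m => ⟨ζ m, hζ m⟩) P') := by
    rw [MvPolynomial.hom_eval₂]
    rfl
  have h2 : MvPolynomial.eval₂ (toF O F) ζ P' ∈ c.W := by
    rw [h1]
    exact (MvPolynomial.eval₂ c.inc (fun m => ⟨ζ m, hζ m⟩) P').2
  refine ⟨h2, ?_⟩
  rw [c.res_of_mem h2]
  have h3 : (⟨MvPolynomial.eval₂ (toF O F) ζ P', h2⟩ : c.W) =
      MvPolynomial.eval₂ c.inc (fun m => ⟨ζ m, hζ m⟩) P' := by
    ext
    exact h1
  rw [h3, MvPolynomial.hom_eval₂, MvPolynomial.aeval_def, MvPolynomial.eval₂_map]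
  congr 1
  funext m
  exact (c.res_of_mem (hζ m)).symm

/-- the Gauss valuation -/
lemma gauss (c : Pl O F) {σ : Type} (ζ : σ → F) (hζ : ∀ m, ζ m ∈ c.W)
    (hind : AlgebraicIndependent (ResidueField O) fun m => c.res (ζ m)) (P : MvPolynomial σ K)
    (hP : P ≠ 0) : ∃ κ : K, κ ≠ 0 ∧ (∀ d, κ⁻¹ * P.coeff d ∈ O) ∧
      κ⁻¹ • MvPolynomial.aeval ζ P ∈ c.W ∧ c.res (κ⁻¹ • MvPolynomial.aeval ζ P) ≠ 0 := by
  obtain ⟨κ, P', hκ, hP', hr⟩ := scale (O := O) P hP
  have h1 : κ⁻¹ • MvPolynomial.aeval ζ P = MvPolynomial.eval₂ (toF O F) ζ P' := by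
    have h2 : MvPolynomial.aeval ζ (MvPolynomial.C κ⁻¹ * P) =
        MvPolynomial.aeval ζ (MvPolynomial.map O.subtype P') := by rw [hP']
    rw [map_mul, MvPolynomial.aeval_C, ← Algebra.smul_def, MvPolynomial.aeval_def ζ
      (MvPolynomial.map O.subtype P'), MvPolynomial.eval₂_map] at h2
    exact h2
  refine ⟨κ, hκ, ?_, ?_, ?_⟩
  · intro d
    have h3 := congrArg (MvPolynomial.coeff d) hP'
    rw [MvPolynomial.coeff_map, MvPolynomial.coeff_C_mul] at h3
    rw [← h3]
    exact (P'.coeff d).2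
  · rw [h1]
    exact (eval_mem c ζ hζ P').1
  · rw [h1, (eval_mem c ζ hζ P').2]
    intro h
    apply hr
    have := hind
    rw [AlgebraicIndependent] at this
    exact this (by rw [h, map_zero])

/-- a polynomial which is integral at a Gauss place has integral coefficients -/
lemma coeff_mem (c : Pl O F) {σ : Type} (ζ : σ → F) (hζ : ∀ m, ζ m ∈ c.W)
    (hind : AlgebraicIndependent (ResidueField O) fun m => c.res (ζ m)) (P : MvPolynomial σ K)
    (h : MvPolynomial.aeval ζ P ∈ c.W) (d : σ →₀ ℕ) : P.coeff d ∈ O := by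
  by_cases hP : P = 0
  · rw [hP, MvPolynomial.coeff_zero]
    exact zero_mem _
  obtain ⟨κ, hκ, h1, h2, h3⟩ := gauss c ζ hζ hind P hP
  have h4 : κ ∈ O := by
    rw [← c.mem_iff]
    have h5 : MvPolynomial.aeval ζ P ≠ 0 := by
      intro h0
      apply h3
      rw [h0, smul_zero, c.res_zero]
    have h6 : algebraMap K F κ = MvPolynomial.aeval ζ P / (κ⁻¹ • MvPolynomial.aeval ζ P) := by
      have hκF : algebraMap K F κ ≠ 0 := by simpa using hκ
      rw [Algebra.smul_def, map_inv₀]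
      field_simp
    rw [h6]
    exact c.div_mem h h3
  have h5 : P.coeff d = κ * (κ⁻¹ * P.coeff d) := by field_simp
  rw [h5]
  exact mul_mem h4 (h1 d)

/-- elements with the same size as a constant -/
def Sz (c : Pl O F) (f : F) : Prop := ∃ κ : K, κ ≠ 0 ∧ κ⁻¹ • f ∈ c.W ∧ c.res (κ⁻¹ • f) ≠ 0

lemma Sz.div {c : Pl O F} {f g : F} (hf : Sz c f) (hg : Sz c g) : Sz c (f / g) := by
  obtain ⟨κ, hκ, h1, h2⟩ := hf
  obtain ⟨l, hl, h3, h4⟩ := hg
  have e : (κ / l)⁻¹ • (f / g) = (κ⁻¹ • f) / (l⁻¹ • g) := by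
    have hκF : algebraMap K F κ ≠ 0 := by simpa using hκ
    have hlF : algebraMap K F l ≠ 0 := by simpa using hl
    simp only [Algebra.smul_def, map_inv₀, map_div₀]
    field_simp
  refine ⟨κ / l, div_ne_zero hκ hl, ?_, ?_⟩
  · rw [e]
    exact c.div_mem h1 h4
  · rw [e, c.res_div h1 h4]
    exact div_ne_zero h2 h4

lemma Sz.mul {c : Pl O F} {f g : F} (hf : Sz c f) (hg : Sz c g) : Sz c (f * g) := by
  obtain ⟨κ, hκ, h1, h2⟩ := hf
  obtain ⟨l, hl, h3, h4⟩ := hg
  have e : (κ * l)⁻¹ • (f * g) = (κ⁻¹ • f) * (l⁻¹ • g) := by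
    simp only [Algebra.smul_def, map_inv₀, map_mul, mul_inv]
    ring
  refine ⟨κ * l, mul_ne_zero hκ hl, ?_, ?_⟩
  · rw [e]
    exact mul_mem h1 h3
  · rw [e, c.res_mul h1 h3]
    exact mul_ne_zero h2 h4

lemma val_unit {c : Pl O F} {f : F} (hf : c.res f ≠ 0) : c.W.valuation f = 1 := by
  have h1 := c.mem_of_res hf
  have h2 := c.inv_mem hf
  rw [mem_iff_val] at h1 h2
  rw [map_inv₀] at h2
  have h3 : c.W.valuation f ≠ 0 := (Valuation.ne_zero_iff _).mpr (c.ne_zero_of_res hf)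
  exact le_antisymm h1 ((inv_le_one₀ (zero_lt_iff.mpr h3)).mp h2)

lemma unit_val {c : Pl O F} {f : F} (hf : c.W.valuation f = 1) : f ∈ c.W ∧ c.res f ≠ 0 := by
  have h1 : f ∈ c.W := mem_iff_val.mpr hf.le
  refine ⟨h1, ?_⟩
  rw [Ne, c.res_eq_zero h1, ValuationSubring.mem_nonunits_iff, hf]
  exact lt_irrefl _

lemma sz_val {c : Pl O F} {f : F} :
    Sz c f ↔ ∃ κ : K, κ ≠ 0 ∧ c.W.valuation f = c.W.valuation (algebraMap K F κ) := by
  constructor
  · rintro ⟨κ, hκ, h1, h2⟩
    refine ⟨κ, hκ, ?_⟩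
    have h3 := val_unit h2
    have hκF : algebraMap K F κ ≠ 0 := by simpa using hκ
    have h4 : f = algebraMap K F κ * (κ⁻¹ • f) := by
      rw [Algebra.smul_def, map_inv₀]
      field_simp
    rw [h4, map_mul, h3, mul_one]
  · rintro ⟨κ, hκ, h⟩
    have hκF : algebraMap K F κ ≠ 0 := by simpa using hκ
    have h3 : c.W.valuation (κ⁻¹ • f) = 1 := by
      rw [Algebra.smul_def, map_mul, map_inv₀, map_inv₀, h]
      exact inv_mul_cancel₀ ((Valuation.ne_zero_iff _).mpr hκF)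
    exact ⟨κ, hκ, unit_val h3⟩

/-- algebraic elements over a subfield whose elements have the size of constants -/
lemma sz_algebraic [IsAlgClosed K] (c : Pl O F) (E : Subfield F) (hE : ∀ f ∈ E, f ≠ 0 → Sz c f)
    (f : F) (hf0 : f ≠ 0) (hf : IsAlgebraic E f) : Sz c f := by
  classical
  obtain ⟨P, hP0, hP⟩ := hf
  rw [Polynomial.aeval_def, Polynomial.eval₂_eq_sum, Polynomial.sum_def] at hP
  -- two terms of the same size
  have hex : ∃ i ∈ P.support, ∃ j ∈ P.support, i < j ∧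
      c.W.valuation ((P.coeff i : F) * f ^ i) = c.W.valuation ((P.coeff j : F) * f ^ j) := by
    obtain ⟨i, hi, hmax⟩ := Finset.exists_max_image P.support
      (fun i => c.W.valuation ((P.coeff i : F) * f ^ i)) (Polynomial.support_nonempty.mpr hP0)
    have hne : (P.coeff i : F) * f ^ i ≠ 0 := by
      refine mul_ne_zero ?_ (pow_ne_zero _ hf0)
      have := Polynomial.mem_support_iff.mp hi
      exact fun h => this (by ext; exact h)
    by_contra hcon
    have hcon : ∀ i ∈ P.support, ∀ j ∈ P.support, i < j →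
        c.W.valuation ((P.coeff i : F) * f ^ i) ≠ c.W.valuation ((P.coeff j : F) * f ^ j) :=
      fun i hi j hj hij h => hcon ⟨i, hi, j, hj, hij, h⟩
    have hlt : ∀ j ∈ P.support \ {i}, c.W.valuation ((P.coeff j : F) * f ^ j) <
        c.W.valuation ((P.coeff i : F) * f ^ i) := by
      intro j hj
      rw [Finset.mem_sdiff, Finset.mem_singleton] at hj
      refine lt_of_le_of_ne (hmax j hj.1) ?_
      intro h
      rcases lt_or_gt_of_ne hj.2 with h1 | h1
      · exact hcon j hj.1 i hi h1 h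
      · exact hcon i hi j hj.1 h1 h.symm
    have h2 := c.W.valuation.map_sum_eq_of_lt (f := fun j => (P.coeff j : F) * f ^ j) hi
      (fun l hl => hlt l hl)
    have h3 : ∑ j ∈ P.support, (P.coeff j : F) * f ^ j = 0 := hP
    rw [h3, map_zero] at h2
    exact (Valuation.ne_zero_iff _).mpr hne h2.symm
  obtain ⟨i, hi, j, hj, hij, hval⟩ := hex
  have hci : (P.coeff i : F) ≠ 0 := fun h => Polynomial.mem_support_iff.mp hi (by ext; exact h)
  have hcj : (P.coeff j : F) ≠ 0 := fun h => Polynomial.mem_support_iff.mp hj (by ext; exact h)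
  obtain ⟨κ, hκ, hκv⟩ := sz_val.mp ((hE _ (P.coeff i).2 hci).div (hE _ (P.coeff j).2 hcj))
  obtain ⟨n, hn'⟩ := Nat.exists_eq_add_of_lt hij
  have hn : 0 < n + 1 := by omega
  obtain ⟨l, hl⟩ := IsAlgClosed.exists_pow_nat_eq κ hn
  have hl0 : l ≠ 0 := by
    rintro rfl
    rw [zero_pow hn.ne'] at hl
    exact hκ hl.symm
  refine sz_val.mpr ⟨l, hl0, ?_⟩
  have hfv : c.W.valuation f ≠ 0 := (Valuation.ne_zero_iff _).mpr hf0
  have hiv : c.W.valuation (P.coeff i : F) ≠ 0 := (Valuation.ne_zero_iff _).mpr hci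
  have hjv : c.W.valuation (P.coeff j : F) ≠ 0 := (Valuation.ne_zero_iff _).mpr hcj
  have h5 : c.W.valuation f ^ (n + 1) = c.W.valuation (algebraMap K F l) ^ (n + 1) := by
    rw [← map_pow, ← map_pow, ← map_pow, hl, ← hκv, map_div₀, map_pow]
    rw [map_mul, map_mul, map_pow, map_pow] at hval
    have hpow : c.W.valuation f ^ j = c.W.valuation f ^ i * c.W.valuation f ^ (n + 1) := by
      rw [hn', add_assoc, pow_add]
    rw [hpow] at hval
    have h6 : c.W.valuation f ^ i ≠ 0 := pow_ne_zero _ hfv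
    rw [eq_div_iff hjv]
    have h7 : c.W.valuation (P.coeff i : F) * c.W.valuation f ^ i =
        (c.W.valuation f ^ (n + 1) * c.W.valuation (P.coeff j : F)) * c.W.valuation f ^ i := by
      rw [hval]
      simp only [mul_comm, mul_left_comm]
    exact (mul_right_cancel₀ h6 h7).symm
  exact (pow_left_inj₀ zero_le zero_le hn.ne').mp h5

end Pool.Agent.EN2
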