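import Pool.Agent.DIS.Interface
import Pool.Agent.EN2.Gauss

/-!
# Existence of places
-/

set_option autoImplicit false

noncomputable section

namespace Pool.Agent.EN2

open IsLocalRing Pool.Agent.ClaimF Pool.Agent.SRF Pool.Agent.DIS

variable {K : Type} [Field K] {O : ValuationSubring K} {F : Type} [Field F] [Algebra K F]

section nonunits

variable {U : ValuationSubring F}

lemma nu_mem {f : F} (h : f ∈ U.nonunits) : f ∈ U := ValuationSubring.nonunits_subset h

lemma nu_add {f g : F} (hf : f ∈ U.nonunits) (hg : g ∈ U.nonunits) : f + g ∈ U.nonunits := by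
  rw [ValuationSubring.mem_nonunits_iff] at *
  exact Valuation.map_add_lt _ hf hg

lemma nu_neg {f : F} (hf : f ∈ U.nonunits) : -f ∈ U.nonunits := by
  rw [ValuationSubring.mem_nonunits_iff] at *
  rwa [Valuation.map_neg]

lemma nu_sub {f g : F} (hf : f ∈ U.nonunits) (hg : g ∈ U.nonunits) : f - g ∈ U.nonunits := by
  rw [sub_eq_add_neg]
  exact nu_add hf (nu_neg hg)

lemma nu_mul {f g : F} (hf : f ∈ U) (hg : g ∈ U.nonunits) : f * g ∈ U.nonunits := by
  rw [ValuationSubring.mem_nonunits_iff] at *
  rw [mem_iff_val] at hf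
  rw [map_mul]
  exact lt_of_le_of_lt (mul_le_of_le_one_left' hf) hg

lemma nu_mul' {f g : F} (hf : f ∈ U.nonunits) (hg : g ∈ U) : f * g ∈ U.nonunits := by
  rw [mul_comm]
  exact nu_mul hg hf

lemma nu_zero : (0 : F) ∈ U.nonunits := by
  rw [ValuationSubring.mem_nonunits_iff, map_zero]
  exact zero_lt_one

lemma one_not_nu : (1 : F) ∉ U.nonunits := by
  rw [ValuationSubring.mem_nonunits_iff, map_one]
  exact lt_irrefl _

lemma nu_iff {f : F} : f ∈ U.nonunits ↔ f = 0 ∨ f⁻¹ ∉ U := U.mem_nonunits_iff_or

lemma nu_of_inv {f : F} (hf : f ∉ U) : f⁻¹ ∈ U.nonunits := by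
  rw [nu_iff, inv_inv]
  exact Or.inr hf

lemma nu_inv_not_mem {f : F} (hf : f ∈ U.nonunits) (h0 : f ≠ 0) : f⁻¹ ∉ U :=
  (nu_iff.mp hf).resolve_left h0

end nonunits

/-- two valuation rings -/
lemma le_of_nonunits {W U : ValuationSubring F} (h : ∀ f ∈ U.nonunits, f ∈ W.nonunits) : W ≤ U := by
  intro f hf
  by_contra hn
  have h1 := h _ (nu_of_inv hn)
  have h0 : f ≠ 0 := by
    rintro rfl
    exact hn (zero_mem _)
  exact nu_inv_not_mem h1 (inv_ne_zero h0) (by rwa [inv_inv])

/-- **Places under a valuation ring which contains the constants.** -/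
theorem place_or (O : ValuationSubring K) (U : ValuationSubring F)
    (hU : ∀ a : K, algebraMap K F a ∈ U) {ι : Type}
    (Y : ι → F) (hY : ∀ i, Y i ∈ U) :
    (∃ W : Pl O F, W.W ≤ U ∧ ∀ i, Y i ∈ W.W) ∨
      ∃ c ∈ O.nonunits, ∃ P : MvPolynomial ι O,
        1 - algebraMap K F c * MvPolynomial.eval₂ (toF O F) Y P ∈ U.nonunits := by
  classical
  have hev : ∀ P : MvPolynomial ι O, MvPolynomial.eval₂ (toF O F) Y P ∈ U := by
    intro P
    have h1 : ∀ i, Y i ∈ U.toSubring := hY
    have h2 : MvPolynomial.eval₂ (toF O F) Y P =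
        U.subtype (MvPolynomial.eval₂ ((toF O F).codRestrict U.toSubring fun a => hU a)
          (fun m => ⟨Y m, hY m⟩) P) := by
      rw [MvPolynomial.hom_eval₂]
      rfl
    rw [h2]
    exact (MvPolynomial.eval₂ ((toF O F).codRestrict U.toSubring fun a => hU a)
          (fun m => (⟨Y m, hY m⟩ : U.toSubring)) P).2
  let A : Subring F :=
    { carrier := {f | ∃ P : MvPolynomial ι O, f - MvPolynomial.eval₂ (toF O F) Y P ∈ U.nonunits}
      mul_mem' := by
        rintro f g ⟨P, hP⟩ ⟨Q, hQ⟩
        refine ⟨P * Q, ?_⟩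
        rw [MvPolynomial.eval₂_mul]
        have e : f * g - MvPolynomial.eval₂ (toF O F) Y P * MvPolynomial.eval₂ (toF O F) Y Q =
            (f - MvPolynomial.eval₂ (toF O F) Y P) * (g - MvPolynomial.eval₂ (toF O F) Y Q) +
            MvPolynomial.eval₂ (toF O F) Y Q * (f - MvPolynomial.eval₂ (toF O F) Y P) +
            MvPolynomial.eval₂ (toF O F) Y P * (g - MvPolynomial.eval₂ (toF O F) Y Q) := by ring
        rw [e]
        exact nu_add (nu_add (nu_mul (nu_mem hP) hQ) (nu_mul (hev Q) hP)) (nu_mul (hev P) hQ)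
      one_mem' := ⟨1, by simp [nu_zero]⟩
      add_mem' := by
        rintro f g ⟨P, hP⟩ ⟨Q, hQ⟩
        refine ⟨P + Q, ?_⟩
        rw [MvPolynomial.eval₂_add]
        have e : f + g - (MvPolynomial.eval₂ (toF O F) Y P + MvPolynomial.eval₂ (toF O F) Y Q) =
            (f - MvPolynomial.eval₂ (toF O F) Y P) + (g - MvPolynomial.eval₂ (toF O F) Y Q) := by
          ring
        rw [e]
        exact nu_add hP hQ
      zero_mem' := ⟨0, by simpa using nu_zero⟩
      neg_mem' := by
        rintro f ⟨P, hP⟩
        refine ⟨-P, ?_⟩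
        have e : -f - MvPolynomial.eval₂ (toF O F) Y (-P) =
            -(f - MvPolynomial.eval₂ (toF O F) Y P) := by
          rw [MvPolynomial.eval₂_neg]
          ring
        rw [e]
        exact nu_neg hP }
  have hAU : ∀ f ∈ A, f ∈ U := by
    rintro f ⟨P, hP⟩
    have : f = (f - MvPolynomial.eval₂ (toF O F) Y P) + MvPolynomial.eval₂ (toF O F) Y P := by ring
    rw [this]
    exact add_mem (nu_mem hP) (hev P)
  have hnuA : ∀ f ∈ U.nonunits, f ∈ A := fun f hf => ⟨0, by simpa using hf⟩
  let I : Ideal A :=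
    { carrier := {f | ∃ c ∈ O.nonunits, ∃ P : MvPolynomial ι O,
        (f : F) - algebraMap K F c * MvPolynomial.eval₂ (toF O F) Y P ∈ U.nonunits}
      add_mem' := by
        rintro f g ⟨c, hc, P, hP⟩ ⟨d, hd, Q, hQ⟩
        -- one of the two constants divides the other one
        have key : ∀ (f g : F) (c d : K) (P Q : MvPolynomial ι O), c ∈ O.nonunits →
            d * c⁻¹ ∈ O → (c = 0 → d = 0) →
            f - algebraMap K F c * MvPolynomial.eval₂ (toF O F) Y P ∈ U.nonunits →
            g - algebraMap K F d * MvPolynomial.eval₂ (toF O F) Y Q ∈ U.nonunits →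
            ∃ c ∈ O.nonunits, ∃ P : MvPolynomial ι O,
              f + g - algebraMap K F c * MvPolynomial.eval₂ (toF O F) Y P ∈ U.nonunits := by
          intro f g c d P Q hc hdc h0 hP hQ
          refine ⟨c, hc, P + MvPolynomial.C ⟨d * c⁻¹, hdc⟩ * Q, ?_⟩
          have e : f + g - algebraMap K F c * MvPolynomial.eval₂ (toF O F) Y
              (P + MvPolynomial.C ⟨d * c⁻¹, hdc⟩ * Q) =
              (f - algebraMap K F c * MvPolynomial.eval₂ (toF O F) Y P) +
              (g - algebraMap K F d * MvPolynomial.eval₂ (toF O F) Y Q) := by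
            have e1 : (toF O F) (⟨d * c⁻¹, hdc⟩ : O) = algebraMap K F (d * c⁻¹) := rfl
            have e2 : algebraMap K F c * algebraMap K F (d * c⁻¹) = algebraMap K F d := by
              by_cases hc0 : c = 0
              · rw [hc0, h0 hc0]
                simp
              · rw [← map_mul]
                congr 1
                field_simp
            rw [MvPolynomial.eval₂_add, MvPolynomial.eval₂_mul, MvPolynomial.eval₂_C, e1, ← e2]
            ring
          rw [e]
          exact nu_add hP hQ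
        show ∃ c ∈ O.nonunits, ∃ P : MvPolynomial ι O,
          ((f : F) + (g : F)) - algebraMap K F c * MvPolynomial.eval₂ (toF O F) Y P ∈ U.nonunits
        by_cases hc0 : c = 0
        · rw [add_comm (f : F)]
          refine key g f d c Q P hd (by rw [hc0, zero_mul]; exact zero_mem _) (fun _ => hc0) hQ hP
        rcases O.mem_or_inv_mem (d * c⁻¹) with h | h
        · exact key f g c d P Q hc h (fun h => absurd h hc0) hP hQ
        · rw [add_comm (f : F)]
          have e : (d * c⁻¹)⁻¹ = c * d⁻¹ := by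
            rw [mul_inv, inv_inv, mul_comm]
          rw [e] at h
          by_cases hd0 : d = 0
          · rw [add_comm (g : F)]
            exact key f g c d P Q hc (by rw [hd0, zero_mul]; exact zero_mem _)
              (fun h => absurd h hc0) hP hQ
          · exact key g f d c Q P hd h (fun h => absurd h hd0) hQ hP
      zero_mem' := ⟨0, nu_zero, 0, by simpa using nu_zero⟩
      smul_mem' := by
        rintro ⟨f, P', hP'⟩ g ⟨c, hc, P, hP⟩
        refine ⟨c, hc, P' * P, ?_⟩
        show f * (g : F) - _ ∈ _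
        rw [MvPolynomial.eval₂_mul]
        have e : f * (g : F) - algebraMap K F c * (MvPolynomial.eval₂ (toF O F) Y P' *
            MvPolynomial.eval₂ (toF O F) Y P) =
            MvPolynomial.eval₂ (toF O F) Y P' *
              ((g : F) - algebraMap K F c * MvPolynomial.eval₂ (toF O F) Y P) +
            (g : F) * (f - MvPolynomial.eval₂ (toF O F) Y P') := by ring
        rw [e]
        exact nu_add (nu_mul (hev P') hP) (nu_mul (hAU _ g.2) hP') }
  by_cases hI : I = ⊤
  · right
    have h1 : (1 : A) ∈ I := by rw [hI]; trivial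
    obtain ⟨c, hc, P, hP⟩ := h1
    exact ⟨c, hc, P, hP⟩
  · left
    obtain ⟨W, hAW, hIW⟩ := Ideal.image_subset_nonunits_valuationSubring I hI
    have h1 : ∀ f ∈ U.nonunits, f ∈ W.nonunits := by
      intro f hf
      apply hIW
      refine ⟨⟨f, hnuA f hf⟩, ?_, rfl⟩
      exact ⟨0, nu_zero, 0, by simpa using hf⟩
    have h2 : ∀ c ∈ O.nonunits, algebraMap K F c ∈ W.nonunits := by
      intro c hc
      apply hIW
      refine ⟨⟨algebraMap K F c, MvPolynomial.C ⟨c, nu_mem hc⟩, ?_⟩, ?_, rfl⟩
      · rw [MvPolynomial.eval₂_C]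
        have : (toF O F) (⟨c, nu_mem hc⟩ : O) = algebraMap K F c := rfl
        rw [this, sub_self]
        exact nu_zero
      · exact ⟨c, hc, 1, by simpa using nu_zero⟩
    have h3 : ∀ c ∈ O, algebraMap K F c ∈ W := by
      intro c hc
      apply hAW
      refine ⟨MvPolynomial.C ⟨c, hc⟩, ?_⟩
      rw [MvPolynomial.eval₂_C]
      have : (toF O F) (⟨c, hc⟩ : O) = algebraMap K F c := rfl
      rw [this, sub_self]
      exact nu_zero
    refine ⟨⟨W, fun a => ⟨fun ha => ?_, h3 a⟩⟩, le_of_nonunits h1, fun i => ?_⟩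
    · by_contra hn
      have h4 := h2 _ (nu_of_inv hn)
      rw [map_inv₀] at h4
      have h0 : algebraMap K F a ≠ 0 := by
        rw [Ne, map_eq_zero]
        rintro rfl
        exact hn (zero_mem _)
      exact nu_inv_not_mem h4 (inv_ne_zero h0) (by rwa [inv_inv])
    · apply hAW
      refine ⟨MvPolynomial.X i, ?_⟩
      rw [MvPolynomial.eval₂_X, sub_self]
      exact nu_zero

/-- every valuation ring which contains the constants contains a place -/
theorem exists_place (O : ValuationSubring K) (U : ValuationSubring F)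
    (hU : ∀ a : K, algebraMap K F a ∈ U) : ∃ W : Pl O F, W.W ≤ U := by
  rcases place_or O U hU (ι := Empty) (fun i => i.elim) (fun i => i.elim) with h | h
  · obtain ⟨W, h, -⟩ := h
    exact ⟨W, h⟩
  · exfalso
    obtain ⟨c, hc, P, hP⟩ := h
    obtain ⟨a, rfl⟩ := MvPolynomial.C_surjective Empty P
    rw [MvPolynomial.eval₂_C] at hP
    have e : (toF O F) a = algebraMap K F (a : K) := rfl
    rw [e, ← map_mul, ← map_one (algebraMap K F), ← map_sub] at hP
    have h1 : 1 - c * (a : K) ≠ 0 := by
      intro h0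
      have h2 : c * (a : K) ∈ O.nonunits := nu_mul' hc a.2
      rw [← sub_eq_zero.mp h0] at h2
      exact one_not_nu h2
    have h2 : algebraMap K F (1 - c * (a : K)) ≠ 0 := by
      rwa [Ne, map_eq_zero]
    refine nu_inv_not_mem hP h2 ?_
    rw [← map_inv₀]
    exact hU _

end Pool.Agent.EN2
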