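import Pool.Agent.H97.ClaimF

/-!
# Monomial solutions for `f` and `1 - f`
-/

set_option autoImplicit false

open Polynomial

namespace Pool.Agent.ClaimF

variable {k L : Type} [Field k] [Field L] [Algebra k L]

lemma range_of_algebraic [IsAlgClosed k] {y : L} (h : IsAlgebraic k y) :
    ∃ c : k, algebraMap k L c = y := by
  have h1 : (⊥ : IntermediateField k L) = algebraicClosure k L := by
    symm
    exact IntermediateField.eq_bot_of_isAlgClosed_of_isAlgebraic (algebraicClosure k L)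
  have h2 : y ∈ algebraicClosure k L := mem_algebraicClosure_iff.mpr h
  rw [← h1] at h2
  exact IntermediateField.mem_bot.mp h2

/-- evaluation of a polynomial identity at an element of the ground field -/
lemma eval_of_transcendental {x : L} (hx : Transcendental k x) {P Q : k[X]}
    (h : aeval x P = aeval x Q) (c : k) : P.eval c = Q.eval c := by
  rw [transcendental_iff_injective.mp hx h]

lemma no_pos {x : L} (hx : Transcendental k x) {m : ℕ} (hm : 0 < m) (n : ℤ) {C : k} (hC : C ≠ 0)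
    (h : x ^ m * (1 - x) ^ n = algebraMap k L C) : False := by
  have hx1 : 1 - x ≠ 0 := by
    intro h1
    have : x = algebraMap k L 1 := by
      rw [map_one]
      linear_combination -h1
    rw [this] at hx
    exact hx (isAlgebraic_algebraMap 1)
  rcases le_or_gt 0 n with hn | hn
  · obtain ⟨n, rfl⟩ := Int.eq_ofNat_of_zero_le hn
    rw [zpow_natCast] at h
    have h1 : aeval x ((X : k[X]) ^ m * (1 - X) ^ n) = aeval x (Polynomial.C C) := by
      simp only [map_mul, map_pow, map_sub, map_one, aeval_X, aeval_C]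
      exact h
    have h2 := eval_of_transcendental hx h1 0
    simp [hm.ne'] at h2
    exact hC h2.symm
  · obtain ⟨n, rfl⟩ := Int.exists_eq_neg_ofNat hn.le
    rw [zpow_neg, zpow_natCast] at h
    have h0 : x ^ m = algebraMap k L C * (1 - x) ^ n := by
      rw [← h]
      field_simp
    have h1 : aeval x ((X : k[X]) ^ m) = aeval x (Polynomial.C C * (1 - X) ^ n) := by
      simp only [map_mul, map_pow, map_sub, map_one, aeval_X, aeval_C]
      exact h0
    have h2 := eval_of_transcendental hx h1 0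
    simp [hm.ne'] at h2
    exact hC h2.symm

lemma exp_zero {x : L} (hx : Transcendental k x) (m n : ℤ) {C : k} (hC : C ≠ 0)
    (h : x ^ m * (1 - x) ^ n = algebraMap k L C) : m = 0 := by
  rcases lt_trichotomy m 0 with hm | hm | hm
  · exfalso
    obtain ⟨m', rfl⟩ := Int.exists_eq_neg_ofNat hm.le
    refine no_pos hx (m := m') (by omega) (-n) (inv_ne_zero hC) ?_
    rw [map_inv₀, ← h, mul_inv, zpow_neg, zpow_neg, inv_inv, zpow_natCast]
  · exact hm
  · exfalso
    obtain ⟨m', rfl⟩ := Int.eq_ofNat_of_zero_le hm.le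
    refine no_pos hx (m := m') (by omega) n hC ?_
    rwa [zpow_natCast] at h

/-- `f` proportional to a power of `x` and to a power of `1 - x` is constant -/
theorem claimG_inf [IsAlgClosed k] (x f : L) (hx : Transcendental k x) (A A' : ℤ) (b b' : ℕ)
    (hb : 0 < b) (hb' : 0 < b') (h1 : IsAlgebraic k (x ^ A * f ^ b))
    (h2 : IsAlgebraic k ((1 - x) ^ A' * f ^ b')) : IsAlgebraic k f := by
  by_cases hf0 : f = 0
  · rw [hf0]
    exact isAlgebraic_zero
  have hx0 : x ≠ 0 := by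
    rintro rfl
    exact hx isAlgebraic_zero
  have hx1 : 1 - x ≠ 0 := by
    intro h1
    have : x = algebraMap k L 1 := by
      rw [map_one]
      linear_combination -h1
    rw [this] at hx
    exact hx (isAlgebraic_algebraMap 1)
  obtain ⟨C, hC⟩ := range_of_algebraic h1
  obtain ⟨C', hC'⟩ := range_of_algebraic h2
  have hC0 : C ≠ 0 := by
    rintro rfl
    rw [map_zero] at hC
    exact mul_ne_zero (zpow_ne_zero _ hx0) (pow_ne_zero _ hf0) hC.symm
  have hC'0 : C' ≠ 0 := by
    rintro rfl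
    rw [map_zero] at hC'
    exact mul_ne_zero (zpow_ne_zero _ hx1) (pow_ne_zero _ hf0) hC'.symm
  have h3 : x ^ (A * b') * (1 - x) ^ (-(A' * b)) = algebraMap k L (C ^ b' / C' ^ b) := by
    rw [map_div₀, map_pow, map_pow, hC, hC', mul_pow, mul_pow, ← pow_mul, ← pow_mul,
      zpow_mul, zpow_natCast, zpow_neg, zpow_mul, zpow_natCast, mul_comm b b']
    field_simp
  have h4 := exp_zero hx _ _ (div_ne_zero (pow_ne_zero _ hC0) (pow_ne_zero _ hC'0)) h3
  have hA : A = 0 := by
    rcases mul_eq_zero.mp h4 with h | h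
    · exact h
    · exact absurd h (by exact_mod_cast hb'.ne')
  rw [hA, zpow_zero, one_mul] at h1
  exact h1.of_pow hb

/-- a parameter -/
lemma param [IsAlgClosed k] (x f : L) (hx : x ≠ 0) (hf : f ≠ 0) (A : ℤ) (hA : A ≠ 0) (b : ℕ)
    (hb : 0 < b) (h1 : IsAlgebraic k (x ^ A * f ^ b)) :
    ∃ (τ : L) (D : k) (a : ℤ) (n : ℕ), D ≠ 0 ∧ a ≠ 0 ∧ 0 < n ∧ IsCoprime a (n : ℤ) ∧
      f = algebraMap k L D * τ ^ a ∧ x = τ ^ n ∧ τ ≠ 0 := by
  obtain ⟨C, hC⟩ := range_of_algebraic h1
  have hC0 : C ≠ 0 := by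
    rintro rfl
    rw [map_zero] at hC
    exact mul_ne_zero (zpow_ne_zero _ hx) (pow_ne_zero _ hf) hC.symm
  obtain ⟨D₁, hD₁⟩ := IsAlgClosed.exists_pow_nat_eq C hb
  have hD₁0 : D₁ ≠ 0 := by
    rintro rfl
    rw [zero_pow hb.ne'] at hD₁
    exact hC0 hD₁.symm
  have hD₁L : algebraMap k L D₁ ≠ 0 := by simpa using hD₁0
  set f₁ := f / algebraMap k L D₁ with hf₁
  have hf₁0 : f₁ ≠ 0 := div_ne_zero hf hD₁L
  have e1 : f₁ ^ b = x ^ (-A) := by
    rw [hf₁, div_pow, ← map_pow, hD₁, hC, zpow_neg]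
    have : x ^ A ≠ 0 := zpow_ne_zero _ hx
    field_simp
  set g : ℕ := Int.gcd (-A) b with hg
  have hgpos : 0 < g := Int.gcd_pos_of_ne_zero_right _ (by exact_mod_cast hb.ne')
  obtain ⟨a, ha⟩ : (g : ℤ) ∣ -A := Int.gcd_dvd_left ..
  obtain ⟨n', hn'⟩ : (g : ℤ) ∣ (b : ℤ) := Int.gcd_dvd_right ..
  have hn'pos : 0 < n' := by
    by_contra h
    push Not at h
    have h2 : (b : ℤ) ≤ 0 := by
      rw [hn']
      exact mul_nonpos_of_nonneg_of_nonpos (by positivity) h
    have : (0 : ℤ) < b := by exact_mod_cast hb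
    omega
  obtain ⟨n, rfl⟩ := Int.eq_ofNat_of_zero_le hn'pos.le
  have hnpos : 0 < n := by exact_mod_cast hn'pos
  have hbn : b = g * n := by exact_mod_cast hn'
  have hcop : IsCoprime a (n : ℤ) := by
    rw [Int.isCoprime_iff_gcd_eq_one]
    have h2 : Int.gcd (g * a) (g * n) = g * Int.gcd a n := by
      rw [Int.gcd_mul_left]
      simp
    rw [← ha, ← hn', ← hg] at h2
    have h3 : g * Int.gcd a n = g * 1 := by rw [← h2, mul_one]
    exact Nat.eq_of_mul_eq_mul_left hgpos h3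
  have ha0 : a ≠ 0 := by
    rintro rfl
    rw [mul_zero] at ha
    exact hA (by omega)
  have e2 : (f₁ ^ n / x ^ a) ^ g = 1 := by
    rw [div_pow, ← pow_mul, mul_comm n g, ← hbn, e1, ha, mul_comm (g : ℤ) a, zpow_mul,
      zpow_natCast]
    exact div_self (pow_ne_zero _ (zpow_ne_zero _ hx))
  obtain ⟨ξ, hξ⟩ : ∃ ξ : k, algebraMap k L ξ = f₁ ^ n / x ^ a := by
    apply range_of_algebraic
    refine ⟨Polynomial.X ^ g - 1, ?_, ?_⟩
    · exact (Polynomial.monic_X_pow_sub_C (1 : k) hgpos.ne').ne_zero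
    · simp [e2]
  have hξ0 : ξ ≠ 0 := by
    rintro rfl
    rw [map_zero] at hξ
    exact div_ne_zero (pow_ne_zero _ hf₁0) (zpow_ne_zero _ hx) hξ.symm
  obtain ⟨D₂, hD₂⟩ := IsAlgClosed.exists_pow_nat_eq ξ hnpos
  have hD₂0 : D₂ ≠ 0 := by
    rintro rfl
    rw [zero_pow hnpos.ne'] at hD₂
    exact hξ0 hD₂.symm
  have hD₂L : algebraMap k L D₂ ≠ 0 := by simpa using hD₂0
  set f₂ := f₁ / algebraMap k L D₂ with hf₂
  have hf₂0 : f₂ ≠ 0 := div_ne_zero hf₁0 hD₂L
  have e3 : f₂ ^ n = x ^ a := by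
    rw [hf₂, div_pow, ← map_pow, hD₂, hξ]
    have : x ^ a ≠ 0 := zpow_ne_zero _ hx
    field_simp
  obtain ⟨u, v, huv⟩ := hcop
  refine ⟨f₂ ^ u * x ^ v, D₁ * D₂, a, n, mul_ne_zero hD₁0 hD₂0, ha0, hnpos, ⟨u, v, huv⟩, ?_, ?_,
    mul_ne_zero (zpow_ne_zero _ hf₂0) (zpow_ne_zero _ hx)⟩
  · have h4 : (f₂ ^ u * x ^ v) ^ a = f₂ := by
      rw [mul_zpow, ← zpow_mul, ← zpow_mul, mul_comm v a, zpow_mul x, ← e3, ← zpow_natCast,
        ← zpow_mul, ← zpow_add₀ hf₂0]
      have : u * a + (n : ℤ) * v = 1 := by rw [← huv]; ring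
      rw [this, zpow_one]
    rw [h4, map_mul, hf₂, hf₁]
    field_simp
  · rw [← zpow_natCast, mul_zpow, ← zpow_mul, ← zpow_mul, mul_comm u (n : ℤ), zpow_mul f₂,
      zpow_natCast f₂, e3, ← zpow_mul, ← zpow_add₀ hx]
    have : a * u + v * (n : ℤ) = 1 := by rw [← huv]; ring
    rw [this, zpow_one]

/-- a natural number such that all roots of unity of this order are trivial is a power of `p` -/
lemma pow_of_roots [IsAlgClosed k] (p : ℕ) [Fact p.Prime] [CharP k p] (n : ℕ) (hn : 0 < n)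
    (h : ∀ ζ : k, ζ ^ n = 1 → ζ = 1) : ∃ m : ℕ, n = p ^ m := by
  have hp : p.Prime := Fact.out
  obtain ⟨m, n', hn', e⟩ := Nat.exists_eq_pow_mul_and_not_dvd hn.ne' p hp.ne_one
  refine ⟨m, ?_⟩
  have hn'0 : 0 < n' := by
    rcases Nat.eq_zero_or_pos n' with h0 | h0
    · exfalso
      rw [h0] at hn'
      exact hn' (dvd_zero p)
    · exact h0
  have hne : (n' : k) ≠ 0 := by
    intro h0
    exact hn' ((CharP.cast_eq_zero_iff k p n').mp h0)
  have : NeZero (n' : k) := ⟨hne⟩
  obtain ⟨ζ, hζ⟩ := HasEnoughRootsOfUnity.exists_primitiveRoot k n'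
  have h1 : ζ ^ n = 1 := by
    rw [e, mul_comm, pow_mul, hζ.pow_eq_one, one_pow]
  have h2 := h ζ h1
  rw [h2] at hζ
  have h3 : n' = 1 := by
    have := hζ.eq_orderOf
    rwa [orderOf_one] at this
  rw [e, h3, mul_one]

/-- CLAIM G: if `f` is proportional to a power of `x` and `1 - f` to a power of `1 - x`, up to
powers, then `f` and `x` have a common Frobenius power. -/
theorem claimG [IsAlgClosed k] (p : ℕ) [Fact p.Prime] [CharP k p] (x f : L)
    (hx : Transcendental k x) (hf : Transcendental k f) (A A' : ℤ) (b b' : ℕ)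
    (hb : 0 < b) (hb' : 0 < b') (h1 : IsAlgebraic k (x ^ A * f ^ b))
    (h2 : IsAlgebraic k ((1 - x) ^ A' * (1 - f) ^ b')) : ∃ m n : ℕ, f ^ (p ^ m) = x ^ (p ^ n) := by
  have hf0 : f ≠ 0 := by
    rintro rfl
    exact hf isAlgebraic_zero
  have hx0 : x ≠ 0 := by
    rintro rfl
    exact hx isAlgebraic_zero
  have h1sub : ∀ y : L, Transcendental k y → 1 - y ≠ 0 := by
    intro y hy h1
    have : y = algebraMap k L 1 := by
      rw [map_one]
      linear_combination -h1
    rw [this] at hy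
    exact hy (isAlgebraic_algebraMap 1)
  have hx1 := h1sub x hx
  have hf1 := h1sub f hf
  have hA : A ≠ 0 := by
    rintro rfl
    rw [zpow_zero, one_mul] at h1
    exact hf (h1.of_pow hb)
  have hA' : A' ≠ 0 := by
    rintro rfl
    rw [zpow_zero, one_mul] at h2
    have h3 := h2.of_pow hb'
    apply hf
    have h4 := (isAlgebraic_one (R := k) (A := L)).sub h3
    rwa [sub_sub_cancel] at h4
  obtain ⟨τ, D, a, n, hD, ha, hn, hcop, hfτ, hxτ, hτ0⟩ := param x f hx0 hf0 A hA b hb h1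
  have hτ : Transcendental k τ := by
    intro h
    apply hx
    rw [hxτ]
    exact h.pow n
  obtain ⟨C', hC'⟩ := range_of_algebraic h2
  have hC'0 : C' ≠ 0 := by
    rintro rfl
    rw [map_zero] at hC'
    exact mul_ne_zero (zpow_ne_zero _ hx1) (pow_ne_zero _ hf1) hC'.symm
  have hDL : algebraMap k L D ≠ 0 := by simpa using hD
  -- the sign of `A'`
  rcases lt_or_gt_of_ne hA' with hA'neg | hA'pos
  swap
  · -- positive: impossible
    exfalso
    obtain ⟨a', rfl⟩ := Int.eq_ofNat_of_zero_le hA'pos.le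
    have ha' : 0 < a' := by exact_mod_cast hA'pos
    rw [zpow_natCast] at hC'
    rcases lt_or_gt_of_ne ha with haneg | hapos
    · obtain ⟨α, rfl⟩ := Int.exists_eq_neg_ofNat haneg.le
      have hα : 0 < α := by omega
      have h3 : aeval τ ((1 - (X : k[X]) ^ n) ^ a' * (X ^ α - Polynomial.C D) ^ b') =
          aeval τ (Polynomial.C C' * X ^ (α * b')) := by
        simp only [map_mul, map_pow, map_sub, map_one, aeval_X, aeval_C]
        rw [hC', ← hxτ, pow_mul, mul_assoc, ← mul_pow]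
        congr 2
        rw [hfτ, zpow_neg, zpow_natCast]
        field_simp
      have h4 := eval_of_transcendental hτ h3 1
      simp [ha'.ne'] at h4
      exact hC'0 h4.symm
    · obtain ⟨α, rfl⟩ := Int.eq_ofNat_of_zero_le hapos.le
      have hα : 0 < α := by exact_mod_cast hapos
      have h3 : aeval τ ((1 - (X : k[X]) ^ n) ^ a' * (1 - Polynomial.C D * X ^ α) ^ b') =
          aeval τ (Polynomial.C C') := by
        simp only [map_mul, map_pow, map_sub, map_one, aeval_X, aeval_C]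
        rw [hC', ← hxτ, hfτ, zpow_natCast]
      have h4 := eval_of_transcendental hτ h3 1
      simp [ha'.ne'] at h4
      exact hC'0 h4.symm
  obtain ⟨a', rfl⟩ := Int.exists_eq_neg_ofNat hA'neg.le
  have ha' : 0 < a' := by omega
  have e5 : (1 - f) ^ b' = algebraMap k L C' * (1 - x) ^ a' := by
    rw [hC', zpow_neg, zpow_natCast]
    field_simp
  rcases lt_or_gt_of_ne ha with haneg | hapos
  · exfalso
    obtain ⟨α, rfl⟩ := Int.exists_eq_neg_ofNat haneg.le
    have hα : 0 < α := by omega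
    have h3 : aeval τ (((X : k[X]) ^ α - Polynomial.C D) ^ b') =
        aeval τ (Polynomial.C C' * (1 - X ^ n) ^ a' * X ^ (α * b')) := by
      simp only [map_mul, map_pow, map_sub, map_one, aeval_X, aeval_C]
      rw [← hxτ, ← e5, pow_mul, ← mul_pow]
      congr 1
      rw [hfτ, zpow_neg, zpow_natCast]
      field_simp
    have h4 := eval_of_transcendental hτ h3 0
    simp [hα.ne', hb'.ne'] at h4
    exact hD h4
  obtain ⟨α, rfl⟩ := Int.eq_ofNat_of_zero_le hapos.le
  have hα : 0 < α := by exact_mod_cast hapos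
  have h3 : aeval τ ((1 - Polynomial.C D * (X : k[X]) ^ α) ^ b') =
      aeval τ (Polynomial.C C' * (1 - X ^ n) ^ a') := by
    simp only [map_mul, map_pow, map_sub, map_one, aeval_X, aeval_C]
    rw [← hxτ, ← e5, hfτ, zpow_natCast]
  have hC1 : C' = 1 := by
    have h4 := eval_of_transcendental hτ h3 0
    simp [hα.ne', hn.ne'] at h4
    exact h4.symm
  have hD1 : D = 1 := by
    have h4 := eval_of_transcendental hτ h3 1
    simp [ha'.ne', hb'.ne'] at h4
    exact (sub_eq_zero.mp h4).symm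
  have hev : ∀ ζ : k, (1 - ζ ^ α) ^ b' = (1 - ζ ^ n) ^ a' := by
    intro ζ
    have h4 := eval_of_transcendental hτ h3 ζ
    simpa [hC1, hD1] using h4
  have hcop' : Nat.Coprime α n := by
    have := Int.isCoprime_iff_gcd_eq_one.mp hcop
    exact_mod_cast this
  have hboth : ∀ ζ : k, ζ ^ α = 1 → ζ ^ n = 1 → ζ = 1 := by
    intro ζ h4 h5
    have h6 := orderOf_dvd_of_pow_eq_one h4
    have h7 := orderOf_dvd_of_pow_eq_one h5
    have h8 : orderOf ζ ∣ 1 := by
      rw [← hcop']
      exact Nat.dvd_gcd h6 h7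
    exact orderOf_eq_one_iff.mp (Nat.dvd_one.mp h8)
  obtain ⟨m, hm⟩ := pow_of_roots (k := k) p n hn (fun ζ hζ => by
    refine hboth ζ ?_ hζ
    have h4 := hev ζ
    rw [hζ, sub_self, zero_pow ha'.ne'] at h4
    exact (sub_eq_zero.mp ((pow_eq_zero_iff hb'.ne').mp h4)).symm)
  obtain ⟨m', hm'⟩ := pow_of_roots (k := k) p α hα (fun ζ hζ => by
    refine hboth ζ hζ ?_
    have h4 := hev ζ
    rw [hζ, sub_self, zero_pow hb'.ne'] at h4
    exact (sub_eq_zero.mp ((pow_eq_zero_iff ha'.ne').mp h4.symm)).symm)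
  refine ⟨m, m', ?_⟩
  rw [← hm, ← hm', hfτ, hxτ, hD1, map_one, one_mul, zpow_natCast, ← pow_mul, ← pow_mul, mul_comm]

end Pool.Agent.ClaimF
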