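import Pool.Agent.EN2.Comp
import Pool.Agent.EN2.ClaimG

/-!
# Best approximation by constants
-/

set_option autoImplicit false

noncomputable section

namespace Pool.Agent.EN2

open IsLocalRing Pool.Agent.ClaimF Pool.Agent.SRF Pool.Agent.DIS

variable {K : Type} [Field K] {F : Type} [Field F] [Algebra K F]
variable {O : ValuationSubring K} {x y : F}

/-- `x`, `y` are algebraically dependent over `K(z)` -/
lemma dep_adjoin [IsAlgClosed K] (hS : IsSurf K x y) (z : F) (hz : z ∉ Set.range (algebraMap K F)) :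
    ¬ AlgebraicIndependent (IntermediateField.adjoin K {z}) ![x, y] := by
  intro hind
  have h1 : Algebra.trdeg K F = 2 := by
    have hb : IsTranscendenceBasis K ![x, y] := by
      rw [hS.indep.isTranscendenceBasis_iff_isAlgebraic]
      have hfin := hS.fin
      have h2 : Algebra.IsAlgebraic (IntermediateField.adjoin K (Set.range ![x, y])) F := by
        rw [range_xy]
        infer_instance
      exact IntermediateField.isAlgebraic_adjoin_iff_top.mp h2
    rw [← hb.cardinalMk_eq_trdeg]
    simp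
  have h2 : Algebra.Transcendental K (IntermediateField.adjoin K {z}) := by
    rw [Algebra.transcendental_iff_not_isAlgebraic]
    intro h
    have h3 := h.isAlgebraic (⟨z, IntermediateField.mem_adjoin_simple_self K z⟩ :
      IntermediateField.adjoin K {z})
    have h4 : IsAlgebraic K z := by
      have := (isAlgebraic_algebraMap_iff (R := K) (A := F)
        (algebraMap (IntermediateField.adjoin K {z}) F).injective).mpr h3
      exact this
    obtain ⟨a, rfl⟩ := range_of_algebraic h4
    exact hz ⟨a, rfl⟩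
  have h3 := trdeg_pos K (IntermediateField.adjoin K {z})
  have h4 := trdeg_add_eq K (IntermediateField.adjoin K {z}) (A := F)
  have h5 := hind.cardinalMk_le_trdeg
  rw [h1] at h4
  have h6 : (1 : Cardinal) ≤ Algebra.trdeg K (IntermediateField.adjoin K {z}) :=
    Cardinal.one_le_iff_pos.mpr h3
  have h7 : (2 : Cardinal) ≤ Algebra.trdeg (IntermediateField.adjoin K {z}) F := by
    simpa using h5
  have h8 : (1 : Cardinal) + 2 ≤ 2 := by
    calc (1 : Cardinal) + 2 ≤ _ := add_le_add h6 h7
      _ = 2 := h4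
  have h9 : ((3 : ℕ) : Cardinal.{0}) ≤ ((2 : ℕ) : Cardinal.{0}) := by
    have e : ((3 : ℕ) : Cardinal.{0}) = 1 + 2 := by norm_num
    rw [e]
    exact_mod_cast h8
  rw [Nat.cast_le] at h9
  omega

/-- elements with the size of a constant and constant leading residue -/
def Cl (c : Pl O F) (f : F) : Prop := ∃ κ : K, κ ≠ 0 ∧ κ⁻¹ • f ∈ c.W ∧ c.res (κ⁻¹ • f) ≠ 0 ∧
  c.res (κ⁻¹ • f) ∈ Set.range (algebraMap (ResidueField O) (ResidueField c.W))

lemma Cl.mul {c : Pl O F} {f g : F} (hf : Cl c f) (hg : Cl c g) : Cl c (f * g) := by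
  obtain ⟨κ, hκ, h1, h2, ⟨a, ha⟩⟩ := hf
  obtain ⟨l, hl, h3, h4, ⟨b, hb⟩⟩ := hg
  have e : (κ * l)⁻¹ • (f * g) = (κ⁻¹ • f) * (l⁻¹ • g) := by
    simp only [Algebra.smul_def, map_inv₀, map_mul, mul_inv]
    ring
  refine ⟨κ * l, mul_ne_zero hκ hl, ?_, ?_, a * b, ?_⟩
  · rw [e]
    exact mul_mem h1 h3
  · rw [e, c.res_mul h1 h3]
    exact mul_ne_zero h2 h4
  · rw [e, c.res_mul h1 h3, map_mul, ha, hb]

lemma Cl.div {c : Pl O F} {f g : F} (hf : Cl c f) (hg : Cl c g) : Cl c (f / g) := by
  obtain ⟨κ, hκ, h1, h2, ⟨a, ha⟩⟩ := hf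
  obtain ⟨l, hl, h3, h4, ⟨b, hb⟩⟩ := hg
  have e : (κ / l)⁻¹ • (f / g) = (κ⁻¹ • f) / (l⁻¹ • g) := by
    have hκF : algebraMap K F κ ≠ 0 := by simpa using hκ
    have hlF : algebraMap K F l ≠ 0 := by simpa using hl
    simp only [Algebra.smul_def, map_inv₀, map_div₀]
    field_simp
  refine ⟨κ / l, div_ne_zero hκ hl, ?_, ?_, a / b, ?_⟩
  · rw [e]
    exact c.div_mem h1 h4
  · rw [e, c.res_div h1 h4]
    exact div_ne_zero h2 h4
  · rw [e, c.res_div h1 h4, map_div₀, ha, hb]

lemma Cl.const {c : Pl O F} {a : K} (ha : a ≠ 0) : Cl c (algebraMap K F a) := by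
  have e : a⁻¹ • algebraMap K F a = 1 := by
    rw [Algebra.smul_def, ← map_mul, inv_mul_cancel₀ ha, map_one]
  refine ⟨a, ha, ?_, ?_, 1, ?_⟩
  · rw [e]
    exact one_mem _
  · rw [e, c.res_one]
    exact one_ne_zero
  · rw [e, c.res_one, map_one]

/-- the residues of integral elements -/
lemma Cl.res {c : Pl O F} {f : F} (hf : Cl c f) (h : f ∈ c.W) :
    c.res f ∈ Set.range (algebraMap (ResidueField O) (ResidueField c.W)) := by
  obtain ⟨κ, hκ, h1, h2, ⟨a, ha⟩⟩ := hf
  have hκF : algebraMap K F κ ≠ 0 := by simpa using hκ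
  have e : f = algebraMap K F κ * (κ⁻¹ • f) := by
    rw [Algebra.smul_def, map_inv₀]
    field_simp
  have hκO : κ ∈ O := by
    rw [← c.mem_iff]
    have e2 : algebraMap K F κ = f / (κ⁻¹ • f) := by
      have hf0 : f ≠ 0 := by
        rintro rfl
        rw [smul_zero, c.res_zero] at h2
        exact h2 rfl
      rw [Algebra.smul_def, map_inv₀]
      field_simp
    rw [e2]
    exact c.div_mem h h2
  refine ⟨residue O ⟨κ, hκO⟩ * a, ?_⟩
  rw [map_mul, ha]
  conv_rhs => rw [e]
  rw [c.res_mul (c.mem_alg hκO) h1]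
  congr 1
  exact (c.res_algebraMap ⟨κ, hκO⟩).symm

/-- polynomials in an element without best approximation -/
lemma cl_poly [IsAlgClosed K] {c : Pl O F} (z : F)
    (h : ∀ α : K, Cl c (z - algebraMap K F α)) (P : Polynomial K) (hP : P ≠ 0) :
    Cl c (Polynomial.aeval z P) := by
  have hs := IsAlgClosed.splits P
  rw [hs.eq_prod_roots]
  rw [map_mul, Polynomial.aeval_C]
  refine (Cl.const (by simpa using hP)).mul ?_
  have key : ∀ s : Multiset K, Cl c (Polynomial.aeval z
      (s.map fun a => (Polynomial.X - Polynomial.C a)).prod) := by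
    intro s
    induction s using Multiset.induction_on with
    | empty =>
      rw [Multiset.map_zero, Multiset.prod_zero, map_one, ← map_one (algebraMap K F)]
      exact Cl.const one_ne_zero
    | cons a s ih =>
      rw [Multiset.map_cons, Multiset.prod_cons, map_mul, map_sub, Polynomial.aeval_X,
        Polynomial.aeval_C]
      exact (h a).mul ih
  exact key _

/-- best approximation by constants -/
theorem comp_ba [IsAlgClosed K] (hS : IsSurf K x y) : BA (fun c : Comp O x y => c.1) := by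
  classical
  rintro ⟨c, hc⟩ z hz
  by_contra hcon
  push Not at hcon
  simp only at hcon
  have hcl : ∀ α : K, Cl c (z - algebraMap K F α) := by
    intro α
    have hne : z - algebraMap K F α ≠ 0 := by
      intro h
      exact hz ⟨α, (sub_eq_zero.mp h).symm⟩
    obtain ⟨κ, hκ, h1, h2⟩ := hc.sz hS hne
    have h3 := hcon α κ hκ h1
    exact ⟨κ, hκ, h1, h2, h3⟩
  have hE : ∀ f ∈ IntermediateField.adjoin K {z}, f ≠ 0 → Cl c f := by
    intro f hf hf0
    rw [IntermediateField.mem_adjoin_simple_iff] at hf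
    obtain ⟨r, s, rfl⟩ := hf
    refine Cl.div (cl_poly z hcl r ?_) (cl_poly z hcl s ?_)
    · rintro rfl
      exact hf0 (by rw [map_zero, zero_div])
    · rintro rfl
      exact hf0 (by rw [map_zero, div_zero])
  have hdep := dep_adjoin hS z hz
  rw [algebraicIndependent_iff] at hdep
  push Not at hdep
  obtain ⟨P, hP, hP0⟩ := hdep
  obtain ⟨co, hco⟩ : ∃ co : (Fin 2 →₀ ℕ) → F,
      ∀ d, co d = algebraMap (IntermediateField.adjoin K {z}) F (P.coeff d) := ⟨_, fun _ => rfl⟩
  have hco0 : ∀ d, co d = 0 ↔ P.coeff d = 0 := by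
    intro d
    rw [hco, map_eq_zero]
  have hcoE : ∀ d, co d ∈ IntermediateField.adjoin K {z} := by
    intro d
    rw [hco]
    exact (P.coeff d).2
  obtain ⟨d₀, hd₀, hmax⟩ := Finset.exists_max_image P.support
    (fun d => c.W.valuation (co d)) (MvPolynomial.support_nonempty.mpr hP0)
  have h0 : co d₀ ≠ 0 := by
    rw [Ne, hco0]
    exact MvPolynomial.mem_support_iff.mp hd₀
  have hmem : ∀ d, co d / co d₀ ∈ c.W := by
    intro d
    by_cases hd : d ∈ P.support
    · rw [mem_iff_val, map_div₀]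
      exact div_le_one_of_le₀ (hmax d hd) zero_le
    · rw [(hco0 d).mpr (MvPolynomial.notMem_support_iff.mp hd), zero_div]
      exact zero_mem _
  have hres : ∀ d, ∃ a : ResidueField O, algebraMap (ResidueField O) (ResidueField c.W) a =
      c.res (co d / co d₀) := by
    intro d
    by_cases hd : co d = 0
    · refine ⟨0, ?_⟩
      rw [hd]
      simp
    · refine Cl.res (c := c) ?_ (hmem d)
      exact (hE _ (hcoE d) hd).div (hE _ (hcoE d₀) h0)
  choose a ha using hres
  -- the reduced polynomial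
  let Q : MvPolynomial (Fin 2) (ResidueField O) :=
    ∑ d ∈ P.support, MvPolynomial.monomial d (a d)
  have hQ : MvPolynomial.aeval ![c.res x, c.res y] Q = 0 := by
    have hm : ∀ m, (![x, y] : Fin 2 → F) m ∈ c.W := hc.mem
    have e1 : ∑ d ∈ P.support, (co d / co d₀) *
        ∏ i, (![x, y] : Fin 2 → F) i ^ d i = 0 := by
      have h1 : ∑ d ∈ P.support, co d * ∏ i, (![x, y] : Fin 2 → F) i ^ d i = 0 := by
        rw [← hP, MvPolynomial.aeval_def, MvPolynomial.eval₂_eq']
        refine Finset.sum_congr rfl fun d _ => ?_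
        rw [hco]
      have h2 : ∀ d, (co d / co d₀) * ∏ i, (![x, y] : Fin 2 → F) i ^ d i =
          (co d₀)⁻¹ * (co d * ∏ i, (![x, y] : Fin 2 → F) i ^ d i) := by
        intro d
        rw [div_eq_mul_inv]
        ring
      simp_rw [h2]
      rw [← Finset.mul_sum, h1, mul_zero]
    have e2 : ∀ S : Finset (Fin 2 →₀ ℕ), (∑ d ∈ S, (co d / co d₀) *
        ∏ i, (![x, y] : Fin 2 → F) i ^ d i) ∈ c.W ∧
        c.res (∑ d ∈ S, (co d / co d₀) *
        ∏ i, (![x, y] : Fin 2 → F) i ^ d i) =
        MvPolynomial.aeval ![c.res x, c.res y] (∑ d ∈ S, MvPolynomial.monomial d (a d)) := by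
      intro S
      induction S using Finset.induction_on with
      | empty => simp
      | insert d S hd ih =>
        rw [Finset.sum_insert hd, Finset.sum_insert hd, map_add]
        have k0 : ∏ i, (![x, y] : Fin 2 → F) i ^ d i ∈ c.W := by
          exact prod_mem fun i _ => pow_mem (hm i) _
        have k1 := mul_mem (hmem d) k0
        refine ⟨add_mem k1 ih.1, ?_⟩
        rw [c.res_add k1 ih.1, ih.2, c.res_mul (hmem d) k0]
        congr 1
        rw [MvPolynomial.aeval_monomial, ha]
        congr 1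
        rw [Fin.prod_univ_two, c.res_mul (pow_mem (hm 0) _) (pow_mem (hm 1) _),
          c.res_pow (hm 0), c.res_pow (hm 1)]
        rw [Finsupp.prod_fintype _ _ (fun i => pow_zero _), Fin.prod_univ_two]
        rfl
    have e3 := (e2 P.support).2
    rw [e1, c.res_zero] at e3
    exact e3.symm
  have hQ0 := (algebraicIndependent_iff.mp hc.indep) Q hQ
  have h1 := congrArg (MvPolynomial.coeff d₀) hQ0
  rw [MvPolynomial.coeff_sum, MvPolynomial.coeff_zero] at h1
  simp only [MvPolynomial.coeff_monomial] at h1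
  rw [Finset.sum_ite_eq' , if_pos hd₀] at h1
  have h2 := ha d₀
  rw [h1, map_zero, div_self h0, c.res_one] at h2
  exact zero_ne_one h2

end Pool.Agent.EN2
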