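import Pool.Agent.EN2.Defs

/-!
# Residues
-/

set_option autoImplicit false

noncomputable section

namespace Pool.Agent.EN2

open IsLocalRing Pool.Agent.ClaimF

variable {K : Type} [Field K] {O : ValuationSubring K} {F : Type} [Field F] [Algebra K F]

namespace Pl

variable (c : Pl O F)

lemma alg_apply (a : O) : algebraMap (ResidueField O) (ResidueField c.W) (residue O a) =
    residue c.W (c.inc a) := rfl

lemma res_algebraMap (a : O) :
    c.res (algebraMap K F a) = algebraMap (ResidueField O) (ResidueField c.W) (residue O a) := by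
  rw [c.res_of_mem ((c.mem_iff a).mpr a.2)]
  rfl

lemma mem_alg {a : K} (ha : a ∈ O) : algebraMap K F a ∈ c.W := (c.mem_iff a).mpr ha

@[simp] lemma res_zero : c.res 0 = 0 := by
  rw [c.res_of_mem (zero_mem _)]
  exact map_zero (residue c.W)

@[simp] lemma res_one : c.res 1 = 1 := by
  rw [c.res_of_mem (one_mem _)]
  exact map_one (residue c.W)

lemma res_add {f g : F} (hf : f ∈ c.W) (hg : g ∈ c.W) : c.res (f + g) = c.res f + c.res g := by
  rw [c.res_of_mem hf, c.res_of_mem hg, c.res_of_mem (add_mem hf hg), ← map_add]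
  rfl

lemma res_mul {f g : F} (hf : f ∈ c.W) (hg : g ∈ c.W) : c.res (f * g) = c.res f * c.res g := by
  rw [c.res_of_mem hf, c.res_of_mem hg, c.res_of_mem (mul_mem hf hg), ← map_mul]
  rfl

lemma res_neg {f : F} (hf : f ∈ c.W) : c.res (-f) = -c.res f := by
  rw [c.res_of_mem hf, c.res_of_mem (neg_mem hf), ← map_neg]
  rfl

lemma res_sub {f g : F} (hf : f ∈ c.W) (hg : g ∈ c.W) : c.res (f - g) = c.res f - c.res g := by
  rw [c.res_of_mem hf, c.res_of_mem hg, c.res_of_mem (sub_mem hf hg), ← map_sub]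
  rfl

lemma res_pow {f : F} (hf : f ∈ c.W) (n : ℕ) : c.res (f ^ n) = c.res f ^ n := by
  rw [c.res_of_mem hf, c.res_of_mem (pow_mem hf n), ← map_pow]
  rfl

lemma res_eq_zero {f : F} (hf : f ∈ c.W) : c.res f = 0 ↔ f ∈ c.W.nonunits := by
  rw [c.res_of_mem hf, residue_eq_zero_iff]
  exact (ValuationSubring.coe_mem_nonunits_iff (a := (⟨f, hf⟩ : c.W))).symm

lemma mem_of_nonunit {f : F} (hf : f ∈ c.W.nonunits) : f ∈ c.W :=
  ValuationSubring.nonunits_subset hf

lemma res_nonunit {f : F} (hf : f ∈ c.W.nonunits) : c.res f = 0 :=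
  (c.res_eq_zero (c.mem_of_nonunit hf)).mpr hf

lemma nonunits_iff {f : F} : f ∈ c.W.nonunits ↔ f ∈ c.W ∧ c.res f = 0 :=
  ⟨fun h => ⟨c.mem_of_nonunit h, c.res_nonunit h⟩, fun h => (c.res_eq_zero h.1).mp h.2⟩

lemma inv_mem {f : F} (h0 : c.res f ≠ 0) : f⁻¹ ∈ c.W := by
  have hf : f ∈ c.W := by
    by_contra h
    exact h0 (by rw [res, dif_neg h])
  by_contra h
  apply h0
  rw [c.res_eq_zero hf]
  rw [ValuationSubring.mem_nonunits_iff_or]
  exact Or.inr h

lemma mem_of_res {f : F} (h0 : c.res f ≠ 0) : f ∈ c.W := by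
  by_contra h
  exact h0 (by rw [res, dif_neg h])

lemma ne_zero_of_res {f : F} (h0 : c.res f ≠ 0) : f ≠ 0 := by
  rintro rfl
  exact h0 c.res_zero

lemma res_inv {f : F} (h0 : c.res f ≠ 0) : c.res f⁻¹ = (c.res f)⁻¹ := by
  have h1 := c.res_mul (c.mem_of_res h0) (c.inv_mem h0)
  rw [mul_inv_cancel₀ (c.ne_zero_of_res h0), c.res_one] at h1
  exact eq_inv_of_mul_eq_one_right h1.symm

lemma res_div {f g : F} (hf : f ∈ c.W) (h0 : c.res g ≠ 0) : c.res (f / g) = c.res f / c.res g := by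
  rw [div_eq_mul_inv, c.res_mul hf (c.inv_mem h0), c.res_inv h0, div_eq_mul_inv]

lemma div_mem {f g : F} (hf : f ∈ c.W) (h0 : c.res g ≠ 0) : f / g ∈ c.W := by
  rw [div_eq_mul_inv]
  exact mul_mem hf (c.inv_mem h0)

/-- nonunits form an ideal -/
lemma nonunit_mul {f g : F} (hf : f ∈ c.W) (hg : g ∈ c.W.nonunits) : f * g ∈ c.W.nonunits := by
  rw [nonunits_iff] at hg ⊢
  refine ⟨mul_mem hf hg.1, ?_⟩
  rw [c.res_mul hf hg.1, hg.2, mul_zero]

lemma nonunit_add {f g : F} (hf : f ∈ c.W.nonunits) (hg : g ∈ c.W.nonunits) :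
    f + g ∈ c.W.nonunits := by
  rw [nonunits_iff] at hf hg ⊢
  refine ⟨add_mem hf.1 hg.1, ?_⟩
  rw [c.res_add hf.1 hg.1, hg.2, hf.2, add_zero]

lemma nonunit_sub {f g : F} (hf : f ∈ c.W.nonunits) (hg : g ∈ c.W.nonunits) :
    f - g ∈ c.W.nonunits := by
  rw [nonunits_iff] at hf hg ⊢
  refine ⟨sub_mem hf.1 hg.1, ?_⟩
  rw [c.res_sub hf.1 hg.1, hg.2, hf.2, sub_zero]

lemma not_mem_inv {f : F} (hf : f ∉ c.W) : f⁻¹ ∈ c.W.nonunits := by
  rw [ValuationSubring.mem_nonunits_iff_or]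
  right
  rwa [inv_inv]

/-- the constants in the maximal ideal -/
lemma alg_nonunit {a : K} : algebraMap K F a ∈ c.W.nonunits ↔ a ∈ O.nonunits := by
  rw [ValuationSubring.mem_nonunits_iff_or, ValuationSubring.mem_nonunits_iff_or,
    ← map_inv₀, c.mem_iff, map_eq_zero]

lemma smul_mem {a : K} (ha : a ∈ O) {f : F} (hf : f ∈ c.W) : a • f ∈ c.W := by
  rw [Algebra.smul_def]
  exact mul_mem (c.mem_alg ha) hf

lemma smul_nonunit {a : K} (ha : a ∈ O.nonunits) {f : F} (hf : f ∈ c.W) : a • f ∈ c.W.nonunits := by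
  rw [Algebra.smul_def, mul_comm]
  exact c.nonunit_mul hf (c.alg_nonunit.mpr ha)

lemma smul_nonunit' {a : K} (ha : a ∈ O) {f : F} (hf : f ∈ c.W.nonunits) :
    a • f ∈ c.W.nonunits := by
  rw [Algebra.smul_def]
  exact c.nonunit_mul (c.mem_alg ha) hf

lemma res_smul {a : K} (ha : a ∈ O) {f : F} (hf : f ∈ c.W) :
    c.res (a • f) = algebraMap (ResidueField O) (ResidueField c.W) (residue O ⟨a, ha⟩) * c.res f := by
  rw [Algebra.smul_def, c.res_mul (c.mem_alg ha) hf]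
  congr 1
  exact c.res_algebraMap ⟨a, ha⟩

end Pl

/-- a nonunit is in the ring -/
lemma nonunit_mem {a : K} (ha : a ∈ O.nonunits) : a ∈ O := ValuationSubring.nonunits_subset ha

lemma nonunit_mul_mem {a b : K} (ha : a ∈ O.nonunits) (hb : b ∈ O) : a * b ∈ O.nonunits := by
  have h1 : O.valuation a < 1 := ha
  have h2 : O.valuation b ≤ 1 := (O.valuation_le_one_iff b).mpr hb
  show O.valuation (a * b) < 1
  rw [map_mul]
  calc O.valuation a * O.valuation b ≤ O.valuation a * 1 := by gcongr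
    _ < 1 := by rwa [mul_one]

section size

variable (c : Pl O F)

/-- comparison of sizes -/
lemma size_trans {κ κ' : K} (h0 : κ ≠ 0) (h : κ'⁻¹ * κ ∈ O) {f : F}
    (hf : κ⁻¹ • f ∈ c.W) : κ'⁻¹ • f ∈ c.W := by
  have h1 : κ'⁻¹ • f = (κ'⁻¹ * κ) • (κ⁻¹ • f) := by
    rw [smul_smul]
    congr 1
    field_simp
  rw [h1]
  exact c.smul_mem h hf

lemma size_lt {κ κ' : K} (h0 : κ ≠ 0) (h : κ'⁻¹ * κ ∈ O.nonunits) {f : F}
    (hf : κ⁻¹ • f ∈ c.W) : κ'⁻¹ • f ∈ c.W.nonunits := by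
  have h1 : κ'⁻¹ • f = (κ'⁻¹ * κ) • (κ⁻¹ • f) := by
    rw [smul_smul]
    congr 1
    field_simp
  rw [h1]
  exact c.smul_nonunit h hf

/-- if `f / κ` is not integral and `f / κ'` is a unit then `κ / κ'` is a nonunit -/
lemma size_cmp {κ κ' : K} (h0 : κ ≠ 0) {f : F} (hf : κ⁻¹ • f ∉ c.W) (h0' : κ' ≠ 0)
    (hf' : κ'⁻¹ • f ∈ c.W) : κ'⁻¹ * κ ∈ O.nonunits := by
  rw [ValuationSubring.mem_nonunits_iff_or]
  right
  intro h
  apply hf
  have h1 : κ⁻¹ • f = (κ'⁻¹ * κ)⁻¹ • (κ'⁻¹ • f) := by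
    rw [smul_smul]
    congr 1
    field_simp
  rw [h1]
  exact c.smul_mem h hf'

end size

/-- an element contained in all valuation rings over a field is algebraic -/
lemma algebraic_of_valuations {E Ω : Type} [Field E] [Field Ω] [Algebra E Ω] (ρ : Ω)
    (h : ∀ V : ValuationSubring Ω, (∀ e : E, algebraMap E Ω e ∈ V) → ρ ∈ V) :
    IsAlgebraic E ρ := by
  rw [isAlgebraic_iff_isIntegral]
  by_contra hn
  have hI : ρ ∉ (integralClosure E Ω).toSubring := hn
  have : IsIntegrallyClosedIn (integralClosure E Ω).toSubring Ω := by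
    have h1 : IsIntegrallyClosedIn (integralClosure E Ω) Ω := inferInstance
    exact h1
  obtain ⟨V, hV, hρ⟩ := Subring.exists_le_valuationSubring_of_isIntegrallyClosedIn hI
  exact hρ (h V fun e => hV (by
    show algebraMap E Ω e ∈ integralClosure E Ω
    exact (integralClosure E Ω).algebraMap_mem e))

end Pool.Agent.EN2
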