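import Pool.Agent.EN2.Peel

/-!
# The multiplicative functional equation
-/

set_option autoImplicit false

open Polynomial

namespace Pool.Agent.ClaimF

section

variable {k Ω : Type*} [Field k] [Field Ω] [Algebra k Ω] [IsAlgClosed Ω]

/-- the homomorphism `x ↦ ζ x`, `x' ↦ ζ x'` which is the identity on `k(x/x')` -/
lemma sigma (x x' : Ω) (hx' : Transcendental k x') (hxx : ¬ AO k x' x)
    (hΩ : ∀ z : Ω, IsAlgebraic (IntermediateField.adjoin k {x, x'}) z) (N : ℕ)
    (hNΩ : (N : Ω) ≠ 0) (hN0 : 0 < N) :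
    ∃ (ζ : Ω) (σ : Ω →+* Ω), IsPrimitiveRoot ζ N ∧ (∀ z ∈ cl k (x / x'), σ z = z) ∧
      σ x = ζ * x ∧ σ x' = ζ * x' ∧ IsAlgebraic k ζ := by
  classical
  have hxt : Transcendental k x := trans_of hxx
  have hx0 : x ≠ 0 := by
    rintro rfl
    exact hxt isAlgebraic_zero
  have hx'0 : x' ≠ 0 := by
    rintro rfl
    exact hx' isAlgebraic_zero
  set w := x / x' with hw
  have hxw : x = w * x' := by rw [hw]; field_simp
  have hw0 : w ≠ 0 := div_ne_zero hx0 hx'0
  have hx'w : x' = x / w := by rw [hxw]; field_simp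
  have hwt : Transcendental k w := by
    intro h
    apply hxx
    rw [← mem_cl, hxw]
    exact mul_mem ((mem_cl _ _).mpr (ao_of_alg h)) (self_mem_cl _)
  -- the field `M`
  have hMx : ¬ IsAlgebraic (cl k w) x := by
    intro h
    have h1 : x ∈ cl k w := cl_closed w h
    have h2 : x' ∈ cl k w := by
      rw [hx'w]
      exact div_mem h1 (self_mem_cl w)
    have h3 : AO k x' w := exch hwt hx' ((mem_cl _ _).mp h2)
    apply hxx
    rw [← mem_cl, hxw]
    exact mul_mem ((mem_cl _ _).mpr h3) (self_mem_cl _)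
  have hMk : ∀ z : Ω, IsAlgebraic k z → z ∈ cl k w := fun z hz => (mem_cl _ _).mpr (ao_of_alg hz)
  have halg : ∀ z : Ω, IsAlgebraic (Algebra.adjoin (cl k w) {x}) z := by
    intro z
    rw [← IntermediateField.isAlgebraic_adjoin_iff]
    have h1 : IntermediateField.adjoin k {x, x'} ≤
        (IntermediateField.adjoin (cl k w) {x}).restrictScalars k := by
      rw [IntermediateField.adjoin_le_iff]
      have hxm : x ∈ (IntermediateField.adjoin (cl k w) {x}) :=
        IntermediateField.mem_adjoin_simple_self _ _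
      have hwm : w ∈ (IntermediateField.adjoin (cl k w) {x}) :=
        (IntermediateField.adjoin (cl k w) {x}).algebraMap_mem ⟨w, self_mem_cl w⟩
      rintro z (rfl | hz)
      · exact hxm
      · rw [Set.mem_singleton_iff] at hz
        rw [hz, hx'w]
        exact div_mem hxm hwm
    exact alg_mem h1 (hΩ z)
  obtain ⟨ζ, hζ⟩ : ∃ ζ : Ω, IsPrimitiveRoot ζ N := by
    have : NeZero (N : Ω) := ⟨hNΩ⟩
    exact HasEnoughRootsOfUnity.exists_primitiveRoot Ω N
  have hζ0 : ζ ≠ 0 := hζ.ne_zero hN0.ne'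
  have hζa : IsAlgebraic k ζ := by
    refine ⟨Polynomial.X ^ N - 1, ?_, ?_⟩
    · exact (Polynomial.monic_X_pow_sub_C (1 : k) hN0.ne').ne_zero
    · simp [hζ.pow_eq_one]
  have hζM : ζ ∈ cl k w := hMk ζ hζa
  have hyt : Transcendental (cl k w) (ζ * x) := by
    intro h
    apply hMx
    have h1 : IsAlgebraic (cl k w) (ζ⁻¹) := by
      have := isAlgebraic_algebraMap (R := cl k w) (A := Ω) (⟨ζ⁻¹, inv_mem hζM⟩ : cl k w)
      exact this
    have h2 := h1.mul h
    rwa [← mul_assoc, inv_mul_cancel₀ hζ0, one_mul] at h2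
  obtain ⟨σ, hσM, hσx⟩ := step1 x (ζ * x) hMx hyt halg
  have hσm : ∀ z ∈ cl k w, σ z = z := fun z hz => hσM ⟨z, hz⟩
  refine ⟨ζ, σ, hζ, hσm, hσx, ?_, hζa⟩
  rw [hx'w, map_div₀, hσx, hσm w (self_mem_cl w), mul_div_assoc]

/-- eigenvectors with different eigenvalues are independent -/
lemma eigen_indep {ι : Type*} (σ : Ω →+* Ω) (v μ : ι → Ω) (hv : ∀ s, v s ≠ 0)
    (hσ : ∀ s, σ (v s) = μ s * v s) (hμ : ∀ s, σ (μ s) = μ s) (S : Finset ι)
    (hinj : Set.InjOn μ S) :
    ∀ a : ι → Ω, (∀ s, σ (a s) = a s) → ∑ s ∈ S, a s * v s = 0 → ∀ s ∈ S, a s = 0 := by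
  classical
  induction S using Finset.induction_on with
  | empty => simp
  | insert s₀ S hs ih =>
    intro a ha hsum
    rw [Finset.sum_insert hs] at hsum
    have h1 : σ (a s₀ * v s₀ + ∑ s ∈ S, a s * v s) = 0 := by rw [hsum, map_zero]
    rw [map_add, map_mul, map_sum, ha, hσ] at h1
    have h2 : ∑ s ∈ S, (a s * (μ s - μ s₀)) * v s = 0 := by
      have h3 : ∑ s ∈ S, σ (a s * v s) = ∑ s ∈ S, a s * (μ s * v s) :=
        Finset.sum_congr rfl fun s _ => by rw [map_mul, ha, hσ]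
      rw [h3] at h1
      have h4 : ∑ s ∈ S, (a s * (μ s - μ s₀)) * v s =
          ∑ s ∈ S, a s * (μ s * v s) - μ s₀ * ∑ s ∈ S, a s * v s := by
        rw [Finset.mul_sum, ← Finset.sum_sub_distrib]
        exact Finset.sum_congr rfl fun s _ => by ring
      rw [h4]
      linear_combination h1 - μ s₀ * hsum
    have h5 := ih (hinj.mono (by simp)) (fun s => a s * (μ s - μ s₀))
      (fun s => by rw [map_mul, map_sub, ha, hμ, hμ]) h2
    have h6 : ∀ s ∈ S, a s = 0 := by
      intro s hsS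
      have h7 := h5 s hsS
      rcases mul_eq_zero.mp h7 with h8 | h8
      · exact h8
      · exfalso
        have h9 : μ s = μ s₀ := sub_eq_zero.mp h8
        have h10 := hinj (by simp [hsS]) (by simp) h9
        rw [h10] at hsS
        exact hs hsS
    intro s hsS
    rcases Finset.mem_insert.mp hsS with rfl | h
    · rw [Finset.sum_eq_zero (fun s hs => by rw [h6 s hs, zero_mul]), add_zero] at hsum
      exact (mul_eq_zero.mp hsum).resolve_right (hv _)
    · exact h6 s h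

/-- a fixed element over which `x` has small degree -/
lemma fixed_count (σ : Ω →+* Ω) (hσk : ∀ a : k, σ (algebraMap k Ω a) = algebraMap k Ω a)
    (x g ζ : Ω) (hx0 : x ≠ 0) (N : ℕ) (hζ : IsPrimitiveRoot ζ N) (hσζ : σ ζ = ζ)
    (hσx : σ x = ζ * x) (hg : σ g = g) (P : (Algebra.adjoin k {g})[X]) (hP0 : P ≠ 0)
    (hPx : aeval x P = 0) : N ≤ P.natDegree := by
  classical
  set Q := P.map (algebraMap (Algebra.adjoin k {g}) Ω) with hQ
  have hinj : Function.Injective (algebraMap (Algebra.adjoin k {g}) Ω) := Subtype.coe_injective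
  have hQ0 : Q ≠ 0 := by
    rw [hQ, Ne, Polynomial.map_eq_zero_iff hinj]
    exact hP0
  have hit : ∀ n : ℕ, (σ ^ n) x = ζ ^ n * x ∧ (σ ^ n) g = g := by
    intro n
    induction n with
    | zero => simp
    | succ n ih =>
      rw [pow_succ', RingHom.mul_def, RingHom.comp_apply, RingHom.comp_apply, ih.1, ih.2]
      constructor
      · rw [map_mul, map_pow, hσζ, hσx]
        ring
      · exact hg
  have hfixk : ∀ (n : ℕ) (a : k), (σ ^ n) (algebraMap k Ω a) = algebraMap k Ω a := by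
    intro n a
    induction n with
    | zero => simp
    | succ n ih => rw [pow_succ', RingHom.mul_def, RingHom.comp_apply, ih, hσk]
  have hfixA : ∀ (i : ℕ) (a : Algebra.adjoin k {g}), (σ ^ i) (a : Ω) = a := by
    intro i a
    obtain ⟨a, ha⟩ := a
    show (σ ^ i) a = a
    induction ha using Algebra.adjoin_induction with
    | mem z hz =>
      rw [Set.mem_singleton_iff] at hz
      rw [hz]
      exact (hit i).2
    | algebraMap r => exact hfixk _ r
    | add a b _ _ iha ihb => rw [map_add, iha, ihb]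
    | mul a b _ _ iha ihb => rw [map_mul, iha, ihb]
  have hroot : ∀ i : ℕ, Q.eval (ζ ^ i * x) = 0 := by
    intro i
    rw [← (hit i).1, hQ, Polynomial.eval_map]
    have h1 : Polynomial.eval₂ (algebraMap (Algebra.adjoin k {g}) Ω) x P = 0 := hPx
    have h2 := congrArg (σ ^ i) h1
    rw [map_zero, Polynomial.hom_eval₂] at h2
    have h3 : (σ ^ i).comp (algebraMap (Algebra.adjoin k {g}) Ω) =
        algebraMap (Algebra.adjoin k {g}) Ω := by
      ext a
      exact hfixA i a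
    rwa [h3] at h2
  have h1 : (Finset.image (fun i : ℕ => ζ ^ i * x) (Finset.range N)).card = N := by
    rw [Finset.card_image_of_injOn, Finset.card_range]
    intro i hi j hj hij
    have h2 : ζ ^ i = ζ ^ j := mul_right_cancel₀ hx0 hij
    exact hζ.pow_inj (by simpa using hi) (by simpa using hj) h2
  have h2 : Finset.image (fun i : ℕ => ζ ^ i * x) (Finset.range N) ⊆ Q.roots.toFinset := by
    intro z hz
    rw [Finset.mem_image] at hz
    obtain ⟨i, -, rfl⟩ := hz
    rw [Multiset.mem_toFinset, Polynomial.mem_roots hQ0]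
    exact hroot i
  calc N = _ := h1.symm
    _ ≤ Q.roots.toFinset.card := Finset.card_le_card h2
    _ ≤ Multiset.card Q.roots := Multiset.toFinset_card_le _
    _ ≤ Q.natDegree := Polynomial.card_roots' Q
    _ ≤ P.natDegree := Polynomial.natDegree_map_le

end

section

variable {k Ω : Type} [Field k] [Field Ω] [Algebra k Ω] [IsAlgClosed Ω]

lemma coreM (p : ℕ) [Fact p.Prime] [CharP Ω p] (x x' f f' f'' : Ω) (hx' : Transcendental k x')
    (hxx : ¬ AO k x' x) (hf : AO k x f) (hf' : AO k x' f') (hf'' : AO k (x / x') f'')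
    (h0 : f = f' * f'') (hf0 : f ≠ 0)
    (hΩ : ∀ z : Ω, IsAlgebraic (IntermediateField.adjoin k {x, x'}) z) :
    ∃ A B : ℤ, B ≠ 0 ∧ IsAlgebraic k (x ^ A * f ^ B) ∧ IsAlgebraic k (x' ^ A * f' ^ B) := by
  classical
  have hp : p.Prime := Fact.out
  have hxt : Transcendental k x := trans_of hxx
  have hx0 : x ≠ 0 := by
    rintro rfl
    exact hxt isAlgebraic_zero
  have hx'0 : x' ≠ 0 := by
    rintro rfl
    exact hx' isAlgebraic_zero
  have hf'0 : f' ≠ 0 := by
    rintro rfl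
    exact hf0 (by rw [h0, zero_mul])
  have hf''0 : f'' ≠ 0 := by
    rintro rfl
    exact hf0 (by rw [h0, mul_zero])
  obtain ⟨χ, hχ0, hχ⟩ := EN2.exists_rel hf hf0
  set S : Finset (Σ _ : ℕ, ℕ) := χ.support.sigma fun j => (χ.coeff j).support with hS
  let v : (Σ _ : ℕ, ℕ) → Ω := fun s => x ^ s.2 * f ^ s.1
  let a : (Σ _ : ℕ, ℕ) → Ω := fun s => algebraMap k Ω ((χ.coeff s.1).coeff s.2)
  have hsum : ∑ s ∈ S, a s * v s = 0 := by
    rw [hS, Finset.sum_sigma, ← hχ]
    simp only [EN2.ev, Polynomial.coe_eval₂RingHom]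
    rw [Polynomial.eval₂_eq_sum, Polynomial.sum_def]
    refine Finset.sum_congr rfl fun j _ => ?_
    rw [Polynomial.coe_eval₂RingHom, Polynomial.eval₂_eq_sum, Polynomial.sum_def, Finset.sum_mul]
    refine Finset.sum_congr rfl fun i _ => ?_
    simp only [a, v]
    ring
  let g : (Σ _ : ℕ, ℕ) → (Σ _ : ℕ, ℕ) → Ω := fun s s' =>
    x ^ ((s.2 : ℤ) - s'.2) * f ^ ((s.1 : ℤ) - s'.1)
  let g' : (Σ _ : ℕ, ℕ) → (Σ _ : ℕ, ℕ) → Ω := fun s s' =>
    x' ^ ((s.2 : ℤ) - s'.2) * f' ^ ((s.1 : ℤ) - s'.1)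
  have hgx : ∀ s s', AO k x (g s s') := fun s s' => (mem_cl _ _).mp
    (mul_mem (zpow_mem (self_mem_cl x) _) (zpow_mem ((mem_cl _ _).mpr hf) _))
  have hgx' : ∀ s s', AO k x' (g' s s') := fun s s' => (mem_cl _ _).mp
    (mul_mem (zpow_mem (self_mem_cl x') _) (zpow_mem ((mem_cl _ _).mpr hf') _))
  have hrel : ∀ s s', ∃ d : ℕ, Transcendental k (g s s') →
      ∃ P : (Algebra.adjoin k {g s s'})[X], P ≠ 0 ∧ aeval x P = 0 ∧ P.natDegree ≤ d := by
    intro s s'
    by_cases h : Transcendental k (g s s')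
    · have h1 := exch hxt h (hgx s s')
      rw [AO, IntermediateField.isAlgebraic_adjoin_iff] at h1
      obtain ⟨P, hP0, hP⟩ := h1
      exact ⟨P.natDegree, fun _ => ⟨P, hP0, hP, le_rfl⟩⟩
    · exact ⟨0, fun h' => absurd h' h⟩
  have hrel' : ∀ s s', ∃ d : ℕ, Transcendental k (g' s s') →
      ∃ P : (Algebra.adjoin k {g' s s'})[X], P ≠ 0 ∧ aeval x' P = 0 ∧ P.natDegree ≤ d := by
    intro s s'
    by_cases h : Transcendental k (g' s s')
    · have h1 := exch hx' h (hgx' s s')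
      rw [AO, IntermediateField.isAlgebraic_adjoin_iff] at h1
      obtain ⟨P, hP0, hP⟩ := h1
      exact ⟨P.natDegree, fun _ => ⟨P, hP0, hP, le_rfl⟩⟩
    · exact ⟨0, fun h' => absurd h' h⟩
  choose d hd using hrel
  choose d' hd' using hrel'
  set M : ℕ := ∑ q ∈ S ×ˢ S, (d q.1 q.2 + d' q.1 q.2 + ((q.1.2 : ℤ) - q.2.2).natAbs) with hM
  have hMle : ∀ s ∈ S, ∀ s' ∈ S, d s s' + d' s s' + ((s.2 : ℤ) - s'.2).natAbs ≤ M := by
    intro s hs s' hs'
    exact Finset.single_le_sum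
      (f := fun q : (Σ _ : ℕ, ℕ) × (Σ _ : ℕ, ℕ) =>
        d q.1 q.2 + d' q.1 q.2 + ((q.1.2 : ℤ) - q.2.2).natAbs)
      (fun _ _ => Nat.zero_le _) (Finset.mk_mem_product hs hs')
  set N := p * (M + 1) + 1 with hN
  have hNM : M < N := by
    have : M + 1 ≤ p * (M + 1) := Nat.le_mul_of_pos_left _ hp.pos
    omega
  have hNΩ : (N : Ω) ≠ 0 := by
    rw [hN]
    push_cast
    rw [CharP.cast_eq_zero Ω p]
    simp
  obtain ⟨ζ, σ, hζ, hσw, hσx, hσx', hζa⟩ := sigma x x' hx' hxx hΩ N hNΩ (by omega)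
  have hMk : ∀ z : Ω, IsAlgebraic k z → σ z = z := fun z hz =>
    hσw z ((mem_cl _ _).mpr (ao_of_alg hz))
  have hζ0 : ζ ≠ 0 := hζ.ne_zero (by omega)
  have hσk : ∀ c : k, σ (algebraMap k Ω c) = algebraMap k Ω c := fun c =>
    hMk _ (isAlgebraic_algebraMap c)
  let σk : Ω →ₐ[k] Ω := { σ with commutes' := hσk }
  have hζx : ∀ u : Ω, ζ * u ∈ cl k u := fun u =>
    mul_mem ((mem_cl _ _).mpr (ao_of_alg hζa)) (self_mem_cl u)
  set c := σ f / f with hc
  have hc1 : AO k x c := by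
    have h1 : AO k (ζ * x) (σ f) := by
      have := ao_map σk hf
      rwa [show σk x = ζ * x from hσx] at this
    have h2 : σ f ∈ cl k x := (mem_cl _ _).mpr (ao_trans ((mem_cl _ _).mp (hζx x)) h1)
    exact (mem_cl _ _).mp (div_mem h2 ((mem_cl _ _).mpr hf))
  have hσf'' : σ f'' = f'' := hσw _ ((mem_cl _ _).mpr hf'')
  have hcc : c = σ f' / f' := by
    rw [hc, h0, map_mul, hσf'']
    field_simp
  have hc2 : AO k x' c := by
    have h1 : AO k (ζ * x') (σ f') := by
      have := ao_map σk hf'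
      rwa [show σk x' = ζ * x' from hσx'] at this
    have h2 : σ f' ∈ cl k x' := (mem_cl _ _).mpr (ao_trans ((mem_cl _ _).mp (hζx x')) h1)
    rw [hcc]
    exact (mem_cl _ _).mp (div_mem h2 ((mem_cl _ _).mpr hf'))
  have hcalg : IsAlgebraic k c := inter hxt hxx hc1 hc2
  have hσf : σ f = c * f := by
    rw [hc]
    field_simp
  have hσf' : σ f' = c * f' := by
    rw [hcc]
    field_simp
  have hc0 : c ≠ 0 := by
    intro h
    rw [h, zero_mul] at hσf
    exact hf0 (σ.injective (by rw [hσf, map_zero]))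
  let μ : (Σ _ : ℕ, ℕ) → Ω := fun s => ζ ^ s.2 * c ^ s.1
  have hnot : ¬ Set.InjOn μ S := by
    intro hinj
    have h1 := eigen_indep σ v μ (fun s => mul_ne_zero (pow_ne_zero _ hx0)
      (pow_ne_zero _ hf0)) (fun s => by
        simp only [v, μ]
        rw [map_mul, map_pow, map_pow, hσx, hσf, mul_pow, mul_pow]
        ring) (fun s => by
        simp only [μ]
        rw [map_mul, map_pow, map_pow, hMk ζ hζa, hMk c hcalg]) S hinj a
      (fun s => hσk _) hsum
    have h2 : (χ.coeff 0).support.Nonempty := by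
      rw [Polynomial.support_nonempty]
      exact hχ0
    obtain ⟨i, hi⟩ := h2
    have h3 : (⟨0, i⟩ : Σ _ : ℕ, ℕ) ∈ S := by
      rw [hS, Finset.mem_sigma]
      exact ⟨by rwa [Polynomial.mem_support_iff], hi⟩
    have h4 := h1 _ h3
    simp only [a] at h4
    rw [map_eq_zero] at h4
    exact (Polynomial.mem_support_iff.mp hi) h4
  rw [Set.InjOn] at hnot
  push Not at hnot
  obtain ⟨s, hs, s', hs', hμ, hne⟩ := hnot
  rw [Finset.mem_coe] at hs hs'
  have hle := hMle s hs s' hs'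
  have hrel1 : ζ ^ ((s.2 : ℤ) - s'.2) * c ^ ((s.1 : ℤ) - s'.1) = 1 := by
    rw [zpow_sub₀ hζ0, zpow_sub₀ hc0, zpow_natCast, zpow_natCast, zpow_natCast, zpow_natCast]
    have h1 : ζ ^ s.2 * c ^ s.1 = ζ ^ s'.2 * c ^ s'.1 := hμ
    field_simp
    rw [h1]
  have hB : ((s.1 : ℤ) - s'.1) ≠ 0 := by
    intro hB0
    rw [hB0, zpow_zero, mul_one] at hrel1
    have h2 := (hζ.zpow_eq_one_iff_dvd _).mp hrel1
    have h3 : ((s.2 : ℤ) - s'.2) = 0 := by
      apply Int.eq_zero_of_abs_lt_dvd h2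
      have : |(s.2 : ℤ) - s'.2| = (((s.2 : ℤ) - s'.2).natAbs : ℤ) := (Int.natCast_natAbs _).symm
      rw [this]
      exact_mod_cast (by omega : ((s.2 : ℤ) - s'.2).natAbs < N)
    apply hne
    obtain ⟨s1, s2⟩ := s
    obtain ⟨s1', s2'⟩ := s'
    simp only at hB0 h3
    have e1 : s1 = s1' := by omega
    have e2 : s2 = s2' := by omega
    rw [e1, e2]
  refine ⟨(s.2 : ℤ) - s'.2, (s.1 : ℤ) - s'.1, hB, ?_, ?_⟩
  · by_contra hg
    obtain ⟨P, hP0, hP, hPd⟩ := hd s s' hg
    have h1 : σ (g s s') = g s s' := by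
      simp only [g]
      rw [map_mul, map_zpow₀, map_zpow₀, hσx, hσf, mul_zpow, mul_zpow]
      calc _ = (ζ ^ ((s.2 : ℤ) - s'.2) * c ^ ((s.1 : ℤ) - s'.1)) *
          (x ^ ((s.2 : ℤ) - s'.2) * f ^ ((s.1 : ℤ) - s'.1)) := by ring
        _ = _ := by rw [hrel1, one_mul]
    have h2 := fixed_count σ hσk x (g s s') ζ hx0 N hζ (hMk ζ hζa) hσx h1 P hP0 hP
    omega
  · by_contra hg
    obtain ⟨P, hP0, hP, hPd⟩ := hd' s s' hg
    have h1 : σ (g' s s') = g' s s' := by
      simp only [g']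
      rw [map_mul, map_zpow₀, map_zpow₀, hσx', hσf', mul_zpow, mul_zpow]
      calc _ = (ζ ^ ((s.2 : ℤ) - s'.2) * c ^ ((s.1 : ℤ) - s'.1)) *
          (x' ^ ((s.2 : ℤ) - s'.2) * f' ^ ((s.1 : ℤ) - s'.1)) := by ring
        _ = _ := by rw [hrel1, one_mul]
    have h2 := fixed_count σ hσk x' (g' s s') ζ hx'0 N hζ (hMk ζ hζa) hσx' h1 P hP0 hP
    omega

end

section

variable {k L : Type} [Field k] [Field L] [Algebra k L]

lemma stepMA (p : ℕ) [Fact p.Prime] [CharP L p] (x x' f f' f'' : L) (hx' : Transcendental k x')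
    (hxx : ¬ AO k x' x) (hf : AO k x f) (hf' : AO k x' f') (hf'' : AO k (x / x') f'')
    (h0 : f = f' * f'') (hf0 : f ≠ 0)
    (hL : ∀ z : L, IsAlgebraic (IntermediateField.adjoin k {x, x'}) z) :
    ∃ A B : ℤ, B ≠ 0 ∧ IsAlgebraic k (x ^ A * f ^ B) ∧ IsAlgebraic k (x' ^ A * f' ^ B) := by
  let ι : L →ₐ[k] AlgebraicClosure L := IsScalarTower.toAlgHom k L (AlgebraicClosure L)
  have halgι : ∀ z : L, IsAlgebraic k (ι z) ↔ IsAlgebraic k z := fun z =>
    isAlgebraic_algHom_iff ι ι.injective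
  have hchar : CharP (AlgebraicClosure L) p := inferInstance
  obtain ⟨A, B, hB, h1, h2⟩ := coreM p (ι x) (ι x') (ι f) (ι f') (ι f'')
    (fun h => hx' ((halgι _).mp h)) (fun h => hxx ((ao_hom ι x' x).mp h)) ((ao_hom ι x f).mpr hf)
    ((ao_hom ι x' f').mpr hf') (by
      rw [← map_div₀]
      exact (ao_hom ι _ _).mpr hf'') (by rw [h0, map_mul]) (by simpa using hf0) (by
      intro z
      have h1 : IsAlgebraic L z := Algebra.IsAlgebraic.isAlgebraic z
      have h2 : Algebra.IsAlgebraic (IntermediateField.adjoin k {x, x'}) L := ⟨hL⟩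
      have h3 : IsAlgebraic (IntermediateField.adjoin k {x, x'}) z :=
        IsAlgebraic.restrictScalars (IntermediateField.adjoin k {x, x'}) h1
      have hmap : IntermediateField.adjoin k {ι x, ι x'} =
          (IntermediateField.adjoin k {x, x'}).map ι := by
        rw [IntermediateField.adjoin_map, Set.image_pair]
      let g : IntermediateField.adjoin k {x, x'} →+* IntermediateField.adjoin k {ι x, ι x'} :=
        { toFun := fun a => ⟨ι a, by
            rw [hmap]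
            exact ⟨a, a.2, rfl⟩⟩
          map_one' := by ext; simp
          map_mul' := fun a b => by ext; simp
          map_zero' := by ext; simp
          map_add' := fun a b => by ext; simp }
      exact IsAlgebraic.ringHom_of_comp_eq g (RingHom.id (AlgebraicClosure L)) h3 g.injective rfl)
  refine ⟨A, B, hB, ?_, ?_⟩
  · rw [← map_zpow₀, ← map_zpow₀, ← map_mul] at h1
    exact (halgι _).mp h1
  · rw [← map_zpow₀, ← map_zpow₀, ← map_mul] at h2
    exact (halgι _).mp h2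

lemma stepMC {E : Type} [Field E] [Algebra k E] (σ : E →ₐ[k] L) (p : ℕ) [Fact p.Prime]
    [CharP L p] (x x' f f' f'' : E) (hx' : Transcendental k (σ x'))
    (hxx : ¬ AO k (σ x') (σ x)) (hf : AO k (σ x) (σ f)) (hf' : AO k (σ x') (σ f'))
    (hf'' : AO k (σ x / σ x') (σ f'')) (h0 : σ f = σ f' * σ f'') (hf0 : σ f ≠ 0)
    (hE : ∀ z : E, IsAlgebraic (IntermediateField.adjoin k {σ x, σ x'}) (σ z)) :
    ∃ A B : ℤ, B ≠ 0 ∧ IsAlgebraic k (σ x ^ A * σ f ^ B) ∧
      IsAlgebraic k (σ x' ^ A * σ f' ^ B) := by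
  have hchar : CharP E p := (σ : E →+* L).charP σ.injective p
  have halgv : ∀ z : E, IsAlgebraic k (σ z) ↔ IsAlgebraic k z := fun z =>
    isAlgebraic_algHom_iff σ σ.injective
  obtain ⟨A, B, hB, h1, h2⟩ := stepMA (k := k) p x x' f f' f'' (fun h => hx' ((halgv _).mpr h))
    (fun h => hxx ((ao_hom σ _ _).mpr h)) ((ao_hom σ _ _).mp hf) ((ao_hom σ _ _).mp hf')
    ((ao_hom σ _ _).mp (by rw [map_div₀]; exact hf'')) (σ.injective (by rw [map_mul]; exact h0))
    (fun h => hf0 (by rw [h, map_zero])) (fun z => by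
      have h1 := hE z
      have h2 := aoS_hom σ {x, x'} z
      rw [Set.image_pair] at h2
      exact h2.mp h1)
  refine ⟨A, B, hB, ?_, ?_⟩
  · rw [← map_zpow₀, ← map_zpow₀, ← map_mul]
    exact (halgv _).mpr h1
  · rw [← map_zpow₀, ← map_zpow₀, ← map_mul]
    exact (halgv _).mpr h2

lemma stepMB (p : ℕ) [Fact p.Prime] [CharP L p] (x x' f f' f'' : L) (hx' : Transcendental k x')
    (hxx : ¬ AO k x' x) (hf : AO k x f) (hf' : AO k x' f') (hf'' : AO k (x / x') f'')
    (h0 : f = f' * f'') (hf0 : f ≠ 0) (E : IntermediateField k L)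
    (hE : ∀ z ∈ E, IsAlgebraic (IntermediateField.adjoin k {x, x'}) z) (mx : x ∈ E)
    (mx' : x' ∈ E) (mf : f ∈ E) (mf' : f' ∈ E) (mf'' : f'' ∈ E) :
    ∃ A B : ℤ, B ≠ 0 ∧ IsAlgebraic k (x ^ A * f ^ B) ∧ IsAlgebraic k (x' ^ A * f' ^ B) :=
  stepMC E.val p (⟨x, mx⟩ : E) ⟨x', mx'⟩ ⟨f, mf⟩ ⟨f', mf'⟩ ⟨f'', mf''⟩ hx' hxx hf hf' hf'' h0 hf0
    (fun z => hE z z.2)

/-- CLAIM M: the functional equation `f(x) = f'(x') f''(x/x')` with algebraic functions of one
variable in characteristic `p` has only monomial solutions. -/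
theorem claimM (p : ℕ) [Fact p.Prime] [CharP L p] (x x' f f' f'' : L) (hx' : Transcendental k x')
    (hxx : ¬ AO k x' x) (hf : AO k x f) (hf' : AO k x' f') (hf'' : AO k (x / x') f'')
    (h0 : f = f' * f'') (hf0 : f ≠ 0) :
    ∃ (A : ℤ) (b : ℕ), 0 < b ∧ IsAlgebraic k (x ^ A * f ^ b) ∧ IsAlgebraic k (x' ^ A * f' ^ b) := by
  have hmem : ∀ z : L, IsAlgebraic (IntermediateField.adjoin k {x, x'}) z →
      z ∈ (algebraicClosure (IntermediateField.adjoin k {x, x'}) L).restrictScalars k :=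
    fun z hz => mem_algebraicClosure_iff.mpr hz
  have hxS : x ∈ IntermediateField.adjoin k {x, x'} := IntermediateField.subset_adjoin _ _ (by simp)
  have hx'S : x' ∈ IntermediateField.adjoin k {x, x'} :=
    IntermediateField.subset_adjoin _ _ (by simp)
  obtain ⟨A, B, hB, h1, h2⟩ := stepMB p x x' f f' f'' hx' hxx hf hf' hf'' h0 hf0
    ((algebraicClosure (IntermediateField.adjoin k {x, x'}) L).restrictScalars k)
    (fun z hz => mem_algebraicClosure_iff.mp hz)
    (hmem _ (isAlgebraic_algebraMap (⟨x, hxS⟩ : IntermediateField.adjoin k {x, x'})))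
    (hmem _ (isAlgebraic_algebraMap (⟨x', hx'S⟩ : IntermediateField.adjoin k {x, x'})))
    (hmem _ (alg_of_le x hxS hf)) (hmem _ (alg_of_le x' hx'S hf'))
    (hmem _ (alg_of_le (x / x') (div_mem hxS hx'S) hf''))
  have hinv : ∀ z : L, IsAlgebraic k z → IsAlgebraic k z⁻¹ := fun z hz => by
    have h3 : z ∈ algebraicClosure k L := mem_algebraicClosure_iff.mpr hz
    exact mem_algebraicClosure_iff.mp (inv_mem h3)
  rcases lt_or_gt_of_ne hB with hneg | hpos
  · refine ⟨-A, B.natAbs, Int.natAbs_pos.mpr hB, ?_, ?_⟩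
    · have h3 := hinv _ h1
      rw [mul_inv, ← zpow_neg, ← zpow_neg] at h3
      have h4 : f ^ B.natAbs = f ^ (-B) := by
        rw [← zpow_natCast, Int.ofNat_natAbs_of_nonpos hneg.le]
      rw [h4]
      exact h3
    · have h3 := hinv _ h2
      rw [mul_inv, ← zpow_neg, ← zpow_neg] at h3
      have h4 : f' ^ B.natAbs = f' ^ (-B) := by
        rw [← zpow_natCast, Int.ofNat_natAbs_of_nonpos hneg.le]
      rw [h4]
      exact h3
  · refine ⟨A, B.natAbs, Int.natAbs_pos.mpr hB, ?_, ?_⟩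
    · have h4 : f ^ B.natAbs = f ^ B := by
        rw [← zpow_natCast, Int.natAbs_of_nonneg hpos.le]
      rw [h4]
      exact h1
    · have h4 : f' ^ B.natAbs = f' ^ B := by
        rw [← zpow_natCast, Int.natAbs_of_nonneg hpos.le]
      rw [h4]
      exact h2

end

end Pool.Agent.ClaimF
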