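import Pool.Agent.EN2.Comp

/-!
# Existence of a component
-/

set_option autoImplicit false

noncomputable section

namespace Pool.Agent.EN2

open IsLocalRing Pool.Agent.ClaimF Pool.Agent.SRF Pool.Agent.DIS

variable {K : Type} [Field K] {F : Type} [Field F] [Algebra K F]
variable {O : ValuationSubring K} {x y : F}

/-- the ring `O[x, y]` is a polynomial ring -/
lemma evO_inj (hS : AlgebraicIndependent K ![x, y]) (P : MvPolynomial (Fin 2) O)
    (h : MvPolynomial.eval₂ (toF O F) ![x, y] P = 0) : P = 0 := by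
  have h1 : MvPolynomial.aeval ![x, y] (MvPolynomial.map O.subtype P) = 0 := by
    rw [MvPolynomial.aeval_def, MvPolynomial.eval₂_map]
    exact h
  have h2 : MvPolynomial.map O.subtype P = 0 := hS (by rw [h1, map_zero])
  have h3 : Function.Injective (MvPolynomial.map (σ := Fin 2) O.subtype) :=
    MvPolynomial.map_injective _ (Subring.subtype_injective O.toSubring)
  exact h3 (by rw [h2, map_zero])

/-- a valuation ring which contains the fractions with primitive denominators, in which the
fractions with numerators divisible by nonunits are not units -/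
lemma comp_of (hS : AlgebraicIndependent K ![x, y]) (W : ValuationSubring F)
    (h1 : ∀ P Q : MvPolynomial (Fin 2) O, MvPolynomial.map (residue O) Q ≠ 0 →
      MvPolynomial.eval₂ (toF O F) ![x, y] P / MvPolynomial.eval₂ (toF O F) ![x, y] Q ∈ W)
    (h2 : ∀ c ∈ O.nonunits, algebraMap K F c ∈ W.nonunits) :
    ∃ c : Pl O F, c.W = W ∧ IsComp O x y c := by
  have hO : ∀ a ∈ O, algebraMap K F a ∈ W := by
    intro a ha
    have := h1 (MvPolynomial.C ⟨a, ha⟩) 1 (by rw [map_one]; exact one_ne_zero)
    rw [MvPolynomial.eval₂_C, MvPolynomial.eval₂_one, div_one] at this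
    exact this
  let c : Pl O F := ⟨W, fun a => ⟨fun ha => by
    by_contra hn
    have h4 := h2 _ (nu_of_inv hn)
    rw [map_inv₀] at h4
    have h0 : algebraMap K F a ≠ 0 := by
      rw [Ne, map_eq_zero]
      rintro rfl
      exact hn (zero_mem _)
    exact nu_inv_not_mem h4 (inv_ne_zero h0) (by rwa [inv_inv]), hO a⟩⟩
  have hm : ∀ m, (![x, y] : Fin 2 → F) m ∈ W := by
    intro m
    have := h1 (MvPolynomial.X m) 1 (by rw [map_one]; exact one_ne_zero)
    rw [MvPolynomial.eval₂_X, MvPolynomial.eval₂_one, div_one] at this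
    exact this
  refine ⟨c, rfl, hm 0, hm 1, ?_⟩
  have e : ![c.res x, c.res y] = (fun m => c.res ((![x, y] : Fin 2 → F) m)) := by
    funext m
    fin_cases m <;> rfl
  rw [e]
  show Function.Injective _
  rw [injective_iff_map_eq_zero]
  intro P hP
  by_contra hP0
  obtain ⟨P', rfl⟩ := MvPolynomial.map_surjective (residue O) residue_surjective P
  obtain ⟨k1, k2⟩ := eval_mem c ![x, y] hm P'
  rw [hP] at k2
  have k3 := h1 1 P' hP0
  rw [MvPolynomial.eval₂_one, one_div] at k3
  have k4 : MvPolynomial.eval₂ (toF O F) ![x, y] P' ∈ c.W.nonunits := c.nonunits_iff.mpr ⟨k1, k2⟩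
  refine nu_inv_not_mem k4 ?_ k3
  intro h0
  rw [evO_inj hS P' h0, map_zero] at hP0
  exact hP0 rfl

/-- there is a component -/
theorem comp_nonempty (hS : IsSurf K x y) : Nonempty (Comp O x y) := by
  classical
  have hI := hS.indep
  set ev : MvPolynomial (Fin 2) O →+* F := MvPolynomial.eval₂Hom (toF O F) ![x, y] with hev
  set rd : MvPolynomial (Fin 2) O →+* MvPolynomial (Fin 2) (ResidueField O) :=
    MvPolynomial.map (residue O) with hrd
  have hinj : ∀ P, ev P = 0 → P = 0 := fun P h => evO_inj hI P h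
  let A : Subring F :=
    { carrier := {f | ∃ P Q, rd Q ≠ 0 ∧ f * ev Q = ev P}
      mul_mem' := by
        rintro f g ⟨P, Q, hQ, h⟩ ⟨P', Q', hQ', h'⟩
        refine ⟨P * P', Q * Q', ?_, ?_⟩
        · rw [map_mul]
          exact mul_ne_zero hQ hQ'
        · rw [map_mul, map_mul, ← h, ← h']
          ring
      one_mem' := ⟨1, 1, by rw [map_one]; exact one_ne_zero, by simp⟩
      add_mem' := by
        rintro f g ⟨P, Q, hQ, h⟩ ⟨P', Q', hQ', h'⟩
        refine ⟨P * Q' + P' * Q, Q * Q', ?_, ?_⟩
        · rw [map_mul]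
          exact mul_ne_zero hQ hQ'
        · rw [map_mul, map_add, map_mul, map_mul, ← h, ← h']
          ring
      zero_mem' := ⟨0, 1, by rw [map_one]; exact one_ne_zero, by simp⟩
      neg_mem' := by
        rintro f ⟨P, Q, hQ, h⟩
        refine ⟨-P, Q, hQ, ?_⟩
        rw [map_neg, ← h]
        ring }
  let I : Ideal A :=
    { carrier := {f | ∃ P Q, rd Q ≠ 0 ∧ rd P = 0 ∧ (f : F) * ev Q = ev P}
      add_mem' := by
        rintro ⟨f, hf⟩ ⟨g, hg⟩ ⟨P, Q, hQ, hP, h⟩ ⟨P', Q', hQ', hP', h'⟩
        refine ⟨P * Q' + P' * Q, Q * Q', ?_, ?_, ?_⟩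
        · rw [map_mul]
          exact mul_ne_zero hQ hQ'
        · rw [map_add, map_mul, map_mul, hP, hP', zero_mul, zero_mul, add_zero]
        · show (f + g) * _ = _
          simp only at h h'
          rw [map_mul, map_add, map_mul, map_mul, ← h, ← h']
          ring
      zero_mem' := ⟨0, 1, by rw [map_one]; exact one_ne_zero, by simp, by simp⟩
      smul_mem' := by
        rintro ⟨f, P', Q', hQ', h'⟩ ⟨g, hg⟩ ⟨P, Q, hQ, hP, h⟩
        refine ⟨P' * P, Q' * Q, ?_, ?_, ?_⟩
        · rw [map_mul]
          exact mul_ne_zero hQ' hQ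
        · rw [map_mul, hP, mul_zero]
        · show (f * g) * _ = _
          simp only at h
          rw [map_mul, map_mul, ← h, ← h']
          ring }
  have hI1 : I ≠ ⊤ := by
    intro htop
    have h1 : (1 : A) ∈ I := by rw [htop]; trivial
    obtain ⟨P, Q, hQ, hP, h⟩ := h1
    have h2 : ev (Q - P) = 0 := by
      rw [map_sub, ← h]
      simp
    have h3 := hinj _ h2
    have h4 : Q = P := sub_eq_zero.mp h3
    exact hQ (by rw [h4]; exact hP)
  obtain ⟨W, hAW, hIW⟩ := Ideal.image_subset_nonunits_valuationSubring I hI1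
  obtain ⟨c, -, hc⟩ := comp_of (O := O) hI W (fun P Q hQ => by
      apply hAW
      refine ⟨P, Q, hQ, ?_⟩
      have h0 : MvPolynomial.eval₂ (toF O F) ![x, y] Q ≠ 0 := by
        intro h0
        apply hQ
        rw [hinj Q h0, map_zero]
      show MvPolynomial.eval₂ (toF O F) ![x, y] P / MvPolynomial.eval₂ (toF O F) ![x, y] Q *
        MvPolynomial.eval₂ (toF O F) ![x, y] Q = MvPolynomial.eval₂ (toF O F) ![x, y] P
      field_simp)
    (fun c hc => by
      apply hIW
      have hc' : c ∈ O := nu_mem hc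
      have h1 : algebraMap K F c * ev 1 = ev (MvPolynomial.C ⟨c, hc'⟩) := by
        rw [map_one, mul_one]
        show _ = MvPolynomial.eval₂ (toF O F) ![x, y] _
        rw [MvPolynomial.eval₂_C]
        rfl
      refine ⟨⟨algebraMap K F c, MvPolynomial.C ⟨c, hc'⟩, 1, ?_, h1⟩, ?_, rfl⟩
      · rw [map_one]
        exact one_ne_zero
      · refine ⟨MvPolynomial.C ⟨c, hc'⟩, 1, ?_, ?_, h1⟩
        · rw [map_one]
          exact one_ne_zero
        · rw [hrd, MvPolynomial.map_C]
          have : residue O ⟨c, hc'⟩ = 0 := by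
            rw [residue_eq_zero_iff, mem_maximalIdeal, mem_nonunits_iff]
            intro hu
            rw [ValuationSubring.valuation_eq_one_iff] at hu
            rw [ValuationSubring.mem_nonunits_iff] at hc
            exact hc.ne hu
          rw [this, map_zero])
  exact ⟨⟨c, hc⟩⟩

end Pool.Agent.EN2
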