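import Pool.Agent.EN2.End

/-!
# The core theorem
-/

set_option autoImplicit false

noncomputable section

namespace Pool.Agent.EN2

open IsLocalRing Pool.Agent.ClaimF Polynomial

variable {K : Type} [Field K] {O : ValuationSubring K} {F : Type} [Field F] [Algebra K F]
  {C : Type} {P : C → Pl O F}

/-- the trinomial relation at a place -/
def Trin (c : Pl O F) (p : ℕ) (s : K) (Sp : ℤ[X]) (x y : F) : Prop :=
  (s ^ p)⁻¹ • (1 - x - y) ∈ c.W ∧ c.res ((s ^ p)⁻¹ • (1 - x - y)) ^ p = aeval (c.res x) Sp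

lemma Trin.res_y {c : Pl O F} {p : ℕ} [Fact p.Prime] {s : K} (hs0 : s ≠ 0) (hs : s ∈ O.nonunits)
    {Sp : ℤ[X]} {x y : F} (h : Trin c p s Sp x y) (hx : x ∈ c.W) (hy : y ∈ c.W) :
    c.res y = 1 - c.res x := by
  have hp : p.Prime := Fact.out
  have h1 : (s ^ p)⁻¹ • ((1 - x) - y) ∈ c.W := h.1
  have h2 := (res_of_close hs0 hs hp.pos hy h1).2
  rw [c.res_sub (one_mem _) hx, c.res_one] at h2
  exact h2.symm

/-- at a place, the constants of the two functions `z`, `1 - z` vanish -/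
lemma vanish [IsAlgClosed K] (p : ℕ) [Fact p.Prime] [CharP K p] (c : Pl O F) (s : K)
    (hs0 : s ≠ 0) (hs : s ∈ O.nonunits) (Sp : ℤ[X])
    (hSp : Polynomial.C (p : ℤ) * Sp = X ^ p + (1 - X) ^ p - 1) (x y : F) (hx : x ∈ c.W)
    (hy : y ∈ c.W) (hxt : Transcendental (ResidueField O) (c.res x)) (ht : Trin c p s Sp x y)
    (n : ℕ) (z : F) (δ : K) (hδ0 : δ ≠ 0) (m1 : δ⁻¹ • (z / x ^ (p ^ n) - 1) ∈ c.W)
    (m2 : δ⁻¹ • ((1 - z) / y ^ (p ^ n) - 1) ∈ c.W) :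
    δ⁻¹ * (s ^ p) ^ (p ^ n) ∈ O ∧
      (c.res (δ⁻¹ • (z / x ^ (p ^ n) - 1)) ∈ c.Cst →
        c.res (δ⁻¹ • ((1 - z) / y ^ (p ^ n) - 1)) ∈ c.Cst →
        c.res (δ⁻¹ • (z / x ^ (p ^ n) - 1)) = 0 ∧
        c.res (δ⁻¹ • ((1 - z) / y ^ (p ^ n) - 1)) = 0) := by
  have hp : p.Prime := Fact.out
  have hcharF : CharP F p := (RingHom.charP_iff (algebraMap K F) (algebraMap K F).injective p).mp
    inferInstance
  have hchar : CharP (ResidueField c.W) p := charP_res p c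
  have hchark : CharP (ResidueField O) p :=
    (RingHom.charP_iff (algebraMap (ResidueField O) (ResidueField c.W))
      (algebraMap (ResidueField O) (ResidueField c.W)).injective p).mpr hchar
  have hyr := ht.res_y hs0 hs hx hy
  have hx0 : c.res x ≠ 0 := by
    intro h
    rw [h] at hxt
    exact hxt isAlgebraic_zero
  have hy0 : c.res y ≠ 0 := by
    rw [hyr]
    intro h
    have : c.res x = algebraMap (ResidueField O) _ 1 := by
      rw [map_one]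
      linear_combination -h
    rw [this] at hxt
    exact hxt (isAlgebraic_algebraMap 1)
  have hxF : x ≠ 0 := c.ne_zero_of_res hx0
  have hyF : y ≠ 0 := c.ne_zero_of_res hy0
  set q := p ^ n with hq
  set e := z / x ^ q - 1 with he
  set e' := (1 - z) / y ^ q - 1 with he'
  have hsum : e * x ^ q + e' * y ^ q = (1 - x - y) ^ q := by
    rw [hq, sub_pow_char_pow, sub_pow_char_pow, one_pow, ← hq, he, he']
    field_simp
    ring
  have hsum2 : δ⁻¹ • (1 - x - y) ^ q = (δ⁻¹ • e) * x ^ q + (δ⁻¹ • e') * y ^ q := by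
    rw [← hsum]
    simp only [Algebra.smul_def]
    ring
  have hmem : δ⁻¹ • (1 - x - y) ^ q ∈ c.W := by
    rw [hsum2]
    exact add_mem (mul_mem m1 (pow_mem hx _)) (mul_mem m2 (pow_mem hy _))
  set σ := c.res ((s ^ p)⁻¹ • (1 - x - y)) with hσ
  have hσp : σ ^ p = aeval (c.res x) Sp := ht.2
  have hσ0 : σ ≠ 0 := by
    intro h
    rw [h, zero_pow hp.ne_zero] at hσp
    have h1 : aeval (c.res x) (Sp.map (Int.castRingHom (ResidueField O))) =
        aeval (c.res x) (0 : (ResidueField O)[X]) := by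
      rw [Polynomial.aeval_def, Polynomial.eval₂_map, map_zero, hσp, Polynomial.aeval_def]
      congr 1
      ext
      simp
    have h2 := transcendental_iff_injective.mp hxt h1
    have h3 := congrArg (fun P => Polynomial.coeff P 1) h2
    simp [Sp_coeff p Sp hSp] at h3
  have hpowd : ((s ^ p) ^ q)⁻¹ • (1 - x - y) ^ q = ((s ^ p)⁻¹ • (1 - x - y)) ^ q := by
    simp only [Algebra.smul_def, map_inv₀, map_pow, mul_pow, inv_pow]
  have hresq : c.res (((s ^ p) ^ q)⁻¹ • (1 - x - y) ^ q) = σ ^ q := by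
    rw [hpowd, c.res_pow ht.1]
  have hT : δ⁻¹ * (s ^ p) ^ q ∈ O :=
    ratio_mem c hδ0 (pow_ne_zero _ (pow_ne_zero _ hs0)) hmem (by
      rw [hresq]
      exact pow_ne_zero _ hσ0)
  refine ⟨hT, fun hc1 hc2 => ?_⟩
  have hrel : c.res (algebraMap K F (δ⁻¹ * (s ^ p) ^ q)) * σ ^ q =
      c.res (δ⁻¹ • e) * c.res x ^ q + c.res (δ⁻¹ • e') * (1 - c.res x) ^ q := by
    have h1 : δ⁻¹ • (1 - x - y) ^ q =
        algebraMap K F (δ⁻¹ * (s ^ p) ^ q) * (((s ^ p) ^ q)⁻¹ • (1 - x - y) ^ q) := by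
      have h2 : algebraMap K F s ≠ 0 := by simpa using hs0
      simp only [Algebra.smul_def, map_mul, map_inv₀, map_pow]
      field_simp
    have h3 : c.res (δ⁻¹ • (1 - x - y) ^ q) =
        c.res (algebraMap K F (δ⁻¹ * (s ^ p) ^ q)) * σ ^ q := by
      rw [h1, c.res_mul (c.mem_alg hT) (by
        rw [hpowd]
        exact pow_mem ht.1 _), hresq]
    rw [← h3, hsum2, c.res_add (mul_mem m1 (pow_mem hx _)) (mul_mem m2 (pow_mem hy _)),
      c.res_mul m1 (pow_mem hx _), c.res_mul m2 (pow_mem hy _), c.res_pow hx, c.res_pow hy, hyr]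
  exact fin_aux p Sp hSp (c.res x) σ hxt hσp n _ _ _ (c.algebraic_of_cst (c.cst_alg hT))
    (c.algebraic_of_cst hc1) (c.algebraic_of_cst hc2) hrel

/-- the Frobenius exponents are the same for `a` and `a'` -/
lemma common_exp {k L : Type} [Field k] [Field L] [Algebra k L] (p : ℕ) [Fact p.Prime]
    (x x' f f' : L) (hx : Transcendental k x) (hx' : Transcendental k x') (A : ℤ) (b : ℕ)
    (hb : 0 < b) (h1 : IsAlgebraic k (x ^ A * f ^ b)) (h2 : IsAlgebraic k (x' ^ A * f' ^ b))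
    (m n m' n' : ℕ) (e : f ^ (p ^ m) = x ^ (p ^ n)) (e' : f' ^ (p ^ m') = x' ^ (p ^ n')) :
    ∃ M N : ℕ, f ^ (p ^ M) = x ^ (p ^ N) ∧ f' ^ (p ^ M) = x' ^ (p ^ N) := by
  have hp : p.Prime := Fact.out
  have key : ∀ (x f : L), Transcendental k x → IsAlgebraic k (x ^ A * f ^ b) → ∀ m n : ℕ,
      f ^ (p ^ m) = x ^ (p ^ n) → A * p ^ m + b * p ^ n = 0 := by
    intro x f hx h m n e
    have hx0 : x ≠ 0 := by
      rintro rfl
      exact hx isAlgebraic_zero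
    have h3 : IsAlgebraic k ((x ^ A * f ^ b) ^ (p ^ m)) := h.pow _
    have h4 : (x ^ A * f ^ b) ^ (p ^ m) = x ^ (A * p ^ m + b * p ^ n) := by
      rw [mul_pow, ← pow_mul, mul_comm b, pow_mul, e, ← pow_mul, zpow_add₀ hx0, zpow_mul]
      congr 1
      · rw [← zpow_natCast]
        push_cast
        rfl
      · rw [← zpow_natCast]
        push_cast
        rw [mul_comm]
    rw [h4] at h3
    exact alg_pow_of hx h3
  have k1 := key x f hx h1 m n e
  have k2 := key x' f' hx' h2 m' n' e'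
  have hbz : (b : ℤ) ≠ 0 := by exact_mod_cast hb.ne'
  have k3 : (p : ℤ) ^ (n + m') = (p : ℤ) ^ (n' + m) := by
    have : (b : ℤ) * (p : ℤ) ^ (n + m') = b * (p : ℤ) ^ (n' + m) := by
      rw [pow_add, pow_add]
      linear_combination (p : ℤ) ^ m' * k1 - (p : ℤ) ^ m * k2
    exact mul_left_cancel₀ hbz this
  have k4 : n + m' = n' + m := Nat.pow_right_injective hp.two_le (by exact_mod_cast k3)
  refine ⟨m + m', n + m', ?_, ?_⟩
  · rw [pow_add, pow_mul, e, ← pow_mul, ← pow_add]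
  · rw [add_comm m m', pow_add, pow_mul, e', ← pow_mul, ← pow_add, k4]

/-- **Core theorem**: there are no two functions `a`, `a'` with the four regularity properties. -/
theorem core [Finite C] [IsAlgClosed K] (p : ℕ) [Fact p.Prime] [CharP K p] (hO : Arch O)
    (hvg : VG P) (hba : BA P) (s : K) (hs0 : s ≠ 0) (hs : s ∈ O.nonunits) (Sp : ℤ[X])
    (hSp : Polynomial.C (p : ℤ) * Sp = X ^ p + (1 - X) ^ p - 1)
    (D D' : Ch P s (p + 1))
    (trin : ∀ c, Trin (P c) p s Sp (D.X.u D.j) (D'.X.u D'.j))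
    (trin' : ∀ c, Trin (P c) p s Sp (D.X'.u D.j') (D'.X'.u D'.j'))
    (hind : ∀ c, ¬ AO (ResidueField O) ((P c).res (D.X'.u D.j')) ((P c).res (D.X.u D.j)))
    (a a' : F) (ha : a ∉ Set.range (algebraMap K F)) (ha0 : a' ≠ 0) (ha1 : a' ≠ 1)
    (r1 : ∀ j, a ∈ D.X.R j) (r2 : ∀ j, a ∈ D'.X.R j) (r3 : ∀ j, a' ∈ D.X'.R j)
    (r4 : ∀ j, a' ∈ D'.X'.R j) (r5 : ∀ j, a / a' ∈ D.W.R j)
    (r6 : ∀ j, (1 - a) / (1 - a') ∈ D'.W.R j) (c : C) : False := by
  have hp : p.Prime := Fact.out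
  have hN : 0 < p + 1 := by omega
  have hcharF : CharP F p := (RingHom.charP_iff (algebraMap K F) (algebraMap K F).injective p).mp
    inferInstance
  have h1a' : 1 - a' ≠ 0 := fun h => ha1 (sub_eq_zero.mp h).symm
  have ha00 : a ≠ 0 := by
    rintro rfl
    exact ha ⟨0, map_zero _⟩
  have h1a : 1 - a ≠ 0 := by
    intro h
    apply ha
    exact ⟨1, by rw [map_one]; exact sub_eq_zero.mp h⟩
  have hz : a = a' * (a / a') := by field_simp
  have hz' : 1 - a = (1 - a') * ((1 - a) / (1 - a')) := by field_simp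
  have hne' : 1 - a ∉ Set.range (algebraMap K F) := by
    rintro ⟨b, hb⟩
    apply ha
    refine ⟨1 - b, ?_⟩
    rw [map_sub, map_one, hb]
    ring
  have r2' : ∀ j, 1 - a ∈ D'.X.R j := fun j => (D'.X.R j).sub_mem (one_mem _) (r2 j)
  have r4' : ∀ j, 1 - a' ∈ D'.X'.R j := fun j => (D'.X'.R j).sub_mem (one_mem _) (r4 j)
  have hy : ∀ c, (P c).res (D'.X.u D'.j) = 1 - (P c).res (D.X.u D.j) := fun c =>
    (trin c).res_y hs0 hs (D.X.u_int c _) (D'.X.u_int c _)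
  have hy' : ∀ c, (P c).res (D'.X'.u D'.j') = 1 - (P c).res (D.X'.u D.j') := fun c =>
    (trin' c).res_y hs0 hs (D.X'.u_int c _) (D'.X'.u_int c _)
  have hind' : ∀ c, ¬ AO (ResidueField O) ((P c).res (D'.X'.u D'.j'))
      ((P c).res (D'.X.u D'.j)) := by
    intro c h
    apply hind c
    rw [hy c, hy' c] at h
    have h1 : AO (ResidueField O) ((P c).res (D.X'.u D.j')) (1 - (P c).res (D.X'.u D.j')) := by
      rw [← mem_cl]
      exact sub_mem (one_mem _) (self_mem_cl _)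
    have h2 := ao_trans h1 h
    rw [← mem_cl] at h2 ⊢
    have h3 := sub_mem (one_mem (cl (ResidueField O) ((P c).res (D.X'.u D.j')))) h2
    rwa [sub_sub_cancel] at h3
  -- monomiality
  have mon : ∀ c, ∀ κ : K, κ ≠ 0 → (P c).res (κ⁻¹ • a) ≠ 0 → ∀ κ₂ : K, κ₂ ≠ 0 →
      (P c).res (κ₂⁻¹ • a') ≠ 0 → _ := fun c κ hκ hr κ₂ hκ₂ hr₂ =>
    mono p hO hvg hba D.X D.X' D.W c D.j D.j' D.jw (D.res_rel hs0 hs hN c) (hind c) a a' (a / a')
      hz r1 r3 r5 ha κ hκ hr κ₂ hκ₂ hr₂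
  have mon' : ∀ c, ∀ κ : K, κ ≠ 0 → (P c).res (κ⁻¹ • (1 - a)) ≠ 0 → ∀ κ₂ : K, κ₂ ≠ 0 →
      (P c).res (κ₂⁻¹ • (1 - a')) ≠ 0 → _ := fun c κ hκ hr κ₂ hκ₂ hr₂ =>
    mono p hO hvg hba D'.X D'.X' D'.W c D'.j D'.j' D'.jw (D'.res_rel hs0 hs hN c) (hind' c)
      (1 - a) (1 - a') _ hz' r2' r4' r6 hne' κ hκ hr κ₂ hκ₂ hr₂
  have M1 : ∀ c, Mon (P c) ((P c).res (D.X.u D.j)) a := by
    intro c κ hκ hr
    obtain ⟨κ₂, hκ₂, -, hr₂⟩ := hvg c a' ha0
    obtain ⟨A, b, hb, hA, h1, -⟩ := mon c κ hκ hr κ₂ hκ₂ hr₂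
    exact ⟨A, b, hb, hA, h1⟩
  have M2 : ∀ c, Mon (P c) ((P c).res (D.X'.u D.j')) a' := by
    intro c κ₂ hκ₂ hr₂
    obtain ⟨κ, hκ, -, hr⟩ := hvg c a ha00
    obtain ⟨A, b, hb, hA, -, h1⟩ := mon c κ hκ hr κ₂ hκ₂ hr₂
    exact ⟨A, b, hb, hA, h1⟩
  have M1' : ∀ c, Mon (P c) (1 - (P c).res (D.X.u D.j)) (1 - a) := by
    intro c κ hκ hr
    obtain ⟨κ₂, hκ₂, -, hr₂⟩ := hvg c (1 - a') h1a'
    obtain ⟨A, b, hb, hA, h1, -⟩ := mon' c κ hκ hr κ₂ hκ₂ hr₂
    rw [hy c] at h1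
    exact ⟨A, b, hb, hA, h1⟩
  have M2' : ∀ c, Mon (P c) (1 - (P c).res (D.X'.u D.j')) (1 - a') := by
    intro c κ₂ hκ₂ hr₂
    obtain ⟨κ, hκ, -, hr⟩ := hvg c (1 - a) h1a
    obtain ⟨A, b, hb, hA, -, h1⟩ := mon' c κ hκ hr κ₂ hκ₂ hr₂
    rw [hy' c] at h1
    exact ⟨A, b, hb, hA, h1⟩
  have U1 : ∀ c, (P c).res a ≠ 0 ∧ (P c).res (1 - a) ≠ 0 := fun c =>
    unit_of (P c) _ (D.X.u_tr c D.j) a (M1 c) (M1' c) (by
      obtain ⟨κ, hκ, -, hr⟩ := hvg c a ha00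
      exact ⟨κ, hκ, hr⟩)
  have U2 : ∀ c, (P c).res a' ≠ 0 ∧ (P c).res (1 - a') ≠ 0 := fun c =>
    unit_of (P c) _ (D.X'.u_tr c D.j') a' (M2 c) (M2' c) (by
      obtain ⟨κ, hκ, -, hr⟩ := hvg c a' ha0
      exact ⟨κ, hκ, hr⟩)
  have hone : ∀ f : F, (1 : K)⁻¹ • f = f := fun f => by rw [inv_one, one_smul]
  -- Frobenius exponents
  obtain ⟨m, n, hm⟩ := frob_of p (P c) _ (D.X.u_tr c D.j) a (M1 c) (M1' c)
    ⟨1, one_ne_zero, by rw [hone]; exact (U1 c).1⟩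
  obtain ⟨m', n', hm'⟩ := frob_of p (P c) _ (D.X'.u_tr c D.j') a' (M2 c) (M2' c)
    ⟨1, one_ne_zero, by rw [hone]; exact (U2 c).1⟩
  obtain ⟨M, n, e1, e2⟩ : ∃ M N : ℕ,
      (P c).res a ^ (p ^ M) = (P c).res (D.X.u D.j) ^ (p ^ N) ∧
      (P c).res a' ^ (p ^ M) = (P c).res (D.X'.u D.j') ^ (p ^ N) := by
    obtain ⟨A, b, hb, hA, h1, h2⟩ := mon c 1 one_ne_zero (by rw [hone]; exact (U1 c).1) 1
      one_ne_zero (by rw [hone]; exact (U2 c).1)
    rw [hone] at h1 h2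
    exact common_exp p _ _ _ _ (D.X.u_tr c D.j) (D.X'.u_tr c D.j') A b hb h1 h2 m n m' n' hm hm'
  have hchar : CharP (ResidueField (P c).W) p := charP_res p (P c)
  -- Frobenius powers
  set Q := p ^ M with hQ
  set q := p ^ n with hq
  set z := a ^ Q with hzdef
  set z' := a' ^ Q with hz'def
  have hz1 : 1 - z = (1 - a) ^ Q := by
    rw [hzdef, hQ, sub_pow_char_pow, one_pow]
  have hz'1 : 1 - z' = (1 - a') ^ Q := by
    rw [hz'def, hQ, sub_pow_char_pow, one_pow]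
  have zW : ∀ c, z ∈ (P c).W := fun c => pow_mem ((P c).mem_of_res (U1 c).1) _
  have z'W : ∀ c, z' ∈ (P c).W := fun c => pow_mem ((P c).mem_of_res (U2 c).1) _
  have yW : ∀ c, 1 - z ∈ (P c).W := fun c => sub_mem (one_mem _) (zW c)
  have y'W : ∀ c, 1 - z' ∈ (P c).W := fun c => sub_mem (one_mem _) (z'W c)
  have z'r : ∀ c, (P c).res z' ≠ 0 := fun c => by
    rw [hz'def, (P c).res_pow ((P c).mem_of_res (U2 c).1)]
    exact pow_ne_zero _ (U2 c).1
  have y'r : ∀ c, (P c).res (1 - z') ≠ 0 := fun c => by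
    rw [hz'1, (P c).res_pow ((P c).mem_of_res (U2 c).2)]
    exact pow_ne_zero _ (U2 c).2
  have wW : ∀ c, z / z' ∈ (P c).W := fun c => (P c).div_mem (zW c) (z'r c)
  have w'W : ∀ c, (1 - z) / (1 - z') ∈ (P c).W := fun c => (P c).div_mem (yW c) (y'r c)
  have z'0 : z' ≠ 0 := pow_ne_zero _ ha0
  have y'0 : 1 - z' ≠ 0 := by
    rw [hz'1]
    exact pow_ne_zero _ h1a'
  -- residues
  set x := D.X.u D.j with hx
  set x' := D.X'.u D.j' with hx'
  set w := D.W.u D.jw with hw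
  set y := D'.X.u D'.j with hyd
  set y' := D'.X'.u D'.j' with hy'd
  set w' := D'.W.u D'.jw with hw'
  have R1 : (P c).res z = (P c).res x ^ q := by
    rw [hzdef, (P c).res_pow ((P c).mem_of_res (U1 c).1)]
    exact e1
  have R2 : (P c).res z' = (P c).res x' ^ q := by
    rw [hz'def, (P c).res_pow ((P c).mem_of_res (U2 c).1)]
    exact e2
  have R3 : (P c).res (1 - z) = (P c).res y ^ q := by
    rw [(P c).res_sub (one_mem _) (zW c), R1, (P c).res_one, hy c, hq, sub_pow_char_pow, one_pow]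
  have R4 : (P c).res (1 - z') = (P c).res y' ^ q := by
    rw [(P c).res_sub (one_mem _) (z'W c), R2, (P c).res_one, hy' c, hq, sub_pow_char_pow, one_pow]
  have R5 : (P c).res (z / z') = (P c).res w ^ q := by
    rw [(P c).res_div (zW c) (z'r c), R1, R2, D.res_rel hs0 hs hN c, div_pow]
  have R6 : (P c).res ((1 - z) / (1 - z')) = (P c).res w' ^ q := by
    rw [(P c).res_div (yW c) (y'r c), R3, R4, D'.res_rel hs0 hs hN c, div_pow]
  -- the errors are nonunits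
  have en : ∀ (v : F) (f : F), f ∈ (P c).W → v ∈ (P c).W → (P c).res v ≠ 0 →
      (P c).res f = (P c).res v ^ q → f / v ^ q - 1 ∈ (P c).W.nonunits := by
    intro v f hf hvW hv h
    have hvq : (P c).res (v ^ q) ≠ 0 := by
      rw [(P c).res_pow hvW]
      exact pow_ne_zero _ hv
    rw [(P c).nonunits_iff]
    refine ⟨sub_mem ((P c).div_mem hf hvq) (one_mem _), ?_⟩
    rw [(P c).res_sub ((P c).div_mem hf hvq) (one_mem _), (P c).res_div hf hvq, h,
      (P c).res_pow hvW, (P c).res_one, div_self (pow_ne_zero _ hv), sub_self]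
  let e : Fin 6 → F := ![z / x ^ q - 1, z' / x' ^ q - 1, (z / z') / w ^ q - 1,
    (1 - z) / y ^ q - 1, (1 - z') / y' ^ q - 1, ((1 - z) / (1 - z')) / w' ^ q - 1]
  have enon : ∀ i, e i ∈ (P c).W.nonunits := by
    intro i
    fin_cases i
    · exact en x z (zW c) (D.X.u_int c _) (D.X.u_ne c _) R1
    · exact en x' z' (z'W c) (D.X'.u_int c _) (D.X'.u_ne c _) R2
    · exact en w _ (wW c) (D.W.u_int c _) (D.W.u_ne c _) R5
    · exact en y _ (yW c) (D'.X.u_int c _) (D'.X.u_ne c _) R3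
    · exact en y' _ (y'W c) (D'.X'.u_int c _) (D'.X'.u_ne c _) R4
    · exact en w' _ (w'W c) (D'.W.u_int c _) (D'.W.u_ne c _) R6
  have hxt := D.X.u_tr c D.j
  have hx't := D.X'.u_tr c D.j'
  -- not all errors vanish
  have hex : ∃ i, e i ≠ 0 := by
    by_contra hall
    push Not at hall
    have h0 : ∀ l : K, (l⁻¹ : K) • (z / x ^ q - 1) = 0 := fun l => by
      rw [show z / x ^ q - 1 = 0 from hall 0, smul_zero]
    have h3 : ∀ l : K, (l⁻¹ : K) • ((1 - z) / y ^ q - 1) = 0 := fun l => by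
      rw [show (1 - z) / y ^ q - 1 = 0 from hall 3, smul_zero]
    -- use a very small `δ`
    have hsp : (s ^ p) ^ q ≠ 0 := pow_ne_zero _ (pow_ne_zero _ hs0)
    have h5 := (vanish p (P c) s hs0 hs Sp hSp x y (D.X.u_int c _) (D'.X.u_int c _) hxt (trin c) n z
      (s * (s ^ p) ^ q) (mul_ne_zero hs0 hsp) (by
        rw [h0]
        exact zero_mem _) (by
        rw [h3]
        exact zero_mem _)).1
    have h6 : (s * (s ^ p) ^ q)⁻¹ * (s ^ p) ^ q = s⁻¹ := by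
      field_simp
    rw [← hq, h6] at h5
    have h7 := (O.mem_nonunits_iff_or (x := s)).mp hs
    rcases h7 with h7 | h7
    · exact hs0 h7
    · exact h7 h5
  obtain ⟨i₀, hi₀⟩ := hex
  obtain ⟨δ, hδ0, hδm, i, hi⟩ := maxsize hvg c e i₀ hi₀
  have hδn : δ ∈ O.nonunits := by
    rw [← (P c).alg_nonunit]
    have h1 : algebraMap K F δ = e i * (δ⁻¹ • e i)⁻¹ := by
      have hei : e i ≠ 0 := by
        intro h0
        apply hi
        rw [h0, smul_zero, (P c).res_zero]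
      have hδF : algebraMap K F δ ≠ 0 := by simpa using hδ0
      rw [Algebra.smul_def, map_inv₀]
      field_simp
    rw [h1, mul_comm]
    exact (P c).nonunit_mul ((P c).inv_mem hi) (enon i)
  have V1 := vanish p (P c) s hs0 hs Sp hSp x y (D.X.u_int c _) (D'.X.u_int c _) hxt (trin c) n z
    δ hδ0 (hδm 0) (hδm 3)
  have V2 := vanish p (P c) s hs0 hs Sp hSp x' y' (D.X'.u_int c _) (D'.X'.u_int c _) hx't
    (trin' c) n z' δ hδ0 (hδm 1) (hδm 4)
  have hδs : δ⁻¹ * (s ^ (p + 1)) ^ (p ^ n) ∈ O.nonunits := by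
    have h1 : δ⁻¹ * (s ^ (p + 1)) ^ (p ^ n) = s ^ q * (δ⁻¹ * (s ^ p) ^ (p ^ n)) := by
      rw [hq]
      ring
    rw [h1]
    refine nonunit_mul_mem ?_ V1.1
    obtain ⟨l, hl⟩ := Nat.exists_eq_succ_of_ne_zero (pow_pos hp.pos n).ne'
    rw [hq, hl, pow_succ, mul_comm]
    exact nonunit_mul_mem hs (pow_mem (nonunit_mem hs) l)
  have zz : z = z' * (z / z') := by field_simp
  have yy : 1 - z = (1 - z') * ((1 - z) / (1 - z')) := by field_simp
  have hzz' : z / z' = (a / a') ^ Q := by rw [hzdef, hz'def, div_pow]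
  have hyy' : (1 - z) / (1 - z') = ((1 - a) / (1 - a')) ^ Q := by rw [hz1, hz'1, div_pow]
  obtain ⟨L1, L2, L3⟩ := level p hO hvg s hs0 hs (p + 1) hN D c (hind c) n z z' (z / z') zz
    (fun j => pow_mem (r1 j) _) (fun j => pow_mem (r3 j) _)
    (fun j => by rw [hzz']; exact pow_mem (r5 j) _) zW z'W wW δ hδ0 hδn hδs (hδm 0) (hδm 1) (hδm 2)
  obtain ⟨L1', L2', L3'⟩ := level p hO hvg s hs0 hs (p + 1) hN D' c (hind' c) n (1 - z) (1 - z')
    ((1 - z) / (1 - z')) yy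
    (fun j => by rw [hz1]; exact pow_mem (r2' j) _) (fun j => by rw [hz'1]; exact pow_mem (r4' j) _)
    (fun j => by rw [hyy']; exact pow_mem (r6 j) _) yW y'W w'W δ hδ0 hδn hδs (hδm 3) (hδm 4)
    (hδm 5)
  obtain ⟨v0, v3⟩ := V1.2 L1 L1'
  obtain ⟨v1, v4⟩ := V2.2 L2 L2'
  rw [v0, v1, zero_add] at L3
  rw [v3, v4, zero_add] at L3'
  apply hi
  fin_cases i
  · exact v0
  · exact v1
  · exact L3.symm
  · exact v3
  · exact v4
  · exact L3'.symm

end Pool.Agent.EN2
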