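import Pool.Agent.EN2.Sec

/-!
# Pencils of coordinates
-/

set_option autoImplicit false

noncomputable section

namespace Pool.Agent.EN2

open IsLocalRing Pool.Agent.ClaimF Pool.Agent.SRF Pool.Agent.DIS

variable {K : Type} [Field K] {F : Type} [Field F] [Algebra K F]
variable {O : ValuationSubring K} {x y : F}

/-! ## Composite places -/

/-- the composite of a place with a valuation ring of the residue field -/
def Pl.comp (c : Pl O F) (V : ValuationSubring (ResidueField c.W))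
    (hV : ∀ a : ResidueField O, algebraMap (ResidueField O) (ResidueField c.W) a ∈ V) : Pl O F where
  W :=
    { carrier := {f | f ∈ c.W ∧ c.res f ∈ V}
      mul_mem' := by
        rintro f g ⟨h1, h2⟩ ⟨h3, h4⟩
        refine ⟨mul_mem h1 h3, ?_⟩
        rw [c.res_mul h1 h3]
        exact mul_mem h2 h4
      one_mem' := ⟨one_mem _, by rw [c.res_one]; exact one_mem _⟩
      add_mem' := by
        rintro f g ⟨h1, h2⟩ ⟨h3, h4⟩
        refine ⟨add_mem h1 h3, ?_⟩
        rw [c.res_add h1 h3]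
        exact add_mem h2 h4
      zero_mem' := ⟨zero_mem _, by rw [c.res_zero]; exact zero_mem _⟩
      neg_mem' := by
        rintro f ⟨h1, h2⟩
        refine ⟨neg_mem h1, ?_⟩
        rw [c.res_neg h1]
        exact neg_mem h2
      mem_or_inv_mem' := by
        intro f
        by_cases h1 : f ∈ c.W
        · by_cases h2 : c.res f ∈ V
          · exact Or.inl ⟨h1, h2⟩
          · right
            have h3 : c.res f ≠ 0 := by
              intro h
              rw [h] at h2
              exact h2 (zero_mem _)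
            refine ⟨c.inv_mem h3, ?_⟩
            rw [c.res_inv h3]
            exact (V.mem_or_inv_mem _).resolve_left h2
        · right
          have h2 := nu_of_inv h1
          refine ⟨nu_mem h2, ?_⟩
          rw [c.res_nonunit h2]
          exact zero_mem _ }
  mem_iff := by
    intro a
    constructor
    · rintro ⟨h1, -⟩
      exact (c.mem_iff a).mp h1
    · intro ha
      refine ⟨c.mem_alg ha, ?_⟩
      rw [c.res_algebraMap ⟨a, ha⟩]
      exact hV _

lemma Pl.mem_comp {c : Pl O F} {V : ValuationSubring (ResidueField c.W)}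
    {hV : ∀ a : ResidueField O, algebraMap (ResidueField O) (ResidueField c.W) a ∈ V} {f : F} :
    f ∈ (c.comp V hV).W ↔ f ∈ c.W ∧ c.res f ∈ V := Iff.rfl

/-! ## Products of sections -/

lemma L_mul {n m : ℕ} {f g : F} (hf : f ∈ L K x y (fun e => n * H K x y e))
    (hg : g ∈ L K x y (fun e => m * H K x y e)) :
    f * g ∈ L K x y (fun e => ((n + m : ℕ) : ℤ) * H K x y e) := by
  rw [mem_L] at *
  by_cases h0 : f = 0
  · left
    rw [h0, zero_mul]
  by_cases h1 : g = 0
  · left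
    rw [h1, mul_zero]
  right
  intro e
  have h2 := hf.resolve_left h0 e
  have h3 := hg.resolve_left h1 e
  rw [e.isOrd.mul _ _ h0 h1]
  push_cast
  linarith

lemma L_const (a : K) : algebraMap K F a ∈ L K x y (fun e => ((0 : ℕ) : ℤ) * H K x y e) := by
  rw [mem_L]
  by_cases h0 : a = 0
  · left
    rw [h0, map_zero]
  right
  intro e
  rw [ord_const K x y e a h0]
  simp

/-- The functions with poles in the tubes of `X₀ = 0` and `X₁ = 0`. -/
def Rj (hO : Arch O) (hS : IsSurf K x y) (X₀ X₁ : F) (h₀ : IntO O x y 1 X₀)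
    (h₁ : IntO O x y 1 X₁) : Subalgebra K F where
  carrier := {f | ∃ (m m' : ℕ) (r : F), Sm O x y (m + m') r ∧
    f * (X₀ ^ m * X₁ ^ m' + r) ∈ L K x y (fun e => ((m + m' : ℕ) : ℤ) * H K x y e)}
  mul_mem' := by
    rintro f g ⟨m, m', r, hr, hf⟩ ⟨n, n', s, hs, hg⟩
    have hm : IntO O x y (m + m') (X₀ ^ m * X₁ ^ m') := by
      have := intO_mul hS (intO_pow hS h₀ m) (intO_pow hS h₁ m')
      simpa using this
    have hn : IntO O x y (n + n') (X₀ ^ n * X₁ ^ n') := by
      have := intO_mul hS (intO_pow hS h₀ n) (intO_pow hS h₁ n')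
      simpa using this
    have e1 : m + m' + (n + n') = m + n + (m' + n') := by ring
    refine ⟨m + n, m' + n', r * (X₀ ^ n * X₁ ^ n') + s * (X₀ ^ m * X₁ ^ m') + r * s, ?_, ?_⟩
    · rw [← e1]
      refine Sm.add hS (Sm.add hS (Sm.mul hS hr hn) ?_) (Sm.mul hS hr hs.intO)
      rw [add_comm (m + m')]
      exact Sm.mul hS hs hm
    · have h := L_mul hf hg
      rw [e1] at h
      have e : f * g * (X₀ ^ (m + n) * X₁ ^ (m' + n') +
          (r * (X₀ ^ n * X₁ ^ n') + s * (X₀ ^ m * X₁ ^ m') + r * s)) =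
          f * (X₀ ^ m * X₁ ^ m' + r) * (g * (X₀ ^ n * X₁ ^ n' + s)) := by
        rw [pow_add, pow_add]
        ring
      rw [e]
      exact h
  add_mem' := by
    rintro f g ⟨m, m', r, hr, hf⟩ ⟨n, n', s, hs, hg⟩
    have hm : IntO O x y (m + m') (X₀ ^ m * X₁ ^ m') := by
      have := intO_mul hS (intO_pow hS h₀ m) (intO_pow hS h₁ m')
      simpa using this
    have hn : IntO O x y (n + n') (X₀ ^ n * X₁ ^ n') := by
      have := intO_mul hS (intO_pow hS h₀ n) (intO_pow hS h₁ n')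
      simpa using this
    have e1 : m + m' + (n + n') = m + n + (m' + n') := by ring
    refine ⟨m + n, m' + n', r * (X₀ ^ n * X₁ ^ n') + s * (X₀ ^ m * X₁ ^ m') + r * s, ?_, ?_⟩
    · rw [← e1]
      refine Sm.add hS (Sm.add hS (Sm.mul hS hr hn) ?_) (Sm.mul hS hr hs.intO)
      rw [add_comm (m + m')]
      exact Sm.mul hS hs hm
    · have k1 := L_mul hf (intO_L hS (intO_add hS hn hs.intO))
      have k2 := L_mul hg (intO_L hS (intO_add hS hm hr.intO))
      rw [add_comm (n + n')] at k2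
      have h := (L K x y (fun e => ((m + m' + (n + n') : ℕ) : ℤ) * H K x y e)).add_mem k1 k2
      rw [e1] at h
      have e : (f + g) * (X₀ ^ (m + n) * X₁ ^ (m' + n') +
          (r * (X₀ ^ n * X₁ ^ n') + s * (X₀ ^ m * X₁ ^ m') + r * s)) =
          f * (X₀ ^ m * X₁ ^ m' + r) * (X₀ ^ n * X₁ ^ n' + s) +
          g * (X₀ ^ n * X₁ ^ n' + s) * (X₀ ^ m * X₁ ^ m' + r) := by
        rw [pow_add, pow_add]
        ring
      rw [e]
      exact h
  algebraMap_mem' := by
    intro a
    refine ⟨0, 0, 0, Sm.zero hO, ?_⟩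
    simp only [pow_zero, one_mul, add_zero, mul_one]
    exact L_const a

lemma mem_Rj {hO : Arch O} {hS : IsSurf K x y} {X₀ X₁ : F} {h₀ : IntO O x y 1 X₀}
    {h₁ : IntO O x y 1 X₁} {f : F} : f ∈ Rj hO hS X₀ X₁ h₀ h₁ ↔ ∃ (m m' : ℕ) (r : F),
    Sm O x y (m + m') r ∧
    f * (X₀ ^ m * X₁ ^ m' + r) ∈ L K x y (fun e => ((m + m' : ℕ) : ℤ) * H K x y e) := Iff.rfl

/-- the section `X` is maximal at the place `W` -/
def Mxm (x y : F) (W : ValuationSubring F) (X : F) : Prop := X ≠ 0 ∧ ∀ j, z x y j / X ∈ W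

/-- functions which are bounded at the components are bounded outside of the tubes -/
lemma Rj_mem (hSCQ : Stmt_SCQ) {hO : Arch O} {hS : IsSurf K x y} {X₀ X₁ : F}
    {h₀ : IntO O x y 1 X₀} {h₁ : IntO O x y 1 X₁} {f : F} (hf : f ∈ Rj hO hS X₀ X₁ h₀ h₁)
    (hc : ∀ c : Comp O x y, f ∈ c.1.W) (W : Pl O F) (m₀ : Mxm x y W.W X₀)
    (m₁ : Mxm x y W.W X₁) : f ∈ W.W := by
  obtain ⟨m, m', r, hr, hf⟩ := hf
  have hm : IntO O x y (m + m') (X₀ ^ m * X₁ ^ m') := by
    have := intO_mul hS (intO_pow hS h₀ m) (intO_pow hS h₁ m')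
    simpa using this
  have hh : IntO O x y (m + m') (X₀ ^ m * X₁ ^ m' + r) := intO_add hS hm hr.intO
  have h1 := maxpr hSCQ hO hS (m + m') _ hf fun c => mul_mem (hc c) (intO_comp hS hh c.2)
  obtain ⟨i, hi⟩ := zmax (x := x) (y := y) W.W
  have hi : Mz x y W.W i := hi
  have h2 := intO_at hS h1 W i hi
  have hzi := hi.1
  set u := (X₀ ^ m * X₁ ^ m') / z x y i ^ (m + m') with hu
  set v := r / z x y i ^ (m + m') with hv
  have hvn : v ∈ W.W.nonunits := hr.at hS W i hi
  have hu0 : u ≠ 0 := div_ne_zero (mul_ne_zero (pow_ne_zero _ m₀.1) (pow_ne_zero _ m₁.1))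
    (pow_ne_zero _ hzi)
  have huinv : u⁻¹ ∈ W.W := by
    have e : u⁻¹ = (z x y i / X₀) ^ m * (z x y i / X₁) ^ m' := by
      rw [hu, pow_add, div_pow, div_pow, inv_div, mul_div_mul_comm]
    rw [e]
    exact mul_mem (pow_mem (m₀.2 i) _) (pow_mem (m₁.2 i) _)
  have huv : (u + v)⁻¹ ∈ W.W := by
    by_contra hn
    have h3 := nu_of_inv hn
    rw [inv_inv] at h3
    have h4 := nu_sub h3 hvn
    rw [add_sub_cancel_right] at h4
    exact nu_inv_not_mem h4 hu0 huinv
  have huv0 : u + v ≠ 0 := by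
    intro h0
    have h4 : u = -v := by linear_combination h0
    have h5 := nu_neg hvn
    rw [← h4] at h5
    exact nu_inv_not_mem h5 hu0 huinv
  have e : f = (f * (X₀ ^ m * X₁ ^ m' + r) / z x y i ^ (m + m')) * (u + v)⁻¹ := by
    have e1 : f * (X₀ ^ m * X₁ ^ m' + r) / z x y i ^ (m + m') = f * (u + v) := by
      rw [hu, hv, ← add_div, mul_div_assoc]
    rw [e1, mul_assoc, mul_inv_cancel₀ huv0, mul_one]
  rw [e]
  exact mul_mem h2 huv

/-- The pencil of a family of pairs of coordinates. -/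
def mkPen (hSCQ : Stmt_SCQ) (hO : Arch O) (hS : IsSurf K x y) {J : Type} [Finite J] (j₀ : J)
    (X₀ X₁ : J → F) (h₀ : ∀ j, IntO O x y 1 (X₀ j)) (h₁ : ∀ j, IntO O x y 1 (X₁ j))
    (g₀ : ∀ (c : Comp O x y) j, c.1.res (X₀ j) ≠ 0) (g₁ : ∀ (c : Comp O x y) j, c.1.res (X₁ j) ≠ 0)
    (hres : ∀ (c : Comp O x y) j j', c.1.res (X₁ j / X₀ j) = c.1.res (X₁ j' / X₀ j'))
    (htr : ∀ (c : Comp O x y) j, Transcendental (ResidueField O) (c.1.res (X₁ j / X₀ j)))
    (ncz : ∀ W : Pl O F, ∃ j, (∀ i, z x y i / X₀ j ∈ W.W) ∨ ∀ i, z x y i / X₁ j ∈ W.W) :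
    Pen (fun c : Comp O x y => c.1) where
  J := J
  R j := Rj hO hS (X₀ j) (X₁ j) (h₀ j) (h₁ j)
  u j := X₁ j / X₀ j
  u_mem j := by
    obtain ⟨c₀⟩ := comp_nonempty (O := O) hS
    have h0 := c₀.1.ne_zero_of_res (g₀ c₀ j)
    refine ⟨1, 0, 0, Sm.zero hO, ?_⟩
    have e : X₁ j / X₀ j * (X₀ j ^ 1 * X₁ j ^ 0 + 0) = X₁ j := by
      rw [pow_one, pow_zero, mul_one, add_zero, div_mul_cancel₀ _ h0]
    rw [e]
    exact intO_L hS (h₁ j)
  uinv_mem j := by
    obtain ⟨c₀⟩ := comp_nonempty (O := O) hS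
    have h1 := c₀.1.ne_zero_of_res (g₁ c₀ j)
    refine ⟨0, 1, 0, Sm.zero hO, ?_⟩
    have e : (X₁ j / X₀ j)⁻¹ * (X₀ j ^ 0 * X₁ j ^ 1 + 0) = X₀ j := by
      rw [pow_one, pow_zero, one_mul, add_zero, inv_div, div_mul_cancel₀ _ h1]
    rw [e]
    exact intO_L hS (h₀ j)
  u_int c j := c.1.div_mem (c.1.mem_of_res (g₁ c j)) (g₀ c j)
  u_res := hres
  u_tr := htr
  key := by
    intro c V hV
    have hk : ∀ a : ResidueField O, algebraMap (ResidueField O) (ResidueField c.1.W) a ∈ V :=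
      fun a => hV j₀ _ (IntermediateField.algebraMap_mem _ a)
    obtain ⟨j, hj⟩ := ncz (c.1.comp V hk)
    have h0 := c.1.ne_zero_of_res (g₀ c j)
    have h1 := c.1.ne_zero_of_res (g₁ c j)
    have hu : X₁ j / X₀ j ∈ (c.1.comp V hk).W :=
      ⟨c.1.div_mem (c.1.mem_of_res (g₁ c j)) (g₀ c j),
        hV j _ (IntermediateField.mem_adjoin_simple_self _ _)⟩
    have hu' : X₀ j / X₁ j ∈ (c.1.comp V hk).W := by
      refine ⟨c.1.div_mem (c.1.mem_of_res (g₀ c j)) (g₁ c j), ?_⟩
      have e : c.1.res (X₀ j / X₁ j) = (c.1.res (X₁ j / X₀ j))⁻¹ := by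
        rw [c.1.res_div (c.1.mem_of_res (g₀ c j)) (g₁ c j),
          c.1.res_div (c.1.mem_of_res (g₁ c j)) (g₀ c j), inv_div]
      rw [e]
      exact hV j _ (inv_mem (IntermediateField.mem_adjoin_simple_self _ _))
    have hm : Mxm x y (c.1.comp V hk).W (X₀ j) ∧ Mxm x y (c.1.comp V hk).W (X₁ j) := by
      rcases hj with hj | hj
      · refine ⟨⟨h0, hj⟩, h1, fun i => ?_⟩
        have e : z x y i / X₁ j = z x y i / X₀ j * (X₀ j / X₁ j) := by field_simp
        rw [e]
        exact mul_mem (hj i) hu'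
      · refine ⟨⟨h0, fun i => ?_⟩, h1, hj⟩
        have e : z x y i / X₀ j = z x y i / X₁ j * (X₁ j / X₀ j) := by field_simp
        rw [e]
        exact mul_mem (hj i) hu
    refine ⟨j, fun f hf hc => ?_⟩
    exact (Rj_mem hSCQ hf hc _ hm.1 hm.2).2

/-- functions with poles on curves in the tubes -/
lemma mem_Rj_of {hO : Arch O} {hS : IsSurf K x y} {X₀ X₁ : F} {h₀ : IntO O x y 1 X₀}
    {h₁ : IntO O x y 1 X₁} (S : Finset (PP K x y))
    (hSt : ∀ e ∈ S, ∃ (m m' : ℕ) (r : F), Sm O x y (m + m') r ∧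
      (X₀ ^ m * X₁ ^ m' + r = 0 ∨ 1 ≤ ord e.1 (X₀ ^ m * X₁ ^ m' + r) +
        ((m + m' : ℕ) : ℤ) * H K x y e))
    (f : F) (hf : ∀ e, e ∉ S → 0 ≤ ord e.1 f) : f ∈ Rj hO hS X₀ X₁ h₀ h₁ := by
  classical
  have key : ∀ S : Finset (PP K x y), (∀ e ∈ S, ∃ (m m' : ℕ) (r : F), Sm O x y (m + m') r ∧
      (X₀ ^ m * X₁ ^ m' + r = 0 ∨ 1 ≤ ord e.1 (X₀ ^ m * X₁ ^ m' + r) +
        ((m + m' : ℕ) : ℤ) * H K x y e)) → ∀ (k : ℕ) (f : F),
      (f = 0 ∨ ∀ e, e ∉ S → -(k * H K x y e) ≤ ord e.1 f) →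
      ∃ (m m' : ℕ) (r : F), Sm O x y (m + m') r ∧
        f * (X₀ ^ m * X₁ ^ m' + r) ∈ L K x y (fun e => ((k + (m + m') : ℕ) : ℤ) * H K x y e) := by
    intro S
    induction S using Finset.induction_on with
    | empty =>
      intro _ k f hf
      refine ⟨0, 0, 0, Sm.zero hO, ?_⟩
      simp only [pow_zero, one_mul, add_zero, mul_one]
      rw [mem_L]
      rcases hf with h | h
      · exact Or.inl h
      · right
        intro e
        have := h e (Finset.notMem_empty e)
        simpa using this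
    | insert d S hd ih =>
      intro hSt k f hf
      rcases hf with hf | hf
      · refine ⟨0, 0, 0, Sm.zero hO, ?_⟩
        rw [hf, zero_mul]
        exact Submodule.zero_mem _
      obtain ⟨m, m', r, hr, hor⟩ := hSt d (Finset.mem_insert_self _ _)
      have hm : IntO O x y (m + m') (X₀ ^ m * X₁ ^ m') := by
        have := intO_mul hS (intO_pow hS h₀ m) (intO_pow hS h₁ m')
        simpa using this
      have hh : IntO O x y (m + m') (X₀ ^ m * X₁ ^ m' + r) := intO_add hS hm hr.intO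
      set h := X₀ ^ m * X₁ ^ m' + r with hhd
      by_cases hf0 : f = 0
      · refine ⟨0, 0, 0, Sm.zero hO, ?_⟩
        rw [hf0, zero_mul]
        exact Submodule.zero_mem _
      by_cases hh0 : h = 0
      · refine ⟨m, m', r, hr, ?_⟩
        rw [← hhd, hh0, mul_zero]
        exact Submodule.zero_mem _
      have hor' := hor.resolve_left hh0
      obtain ⟨N, hN⟩ : ∃ N : ℕ, -(k * H K x y d) ≤ ord d.1 f + N := by
        refine ⟨(-(k * H K x y d) - ord d.1 f).toNat, ?_⟩
        have := Int.self_le_toNat (-(k * H K x y d) - ord d.1 f)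
        linarith
      have hfN : f * h ^ N = 0 ∨ ∀ e, e ∉ S →
          -(((k + (m + m') * N : ℕ) : ℤ) * H K x y e) ≤ ord e.1 (f * h ^ N) := by
        right
        intro e he
        rw [e.isOrd.mul _ _ hf0 (pow_ne_zero _ hh0), e.isOrd.pow hh0]
        by_cases hed : e = d
        · rw [hed]
          have h1 : (N : ℤ) * (1 - ((m + m' : ℕ) : ℤ) * H K x y d) ≤ N * ord d.1 h :=
            mul_le_mul_of_nonneg_left (by linarith) (by positivity)
          push_cast at h1 ⊢
          linarith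
        · have h1 := hf e (by
            rw [Finset.mem_insert, not_or]
            exact ⟨hed, he⟩)
          have h2 := ord_sec hS hh hh0 e
          have h3 : (N : ℤ) * (-(((m + m' : ℕ) : ℤ) * H K x y e)) ≤ N * ord e.1 h :=
            mul_le_mul_of_nonneg_left h2 (by positivity)
          push_cast at h3 ⊢
          linarith
      obtain ⟨n, n', s, hs, hL⟩ := ih (fun e he => hSt e (Finset.mem_insert_of_mem he)) _ _ hfN
      -- `h ^ N = X₀ ^ (m N) X₁ ^ (m' N) + small`
      have hpow : ∀ N : ℕ, ∃ r', Sm O x y ((m + m') * N) r' ∧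
          h ^ N = X₀ ^ (m * N) * X₁ ^ (m' * N) + r' := by
        intro N
        induction N with
        | zero => exact ⟨0, Sm.zero hO, by simp⟩
        | succ N ihN =>
          obtain ⟨r', hr', he⟩ := ihN
          have hN : IntO O x y ((m + m') * N) (X₀ ^ (m * N) * X₁ ^ (m' * N)) := by
            have := intO_pow hS hm N
            rw [mul_pow, ← pow_mul, ← pow_mul] at this
            exact this
          refine ⟨r' * (X₀ ^ m * X₁ ^ m' + r) + X₀ ^ (m * N) * X₁ ^ (m' * N) * r, ?_, ?_⟩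
          · rw [Nat.mul_succ]
            refine Sm.add hS (Sm.mul hS hr' hh) ?_
            rw [mul_comm (X₀ ^ (m * N) * X₁ ^ (m' * N)) r, add_comm]
            exact Sm.mul hS hr hN
          · rw [pow_succ, he, hhd, Nat.mul_succ, Nat.mul_succ, pow_add, pow_add]
            ring
      obtain ⟨r', hr', he'⟩ := hpow N
      have hN : IntO O x y ((m + m') * N) (X₀ ^ (m * N) * X₁ ^ (m' * N)) := by
        have := intO_pow hS hm N
        rw [mul_pow, ← pow_mul, ← pow_mul] at this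
        exact this
      have hn : IntO O x y (n + n') (X₀ ^ n * X₁ ^ n') := by
        have := intO_mul hS (intO_pow hS h₀ n) (intO_pow hS h₁ n')
        simpa using this
      refine ⟨m * N + n, m' * N + n', r' * (X₀ ^ n * X₁ ^ n') +
        s * (X₀ ^ (m * N) * X₁ ^ (m' * N)) + r' * s, ?_, ?_⟩
      · have e1 : m * N + n + (m' * N + n') = (m + m') * N + (n + n') := by ring
        rw [e1]
        refine Sm.add hS (Sm.add hS (Sm.mul hS hr' hn) ?_) (Sm.mul hS hr' hs.intO)
        rw [add_comm ((m + m') * N)]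
        exact Sm.mul hS hs hN
      · have e1 : k + (m * N + n + (m' * N + n')) = k + (m + m') * N + (n + n') := by ring
        rw [e1]
        have e2 : f * (X₀ ^ (m * N + n) * X₁ ^ (m' * N + n') + (r' * (X₀ ^ n * X₁ ^ n') +
            s * (X₀ ^ (m * N) * X₁ ^ (m' * N)) + r' * s)) =
            f * h ^ N * (X₀ ^ n * X₁ ^ n' + s) := by
          rw [he', pow_add, pow_add]
          ring
        rw [e2]
        exact hL
  obtain ⟨m, m', r, hr, h⟩ := key S hSt 0 f (Or.inr fun e he => by simpa using hf e he)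
  refine ⟨m, m', r, hr, ?_⟩
  rwa [zero_add] at h

end Pool.Agent.EN2
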