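import Pool.Agent.EN2.Start

/-!
# The end of the argument
-/

set_option autoImplicit false

noncomputable section

namespace Pool.Agent.EN2

open IsLocalRing Pool.Agent.ClaimF Polynomial

lemma Sp_coeff (p : ℕ) [Fact p.Prime] (Sp : ℤ[X])
    (hSp : Polynomial.C (p : ℤ) * Sp = X ^ p + (1 - X) ^ p - 1) : Sp.coeff 1 = -1 := by
  have hp : p.Prime := Fact.out
  have h1 : (Polynomial.C (p : ℤ) * Sp).coeff 1 = (X ^ p + (1 - X) ^ p - 1 : ℤ[X]).coeff 1 := by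
    rw [hSp]
  rw [Polynomial.coeff_C_mul, Polynomial.coeff_sub, Polynomial.coeff_add, Polynomial.coeff_X_pow,
    if_neg (by have := hp.one_lt; omega), Polynomial.coeff_one, if_neg (by omega)] at h1
  have h2 : ((1 - X : ℤ[X]) ^ p).coeff 1 = -p := by
    have h3 : (Polynomial.derivative ((1 - X : ℤ[X]) ^ p)).coeff 0 =
        ((1 - X : ℤ[X]) ^ p).coeff (0 + 1) * ((0 : ℕ) + 1) := by
      rw [Polynomial.coeff_derivative]
    rw [Polynomial.coeff_zero_eq_eval_zero] at h3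
    simp [Polynomial.derivative_pow] at h3
    linarith
  rw [h2] at h1
  have hp0 : (p : ℤ) ≠ 0 := by exact_mod_cast hp.ne_zero
  have h4 : (p : ℤ) * Sp.coeff 1 = p * (-1) := by linarith
  exact mul_left_cancel₀ hp0 h4

/-- the final contradiction in the residue field -/
lemma fin_aux {k L : Type} [Field k] [Field L] [Algebra k L] [IsAlgClosed k] (p : ℕ)
    [Fact p.Prime] [CharP k p] [CharP L p] (Sp : ℤ[X])
    (hSp : Polynomial.C (p : ℤ) * Sp = X ^ p + (1 - X) ^ p - 1) (x σ : L)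
    (hx : Transcendental k x) (hσ : σ ^ p = aeval x Sp) (n : ℕ) (r₀ r₁ r₂ : L)
    (h0 : IsAlgebraic k r₀) (h1 : IsAlgebraic k r₁) (h2 : IsAlgebraic k r₂)
    (h : r₀ * σ ^ (p ^ n) = r₁ * x ^ (p ^ n) + r₂ * (1 - x) ^ (p ^ n)) : r₁ = 0 ∧ r₂ = 0 := by
  have hp : p.Prime := Fact.out
  obtain ⟨c₀, rfl⟩ := range_of_algebraic h0
  obtain ⟨c₁, rfl⟩ := range_of_algebraic h1
  obtain ⟨c₂, rfl⟩ := range_of_algebraic h2
  have hq : 0 < p ^ n := pow_pos hp.pos n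
  obtain ⟨d₀, rfl⟩ := IsAlgClosed.exists_pow_nat_eq c₀ hq
  obtain ⟨d₁, rfl⟩ := IsAlgClosed.exists_pow_nat_eq c₁ hq
  obtain ⟨d₂, rfl⟩ := IsAlgClosed.exists_pow_nat_eq c₂ hq
  have e1 : algebraMap k L d₀ * σ = algebraMap k L d₁ * x + algebraMap k L d₂ * (1 - x) := by
    have : (algebraMap k L d₀ * σ) ^ p ^ n =
        (algebraMap k L d₁ * x + algebraMap k L d₂ * (1 - x)) ^ p ^ n := by
      rw [add_pow_char_pow, mul_pow, mul_pow, mul_pow, ← map_pow, ← map_pow, ← map_pow]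
      exact h
    have hinj : Function.Injective fun y : L => y ^ p ^ n := by
      have := iterateFrobenius_inj L p n
      intro a b hab
      exact this (by simpa [iterateFrobenius_def] using hab)
    exact hinj this
  have e2 : aeval x (Polynomial.C (d₀ ^ p) * Sp.map (Int.castRingHom k)) =
      aeval x (Polynomial.C (d₁ ^ p) * X ^ p + Polynomial.C (d₂ ^ p) * (1 - X ^ p)) := by
    simp only [map_mul, map_add, map_sub, map_pow, map_one, aeval_X, aeval_C]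
    have h3 : aeval x (Sp.map (Int.castRingHom k)) = aeval x Sp := by
      rw [Polynomial.aeval_def, Polynomial.eval₂_map, Polynomial.aeval_def]
      congr 1
      ext
      simp
    rw [h3, ← hσ]
    have h4 : (algebraMap k L d₀ * σ) ^ p =
        (algebraMap k L d₁ * x + algebraMap k L d₂ * (1 - x)) ^ p := by rw [e1]
    rw [mul_pow, add_pow_char, mul_pow, mul_pow, sub_pow_char, one_pow] at h4
    exact h4
  have e3 := transcendental_iff_injective.mp hx e2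
  have e4 := congrArg (fun P => Polynomial.coeff P 1) e3
  have hp1 : p ≠ 1 := hp.ne_one
  have hd0 : d₀ = 0 := by
    simp only [Polynomial.coeff_C_mul, Polynomial.coeff_map, Sp_coeff p Sp hSp,
      Polynomial.coeff_add, Polynomial.coeff_sub, Polynomial.coeff_X_pow, Polynomial.coeff_one] at e4
    rw [if_neg (Ne.symm hp1)] at e4
    simp [hp.ne_zero] at e4
    exact e4
  rw [hd0, map_zero, zero_mul] at e1
  have e5 : aeval x (0 : k[X]) = aeval x (Polynomial.C d₁ * X + Polynomial.C d₂ * (1 - X)) := by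
    simp only [map_mul, map_add, map_sub, map_one, aeval_X, aeval_C, map_zero]
    exact e1
  have e6 := eval_of_transcendental hx e5
  have e7 := e6 0
  have e8 := e6 1
  simp at e7 e8
  have hz : (0 : k) ^ p ^ n = 0 := zero_pow hq.ne'
  rw [← e7, ← e8, hz, map_zero]
  exact ⟨rfl, rfl⟩

variable {K : Type} [Field K] {O : ValuationSubring K} {F : Type} [Field F] [Algebra K F]
  {C : Type} {P : C → Pl O F}

/-- A chain of pencils `x = x' w`, with precision `s ^ N`. -/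
structure Ch (P : C → Pl O F) (s : K) (N : ℕ) where
  X : Pen P
  X' : Pen P
  W : Pen P
  j : X.J
  j' : X'.J
  jw : W.J
  rel : ∀ c, (s ^ N)⁻¹ • (X.u j - X'.u j' * W.u jw) ∈ (P c).W
  cX : ∀ c i i', (s ^ N)⁻¹ • (X.u i - X.u i') ∈ (P c).W
  cX' : ∀ c i i', (s ^ N)⁻¹ • (X'.u i - X'.u i') ∈ (P c).W
  cW : ∀ c i i', (s ^ N)⁻¹ • (W.u i - W.u i') ∈ (P c).W

lemma res_of_close {c : Pl O F} {s : K} (hs0 : s ≠ 0) (hs : s ∈ O.nonunits) {N : ℕ} (hN : 0 < N)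
    {f g : F} (hg : g ∈ c.W) (h : (s ^ N)⁻¹ • (f - g) ∈ c.W) : f ∈ c.W ∧ c.res f = c.res g := by
  have h1 : f - g = (s ^ N) • ((s ^ N)⁻¹ • (f - g)) := by
    rw [smul_smul, mul_inv_cancel₀ (pow_ne_zero _ hs0), one_smul]
  have hsN : s ^ N ∈ O.nonunits := by
    obtain ⟨M, rfl⟩ := Nat.exists_eq_succ_of_ne_zero hN.ne'
    rw [pow_succ, mul_comm]
    exact nonunit_mul_mem hs (pow_mem (nonunit_mem hs) M)
  have h2 : f - g ∈ c.W.nonunits := by
    rw [h1]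
    exact c.smul_nonunit hsN h
  have h3 : f = (f - g) + g := by ring
  constructor
  · rw [h3]
    exact add_mem (c.mem_of_nonunit h2) hg
  · rw [h3, c.res_add (c.mem_of_nonunit h2) hg, c.res_nonunit h2, zero_add]

lemma Ch.res_rel {s : K} {N : ℕ} (D : Ch P s N) (hs0 : s ≠ 0) (hs : s ∈ O.nonunits)
    (hN : 0 < N) (c : C) :
    (P c).res (D.W.u D.jw) = (P c).res (D.X.u D.j) / (P c).res (D.X'.u D.j') := by
  have h1 := (res_of_close (c := P c) hs0 hs hN (mul_mem (D.X'.u_int c D.j') (D.W.u_int c D.jw))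
    (D.rel c)).2
  rw [(P c).res_mul (D.X'.u_int c D.j') (D.W.u_int c D.jw)] at h1
  have h2 : (P c).res (D.X'.u D.j') ≠ 0 := by
    intro h
    have := D.X'.u_tr c D.j'
    rw [h] at this
    exact this isAlgebraic_zero
  rw [h1]
  field_simp

lemma Pen.u_ne (Q : Pen P) (c : C) (j : Q.J) : (P c).res (Q.u j) ≠ 0 := by
  intro h
  have := Q.u_tr c j
  rw [h] at this
  exact this isAlgebraic_zero

/-- the size of a finite family -/
lemma maxsize {ι : Type} [Finite ι] (hvg : VG P) (c : C) (e : ι → F) (i₀ : ι) (h0 : e i₀ ≠ 0) :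
    ∃ δ : K, δ ≠ 0 ∧ (∀ i, δ⁻¹ • e i ∈ (P c).W) ∧ ∃ i, (P c).res (δ⁻¹ • e i) ≠ 0 := by
  classical
  have hfin : Fintype ι := Fintype.ofFinite ι
  have h' : ∀ i, ∃ δ : K, e i ≠ 0 → δ ≠ 0 ∧ δ⁻¹ • e i ∈ (P c).W ∧ (P c).res (δ⁻¹ • e i) ≠ 0 := by
    intro i
    by_cases h1 : e i = 0
    · exact ⟨1, fun h2 => absurd h1 h2⟩
    · obtain ⟨δ, h2⟩ := hvg c (e i) h1
      exact ⟨δ, fun _ => h2⟩
  choose δ hδ using h'
  obtain ⟨i, hi, hmax⟩ := Finset.exists_max_image (Finset.univ.filter fun i => e i ≠ 0)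
    (fun i => O.valuation (δ i)) ⟨i₀, by simpa using h0⟩
  simp only [Finset.mem_filter, Finset.mem_univ, true_and] at hi hmax
  obtain ⟨d1, d2, d3⟩ := hδ i hi
  refine ⟨δ i, d1, fun j => ?_, i, d3⟩
  by_cases hj : e j = 0
  · rw [hj, smul_zero]
    exact zero_mem _
  obtain ⟨e1, e2, e3⟩ := hδ j hj
  refine size_trans (P c) e1 ?_ e2
  rw [← O.valuation_le_one_iff, map_mul, map_inv₀]
  have h7 : O.valuation (δ i) ≠ 0 := (Valuation.ne_zero_iff _).mpr d1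
  rw [mul_comm, ← div_eq_mul_inv]
  exact div_le_one_of_le₀ (hmax j hj) zero_le

/-- algebraicity of the leading coefficient of `z / u ^ q - 1` -/
lemma lead [Finite C] (p : ℕ) [Fact p.Prime] [CharP K p] (hO : Arch O) (hvg : VG P) (Q : Pen P)
    (s : K) (hs0 : s ≠ 0) (N : ℕ)
    (hcoh : ∀ c i i', (s ^ N)⁻¹ • (Q.u i - Q.u i') ∈ (P c).W) (n : ℕ) (z : F)
    (hz : ∀ j, z ∈ Q.R j) (hzW : ∀ c, z ∈ (P c).W) (δ : K) (hδ0 : δ ≠ 0)
    (hδ : δ⁻¹ * (s ^ N) ^ (p ^ n) ∈ O.nonunits) (c : C) (j : Q.J)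
    (hm : δ⁻¹ • (z / Q.u j ^ (p ^ n) - 1) ∈ (P c).W) :
    AO (ResidueField O) ((P c).res (Q.u j)) ((P c).res (δ⁻¹ • (z / Q.u j ^ (p ^ n) - 1))) := by
  have hcharF : CharP F p := (RingHom.charP_iff (algebraMap K F) (algebraMap K F).injective p).mp
    inferInstance
  have hne : ∀ j, Q.u j ≠ 0 := fun j => (P c).ne_zero_of_res (Q.u_ne c j)
  have hdiff : ∀ i i', (z / Q.u i ^ (p ^ n) - 1) - (z / Q.u i' ^ (p ^ n) - 1) =
      z * (Q.u i' - Q.u i) ^ (p ^ n) / (Q.u i ^ (p ^ n) * Q.u i' ^ (p ^ n)) := by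
    intro i i'
    rw [sub_pow_char_pow]
    have h1 := pow_ne_zero (p ^ n) (hne i)
    have h2 := pow_ne_zero (p ^ n) (hne i')
    field_simp
    ring
  have hcoh' : ∀ a i i', δ⁻¹ • ((z / Q.u i ^ (p ^ n) - 1) - (z / Q.u i' ^ (p ^ n) - 1)) ∈
      (P a).W.nonunits := by
    intro a i i'
    rw [hdiff]
    have hsne : s ^ N ≠ 0 := pow_ne_zero _ hs0
    have h3 : δ⁻¹ • (z * (Q.u i' - Q.u i) ^ (p ^ n) / (Q.u i ^ (p ^ n) * Q.u i' ^ (p ^ n))) =
        (δ⁻¹ * (s ^ N) ^ (p ^ n)) • (z * ((s ^ N)⁻¹ • (Q.u i' - Q.u i)) ^ (p ^ n) *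
          ((Q.u i)⁻¹ ^ (p ^ n) * (Q.u i')⁻¹ ^ (p ^ n))) := by
      have hs' : algebraMap K F (s ^ N) ≠ 0 := by simpa using hsne
      rw [map_pow] at hs'
      simp only [Algebra.smul_def, map_mul, map_inv₀, map_pow, mul_pow, inv_pow]
      field_simp
    rw [h3]
    refine (P a).smul_nonunit hδ ?_
    exact mul_mem (mul_mem (hzW a) (pow_mem (hcoh a i' i) _))
      (mul_mem (pow_mem ((P a).inv_mem (Q.u_ne a i)) _) (pow_mem ((P a).inv_mem (Q.u_ne a i')) _))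
  refine peel hO hvg Q (fun j => z / Q.u j ^ (p ^ n) - 1) ?_ δ hδ0 hcoh' c ?_ j
  · intro i
    refine (Q.R i).sub_mem ?_ (one_mem _)
    rw [div_eq_mul_inv, ← inv_pow]
    exact mul_mem (hz i) (pow_mem (Q.uinv_mem i) _)
  · intro i
    have h1 : δ⁻¹ • (z / Q.u i ^ (p ^ n) - 1) =
        δ⁻¹ • ((z / Q.u i ^ (p ^ n) - 1) - (z / Q.u j ^ (p ^ n) - 1)) +
          δ⁻¹ • (z / Q.u j ^ (p ^ n) - 1) := by
      rw [smul_sub δ⁻¹ (z / Q.u i ^ (p ^ n) - 1) (z / Q.u j ^ (p ^ n) - 1)]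
      ring
    rw [h1]
    exact add_mem ((P c).mem_of_nonunit (hcoh' c i j)) hm

/-- the leading coefficients of a chain are constants and add up -/
lemma level [Finite C] [IsAlgClosed K] (p : ℕ) [Fact p.Prime] [CharP K p] (hO : Arch O)
    (hvg : VG P) (s : K) (hs0 : s ≠ 0) (hs : s ∈ O.nonunits) (N : ℕ) (hN : 0 < N)
    (D : Ch P s N) (c : C)
    (hind : ¬ AO (ResidueField O) ((P c).res (D.X'.u D.j')) ((P c).res (D.X.u D.j)))
    (n : ℕ) (z₁ z₂ z₃ : F) (hz : z₁ = z₂ * z₃)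
    (hz1 : ∀ j, z₁ ∈ D.X.R j) (hz2 : ∀ j, z₂ ∈ D.X'.R j) (hz3 : ∀ j, z₃ ∈ D.W.R j)
    (w1 : ∀ c, z₁ ∈ (P c).W) (w2 : ∀ c, z₂ ∈ (P c).W) (w3 : ∀ c, z₃ ∈ (P c).W)
    (δ : K) (hδ0 : δ ≠ 0) (hδn : δ ∈ O.nonunits) (hδ : δ⁻¹ * (s ^ N) ^ (p ^ n) ∈ O.nonunits)
    (m1 : δ⁻¹ • (z₁ / D.X.u D.j ^ (p ^ n) - 1) ∈ (P c).W)
    (m2 : δ⁻¹ • (z₂ / D.X'.u D.j' ^ (p ^ n) - 1) ∈ (P c).W)
    (m3 : δ⁻¹ • (z₃ / D.W.u D.jw ^ (p ^ n) - 1) ∈ (P c).W) :
    (P c).res (δ⁻¹ • (z₁ / D.X.u D.j ^ (p ^ n) - 1)) ∈ (P c).Cst ∧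
    (P c).res (δ⁻¹ • (z₂ / D.X'.u D.j' ^ (p ^ n) - 1)) ∈ (P c).Cst ∧
    (P c).res (δ⁻¹ • (z₁ / D.X.u D.j ^ (p ^ n) - 1)) =
      (P c).res (δ⁻¹ • (z₂ / D.X'.u D.j' ^ (p ^ n) - 1)) +
      (P c).res (δ⁻¹ • (z₃ / D.W.u D.jw ^ (p ^ n) - 1)) := by
  have hcharF : CharP F p := (RingHom.charP_iff (algebraMap K F) (algebraMap K F).injective p).mp
    inferInstance
  have hchar : CharP (ResidueField (P c).W) p := charP_res p (P c)
  set x := D.X.u D.j with hx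
  set x' := D.X'.u D.j' with hx'
  set w := D.W.u D.jw with hw
  have hx0 : x ≠ 0 := (P c).ne_zero_of_res (D.X.u_ne c D.j)
  have hx'0 : x' ≠ 0 := (P c).ne_zero_of_res (D.X'.u_ne c D.j')
  have hw0 : w ≠ 0 := (P c).ne_zero_of_res (D.W.u_ne c D.jw)
  set q := p ^ n with hq
  set e₁ := z₁ / x ^ q - 1 with he1
  set e₂ := z₂ / x' ^ q - 1 with he2
  set e₃ := z₃ / w ^ q - 1 with he3
  have ns : ∀ e : F, δ⁻¹ • e ∈ (P c).W → e ∈ (P c).W.nonunits := by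
    intro e he
    have h1 : e = δ • (δ⁻¹ • e) := by
      rw [smul_smul, mul_inv_cancel₀ hδ0, one_smul]
    rw [h1]
    exact (P c).smul_nonunit hδn he
  have n1 := ns _ m1
  have n2 := ns _ m2
  have n3 := ns _ m3
  -- the error term
  set η := (x' * w - x) ^ q / x ^ q with hη
  have hηm : δ⁻¹ • η ∈ (P c).W.nonunits := by
    have hsN : algebraMap K F (s ^ N) ≠ 0 := by simpa using pow_ne_zero N hs0
    have h1 : δ⁻¹ • η = (δ⁻¹ * (s ^ N) ^ q) • ((-((s ^ N)⁻¹ • (x - x' * w))) ^ q * x⁻¹ ^ q) := by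
      rw [hη]
      have h2 : x' * w - x = -(x - x' * w) := by ring
      rw [h2, neg_pow (x - x' * w), neg_pow ((s ^ N)⁻¹ • (x - x' * w))]
      rw [map_pow] at hsN
      simp only [Algebra.smul_def, map_mul, map_inv₀, map_pow, mul_pow, inv_pow]
      field_simp
    rw [h1]
    exact (P c).smul_nonunit hδ (mul_mem (pow_mem (neg_mem (D.rel c)) _)
      (pow_mem ((P c).inv_mem (D.X.u_ne c D.j)) _))
  have hηn : η ∈ (P c).W.nonunits := ns _ ((P c).mem_of_nonunit hηm)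
  have hmain : e₁ = e₂ + e₃ + e₂ * e₃ + η * ((1 + e₂) * (1 + e₃)) := by
    have h1 : (x' * w) ^ q = x ^ q * (1 + η) := by
      have h2 : x' * w = (x' * w - x) + x := by ring
      rw [h2, hq, add_pow_char_pow, ← hq, hη]
      field_simp
      ring
    have h3 : z₁ = x ^ q * (1 + e₁) := by
      rw [he1]
      field_simp
      ring
    have h4 : z₂ * z₃ = (x' * w) ^ q * ((1 + e₂) * (1 + e₃)) := by
      rw [he2, he3, mul_pow]
      field_simp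
      ring
    have h5 : x ^ q * (1 + e₁) = x ^ q * ((1 + η) * ((1 + e₂) * (1 + e₃))) := by
      rw [← h3, hz, h4, h1]
      ring
    have h6 := mul_left_cancel₀ (pow_ne_zero q hx0) h5
    linear_combination h6
  have hsmul : δ⁻¹ • e₁ = δ⁻¹ • e₂ + δ⁻¹ • e₃ + (δ⁻¹ • e₂) * e₃ +
      (δ⁻¹ • η) * ((1 + e₂) * (1 + e₃)) := by
    conv_lhs => rw [hmain]
    simp only [Algebra.smul_def]
    ring
  have u2 : 1 + e₂ ∈ (P c).W := add_mem (one_mem _) ((P c).mem_of_nonunit n2)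
  have u3 : 1 + e₃ ∈ (P c).W := add_mem (one_mem _) ((P c).mem_of_nonunit n3)
  have k1 : (δ⁻¹ • e₂) * e₃ ∈ (P c).W.nonunits := (P c).nonunit_mul m2 n3
  have k2 : (δ⁻¹ • η) * ((1 + e₂) * (1 + e₃)) ∈ (P c).W.nonunits := by
    rw [mul_comm]
    exact (P c).nonunit_mul (mul_mem u2 u3) hηm
  have hadd : (P c).res (δ⁻¹ • e₁) = (P c).res (δ⁻¹ • e₂) + (P c).res (δ⁻¹ • e₃) := by
    rw [hsmul, (P c).res_add (add_mem (add_mem m2 m3) ((P c).mem_of_nonunit k1))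
      ((P c).mem_of_nonunit k2), (P c).res_add (add_mem m2 m3) ((P c).mem_of_nonunit k1),
      (P c).res_add m2 m3, (P c).res_nonunit k1, (P c).res_nonunit k2, add_zero, add_zero]
  have a1 := lead p hO hvg D.X s hs0 N D.cX n z₁ hz1 w1 δ hδ0 hδ c D.j m1
  have a2 := lead p hO hvg D.X' s hs0 N D.cX' n z₂ hz2 w2 δ hδ0 hδ c D.j' m2
  have a3 := lead p hO hvg D.W s hs0 N D.cW n z₃ hz3 w3 δ hδ0 hδ c D.jw m3
  rw [D.res_rel hs0 hs hN c] at a3
  have h0 : IsAlgebraic (ResidueField O) ((P c).res (δ⁻¹ • e₁) - (P c).res (δ⁻¹ • e₂) -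
      (P c).res (δ⁻¹ • e₃)) := by
    rw [hadd]
    have : (P c).res (δ⁻¹ • e₂) + (P c).res (δ⁻¹ • e₃) - (P c).res (δ⁻¹ • e₂) -
        (P c).res (δ⁻¹ • e₃) = 0 := by ring
    rw [this]
    exact isAlgebraic_zero
  obtain ⟨f1, f2, f3⟩ := claimF p _ _ _ _ _ (D.X'.u_tr c D.j') hind a1 a2 a3 h0
  exact ⟨(P c).cst_of_algebraic f1, (P c).cst_of_algebraic f2, hadd⟩

end Pool.Agent.EN2
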