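import Pool.Agent.EN2.Sol

/-!
# Generic solutions
-/

set_option autoImplicit false

noncomputable section

namespace Pool.Agent.EN2

open Pool.Agent.XV MvPolynomial Pool.Agent.ClaimF

section trdeg

variable {k L : Type} [Field k] [Field L] [Algebra k L]

/-- a field generated by two elements which contains two algebraically independent elements -/
lemma indep_of_mem (x y : L) (ζ : Fin 2 → L) (hζ : AlgebraicIndependent k ζ)
    (h : ∀ i, ζ i ∈ IntermediateField.adjoin k {x, y}) : AlgebraicIndependent k ![x, y] := by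
  set A := IntermediateField.adjoin k {x, y} with hA
  have hx : x ∈ A := IntermediateField.subset_adjoin k _ (Set.mem_insert _ _)
  have hy : y ∈ A := IntermediateField.subset_adjoin k _ (Set.mem_insert_of_mem _ rfl)
  let v : Fin 2 → A := ![⟨x, hx⟩, ⟨y, hy⟩]
  let ζ' : Fin 2 → A := fun i => ⟨ζ i, h i⟩
  have h1 : AlgebraicIndependent k ζ' := by
    refine AlgebraicIndependent.of_comp A.val ?_
    exact hζ
  have h2 : Cardinal.mk (Fin 2) ≤ Algebra.trdeg k A := h1.cardinalMk_le_trdeg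
  have hv : (A.val : A → L) ∘ v = ![x, y] := by
    funext i
    fin_cases i <;> rfl
  have h3 : Algebra.IsAlgebraic (Algebra.adjoin k (Set.range v)) A := by
    rw [← IntermediateField.isAlgebraic_adjoin_iff_top]
    refine ⟨fun a => ?_⟩
    have h4 : a ∈ IntermediateField.adjoin k (Set.range v) := by
      rw [IntermediateField.mem_adjoin_range_iff]
      have h5 : (a : L) ∈ IntermediateField.adjoin k (Set.range ![x, y]) := by
        have : Set.range (![x, y] : Fin 2 → L) = {x, y} := by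
          simp [Matrix.range_cons, Set.pair_comm]
        rw [this]
        exact a.2
      rw [IntermediateField.mem_adjoin_range_iff] at h5
      obtain ⟨r, s, hrs⟩ := h5
      refine ⟨r, s, ?_⟩
      apply A.val.toRingHom.injective
      show (a : L) = A.val (aeval v r / aeval v s)
      have e : ∀ q : MvPolynomial (Fin 2) k, A.val (aeval v q) = aeval ![x, y] q := by
        intro q
        rw [← hv]
        exact (MvPolynomial.aeval_algebraMap_apply (A := A) (B := L) v q).symm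
      rw [map_div₀, e, e]
      exact hrs
    exact isAlgebraic_algebraMap (⟨a, h4⟩ : IntermediateField.adjoin k (Set.range v))
  have h4 := Algebra.IsAlgebraic.isTranscendenceBasis_of_le_trdeg_of_finite k v h2
  have h5 := h4.1.map' (f := A.val) A.val.toRingHom.injective
  rwa [hv] at h5

/-- algebraic dependence -/
lemma not_ao_of_indep {x y : L} (h : AlgebraicIndependent k ![x, y]) : ¬ AO k y x := by
  intro hao
  have h1 := h.transcendental_adjoin (s := {1}) (i := 0) (by simp)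
  have e : (![x, y] : Fin 2 → L) '' {1} = {y} := by simp
  rw [e] at h1
  exact h1 (IntermediateField.isAlgebraic_adjoin_iff.mp hao)

end trdeg

section gen

variable {k L : Type} [Field k] [Field L] [Algebra k L]

lemma el_zero (l : Fin 3) (c : Pt) : elc 0 l c = (![c.e 0, c.e 7, c.w] : Fin 3 → ℕ) l := rfl

/-- **Generic solutions**: the coordinates of the chart are algebraically independent, the
coordinates with `w = 0` do not vanish. -/
lemma genA (hSym : Stmt_Sym) (hChv : Stmt_Chv) (hChr : Stmt_Chr) (s : Pt → L) (hs : IsSol s)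
    (hw : ∀ c, 1 ≤ c.w → s c = 0) [Fintype Pt] (ζ : Fin 2 → L) (hζ : AlgebraicIndependent k ζ)
    (hone : ∃ l : Pt → k, 1 = ∑ c, l c • s c) (hlin : ∀ m, ∃ l : Pt → k, ζ m = ∑ c, l c • s c)
    (π : Equiv.Perm (Fin 5)) (h0 : tws π s (tp 0 0) ≠ 0) (hU : ∀ j, tws π s (tp 0 (tU j)) ≠ 0) :
    AlgebraicIndependent k ![tws π s (tp 0 1) / tws π s (tp 0 0),
      tws π s (tp 0 2) / tws π s (tp 0 0)] ∧ ∀ c, c.w = 0 → s c ≠ 0 := by
  classical
  have hs' := hSym L s π hs
  set s' := tws π s with hs'd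
  set Z : Lˣ := Units.mk0 (s' (tp 0 0)) h0 with hZ
  let U : Fin 3 → Lˣ := fun j => Units.mk0 (s' (tp 0 (tU j)) / s' (tp 0 0))
    (div_ne_zero (hU j) h0)
  have hZv : (Z : L) = s' (tp 0 0) := rfl
  have hZi : ((Z⁻¹ : Lˣ) : L) = (s' (tp 0 0))⁻¹ := by rw [Units.val_inv_eq_inv_val, hZv]
  set X₁ := s' (tp 0 1) / s' (tp 0 0) with hX₁
  set X₂ := s' (tp 0 2) / s' (tp 0 0) with hX₂
  set A := IntermediateField.adjoin k {X₁, X₂} with hA
  have a1 : X₁ ∈ A := IntermediateField.subset_adjoin k _ (Set.mem_insert _ _)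
  have a2 : X₂ ∈ A := IntermediateField.subset_adjoin k _ (Set.mem_insert_of_mem _ rfl)
  have hX3 : s' (tp 0 3) = 0 := by
    rw [hs'd]
    unfold tws
    rw [hw (act π (tp 0 3)) (by show 1 ≤ tw 0 3; decide), mul_zero]
  have hchv := hChv L s' hs' 0 Z U rfl (fun j => by
    show s' (tp 0 (tU j)) = s' (tp 0 0) * (s' (tp 0 (tU j)) / s' (tp 0 0))
    field_simp)
  have hchr := hChr L s' hs' 0 Z (fun l => s' (tp 0 (tX l)) / s' (tp 0 0)) rfl (fun l => by
    show s' (tp 0 (tX l)) = s' (tp 0 0) * (s' (tp 0 (tX l)) / s' (tp 0 0))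
    field_simp)
  have hhx : hx 0 (fun l => s' (tp 0 (tX l)) / s' (tp 0 0)) = X₁ := by
    unfold hx
    rw [Fin.prod_univ_three]
    show (s' (tp 0 1) / s' (tp 0 0)) ^ 1 * (s' (tp 0 2) / s' (tp 0 0)) ^ 0 *
      (s' (tp 0 3) / s' (tp 0 0)) ^ 0 = X₁
    rw [pow_one, pow_zero, pow_zero, mul_one, mul_one]
  have hhy : hy 0 (fun l => s' (tp 0 (tX l)) / s' (tp 0 0)) = X₂ := by
    unfold hy
    rw [Fin.prod_univ_three]
    show (s' (tp 0 1) / s' (tp 0 0)) ^ 0 * (s' (tp 0 2) / s' (tp 0 0)) ^ 1 *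
      (s' (tp 0 3) / s' (tp 0 0)) ^ 0 = X₂
    rw [pow_one, pow_zero, pow_zero, one_mul, mul_one]
  rw [hhx, hhy] at hchr
  have hUA : ∀ j, ((U j : Lˣ) : L) ∈ A := by
    intro j
    have e : ∀ v, s' (tp 0 (tU j)) = (Z : L) * v → ((U j : Lˣ) : L) = v := by
      intro v hv
      show s' (tp 0 (tU j)) / s' (tp 0 0) = v
      rw [hv, hZv]
      field_simp
    fin_cases j
    · rw [e _ hchr.1]
      exact add_mem (one_mem _) a1
    · rw [e _ hchr.2.1]
      exact add_mem (one_mem _) a2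
    · rw [e _ hchr.2.2]
      exact sub_mem (one_mem _) (mul_mem a1 a2)
  have hform : ∀ c, s' c = (Z : L) * (X₁ ^ c.e 0 * X₂ ^ c.e 7 * 0 ^ c.w) *
      ((∏ j, U j ^ nu 0 j c : Lˣ) : L) := by
    intro c
    rw [hchv c, Fin.prod_univ_three]
    congr 2
    show ((Z⁻¹ : Lˣ) * s' (tp 0 1)) ^ c.e 0 * ((Z⁻¹ : Lˣ) * s' (tp 0 2)) ^ c.e 7 *
      ((Z⁻¹ : Lˣ) * s' (tp 0 3)) ^ c.w = _
    rw [hX3, mul_zero, hZi, hX₁, hX₂, div_eq_inv_mul, div_eq_inv_mul]
  have hunit : ∀ c, ((∏ j, U j ^ nu 0 j c : Lˣ) : L) ∈ A := by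
    intro c
    rw [Units.coe_prod]
    refine prod_mem fun j _ => ?_
    rw [Units.val_zpow_eq_zpow_val]
    exact zpow_mem (hUA j) _
  have hrat : ∀ c, s' c / s' (tp 0 0) ∈ A := by
    intro c
    rw [hform c, hZv]
    have e : s' (tp 0 0) * (X₁ ^ c.e 0 * X₂ ^ c.e 7 * 0 ^ c.w) *
      ((∏ j, U j ^ nu 0 j c : Lˣ) : L) / s' (tp 0 0) = (X₁ ^ c.e 0 * X₂ ^ c.e 7 * 0 ^ c.w) *
      ((∏ j, U j ^ nu 0 j c : Lˣ) : L) := by
      field_simp
    rw [e]
    exact mul_mem (mul_mem (mul_mem (pow_mem a1 _) (pow_mem a2 _)) (pow_mem (zero_mem _) _))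
      (hunit c)
  -- back to `s`
  have hback : ∀ c, ∃ (n : ℤ), s' c = n * s (act π c) ∧ (n = 1 ∨ n = -1) := by
    intro c
    refine ⟨sgn π c, rfl, ?_⟩
    unfold sgn
    have : ∀ S : Finset (Fin 10), (∏ k ∈ S, sg π k ^ c.e k = 1) ∨
        (∏ k ∈ S, sg π k ^ c.e k = -1) := by
      intro S
      induction S using Finset.induction_on with
      | empty => simp
      | insert a S ha ih =>
        rw [Finset.prod_insert ha]
        have h1 : sg π a ^ c.e a = 1 ∨ sg π a ^ c.e a = -1 := by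
          unfold sg
          split_ifs
          · left; simp
          · exact neg_one_pow_eq_or ℤ _
        rcases h1 with h1 | h1 <;> rcases ih with h2 | h2 <;> rw [h1, h2] <;> simp
    exact this _
  have hratS : ∀ c, s c / s' (tp 0 0) ∈ A := by
    intro c
    obtain ⟨n, hn, h⟩ := hback (act π⁻¹ c)
    rw [act_inv] at hn
    have h1 := hrat (act π⁻¹ c)
    rw [hn] at h1
    rcases h with rfl | rfl
    · simpa using h1
    · have := neg_mem h1
      rw [← neg_div] at this
      simpa using this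
  have hind : AlgebraicIndependent k ![X₁, X₂] := by
    refine indep_of_mem X₁ X₂ ζ hζ fun m => ?_
    obtain ⟨l, hl⟩ := hone
    obtain ⟨l', hl'⟩ := hlin m
    have h1 : ∀ l : Pt → k, (∑ c, l c • s c) / s' (tp 0 0) ∈ A := by
      intro l
      rw [Finset.sum_div]
      refine sum_mem fun c _ => ?_
      rw [smul_div_assoc, Algebra.smul_def]
      exact mul_mem (A.algebraMap_mem _) (hratS c)
    have e : ζ m = (∑ c, l' c • s c) / s' (tp 0 0) / ((∑ c, l c • s c) / s' (tp 0 0)) := by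
      rw [← hl, ← hl']
      field_simp
    rw [e]
    exact div_mem (h1 l') (h1 l)
  refine ⟨hind, fun c hc => ?_⟩
  have n1 : X₁ ≠ 0 := hind.ne_zero 0
  have n2 : X₂ ≠ 0 := hind.ne_zero 1
  have h1 : s' (act π⁻¹ c) ≠ 0 := by
    rw [hform]
    have hw0 : (act π⁻¹ c).w = 0 := hc
    rw [hw0, pow_zero, mul_one]
    exact mul_ne_zero (mul_ne_zero Z.ne_zero (mul_ne_zero (pow_ne_zero _ n1) (pow_ne_zero _ n2)))
      (Units.ne_zero _)
  have h2 := tws_ne h1
  rwa [act_inv] at h2

/-- in characteristic two the signs disappear -/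
lemma tws_two [CharP L 2] (π : Equiv.Perm (Fin 5)) (s : Pt → L) (c : Pt) :
    tws π s c = s (act π c) := by
  unfold tws
  have h1 : (2 : L) = 0 := CharTwo.two_eq_zero
  have : sgn π c = 1 ∨ sgn π c = -1 := by
    unfold sgn
    have : ∀ S : Finset (Fin 10), (∏ k ∈ S, sg π k ^ c.e k = 1) ∨
        (∏ k ∈ S, sg π k ^ c.e k = -1) := by
      intro S
      induction S using Finset.induction_on with
      | empty => simp
      | insert a S ha ih =>
        rw [Finset.prod_insert ha]
        have h1 : sg π a ^ c.e a = 1 ∨ sg π a ^ c.e a = -1 := by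
          unfold sg
          split_ifs
          · left; simp
          · exact neg_one_pow_eq_or ℤ _
        rcases h1 with h1 | h1 <;> rcases ih with h2 | h2 <;> rw [h1, h2] <;> simp
    exact this _
  rcases this with h | h
  · rw [h]
    simp
  · rw [h]
    push_cast
    linear_combination (-s (act π c)) * h1

/-- the permutation which takes the chart to the two pencils -/
def π₀ : Equiv.Perm (Fin 5) where
  toFun := ![1, 0, 4, 2, 3]
  invFun := ![1, 0, 3, 4, 2]
  left_inv := by decide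
  right_inv := by decide

lemma π₀_one : ∀ n, (act π₀ (tp 0 1)).e n + ind (ed 0 2) n + ind (ed 1 3) n =
    (act π₀ (tp 0 0)).e n + ind (ed 0 1) n + ind (ed 2 3) n := by decide +kernel

lemma π₀_two : ∀ n, (act π₀ (tp 0 2)).e n + ind (ed 1 4) n + ind (ed 2 3) n =
    (act π₀ (tp 0 0)).e n + ind (ed 1 3) n + ind (ed 2 4) n := by decide +kernel

/-- the parameter of a pencil -/
def par (s : Pt → L) {q : Fin 5} (e : Cm q) (a₀ a₁ : Fin 3) : L := s (ptm e a₁) / s (ptm e a₀)

lemma mk_vals : mk 4 0 = (ed 0 1, ed 2 3) ∧ mk 4 1 = (ed 0 2, ed 1 3) ∧ mk 4 2 = (ed 0 3, ed 1 2) ∧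
    mk 3 0 = (ed 0 1, ed 2 4) ∧ mk 3 1 = (ed 0 2, ed 1 4) ∧ mk 3 2 = (ed 0 4, ed 1 2) ∧
    mk 0 1 = (ed 1 3, ed 2 4) ∧ mk 0 2 = (ed 1 4, ed 2 3) ∧
    mk 2 1 = (ed 0 3, ed 1 4) ∧ mk 2 2 = (ed 0 4, ed 1 3) := by decide

/-- **The parameters of the pencils are algebraically independent.** -/
lemma genB [CharP L 2] (hSym : Stmt_Sym) (hCov : Stmt_Cov) (hChv : Stmt_Chv) (hChr : Stmt_Chr)
    (hBin : Stmt_Bin) (hTri : Stmt_Tri) (s : Pt → L) (hs : IsSol s)
    (hw : ∀ c, 1 ≤ c.w → s c = 0) [Fintype Pt] (ζ : Fin 2 → L) (hζ : AlgebraicIndependent k ζ)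
    (hone : ∃ l : Pt → k, 1 = ∑ c, l c • s c) (hlin : ∀ m, ∃ l : Pt → k, ζ m = ∑ c, l c • s c) :
    (∀ c, c.w = 0 → s c ≠ 0) ∧ ∀ (e : Cm 4) (e' : Cm 3) (f : Cm 0) (f' : Cm 2),
      ¬ AO k (par s e' 1 0) (par s e 1 0) ∧ Transcendental k (par s e 1 0) ∧
      Transcendental k (par s e' 1 0) ∧ Transcendental k (par s e 1 2) ∧
      Transcendental k (par s e' 1 2) ∧ Transcendental k (par s f 1 2) ∧
      Transcendental k (par s f' 2 1) := by
  classical
  have hs0 : ∃ c, s c ≠ 0 := by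
    by_contra hcon
    push Not at hcon
    obtain ⟨l, hl⟩ := hone
    simp_rw [hcon, smul_zero, Finset.sum_const_zero] at hl
    exact one_ne_zero hl
  obtain ⟨π, h1, h2⟩ := chart_zero hCov s hs hw hs0
  obtain ⟨-, hne⟩ := genA hSym hChv hChr s hs hw ζ hζ hone hlin π h1 h2
  refine ⟨hne, fun e e' f f' => ?_⟩
  have hne' : ∀ c, c.w = 0 → tws π₀ s c ≠ 0 := by
    intro c hc
    rw [tws_two]
    exact hne _ hc
  obtain ⟨hind, -⟩ := genA hSym hChv hChr s hs hw ζ hζ hone hlin π₀ (hne' _ tw_zero.1)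
    (fun j => hne' _ (tw_zero.2 j))
  rw [tws_two, tws_two, tws_two] at hind
  set c0 := act π₀ (tp 0 0) with hc0
  set c1 := act π₀ (tp 0 1) with hc1
  set c2 := act π₀ (tp 0 2) with hc2
  have w0 : c0.w = 0 := tw_zero.1
  have w1 : c1.w = 0 := by show tw 0 1 = 0; decide
  have w2 : c2.w = 0 := by show tw 0 2 = 0; decide
  have n0 := hne c0 w0
  have n1 := hne c1 w1
  have n2 := hne c2 w2
  have np : ∀ {q : Fin 5} (e : Cm q) (a : Fin 3), s (ptm e a) ≠ 0 := fun e a => hne _ rfl
  set X₁ := s c1 / s c0 with hX₁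
  set X₂ := s c2 / s c0 with hX₂
  obtain ⟨m1, m2, m3, m4, m5, m6, m7, m8, m9, m10⟩ := mk_vals
  -- the two parameters
  have p1 : par s e 1 0 = X₁ := by
    have h := bin2 hBin s hs c1 (ptm e 1) c0 (ptm e 0) (by rw [w0, w1]; rfl) (fun n => by
      rw [ptm_e, ptm_e, m1, m2]
      have h1 := π₀_one n
      rw [← hc0, ← hc1] at h1
      simp only
      omega)
    unfold par
    rw [hX₁, div_eq_div_iff (np _ _) n0]
    linear_combination -h
  have p2 : par s e' 1 0 = X₁ * X₂ := by
    have h := bin3 hBin s hs c1 c2 (ptm e' 1) c0 c0 (ptm e' 0)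
      (by rw [w0, w1, w2]; rfl) (fun n => by
      rw [ptm_e, ptm_e, m4, m5]
      have h1 := π₀_one n
      have h2 := π₀_two n
      rw [← hc0, ← hc1] at h1
      rw [← hc0, ← hc2] at h2
      simp only
      omega)
    unfold par
    rw [hX₁, hX₂, div_mul_div_comm, div_eq_div_iff (np _ _) (mul_ne_zero n0 n0)]
    linear_combination -h
  have hI : AlgebraicIndependent k ![X₁, X₁ * X₂] := by
    refine indep_of_mem _ _ _ hind fun m => ?_
    have a1 : X₁ ∈ IntermediateField.adjoin k {X₁, X₁ * X₂} :=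
      IntermediateField.subset_adjoin k _ (Set.mem_insert _ _)
    have a2 : X₁ * X₂ ∈ IntermediateField.adjoin k {X₁, X₁ * X₂} :=
      IntermediateField.subset_adjoin k _ (Set.mem_insert_of_mem _ rfl)
    fin_cases m
    · exact a1
    · have h := div_mem a2 a1
      rw [mul_div_cancel_left₀ _ (div_ne_zero n1 n0)] at h
      exact h
  have hao : ¬ AO k (par s e' 1 0) (par s e 1 0) := by
    rw [p1, p2]
    exact not_ao_of_indep hI
  have ht1 : Transcendental k (par s e 1 0) := trans_of hao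
  have ht2 : Transcendental k (par s e' 1 0) := by
    rw [p2]
    exact hI.transcendental 1
  have q1 : par s e 1 2 = 1 - par s e 1 0 := by
    have h := plucker hTri s hs e
    unfold par
    rw [eq_sub_iff_add_eq, ← add_div, div_eq_one_iff_eq (np _ _), h]
    ring
  have q2 : par s e' 1 2 = 1 - par s e' 1 0 := by
    have h := plucker hTri s hs e'
    unfold par
    rw [eq_sub_iff_add_eq, ← add_div, div_eq_one_iff_eq (np _ _), h]
    ring
  have q3 : par s f 1 2 = par s e 1 0 / par s e' 1 0 := by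
    have h := bin3 hBin s hs (ptm e 0) (ptm e' 1) (ptm f 1) (ptm e 1) (ptm e' 0) (ptm f 2)
      rfl (fun n => by
      rw [ptm_e, ptm_e, ptm_e, ptm_e, ptm_e, ptm_e, m1, m2, m4, m5, m7, m8]
      simp only
      omega)
    unfold par
    have := np e 0
    have := np e 1
    have := np e' 0
    have := np e' 1
    have := np f 1
    field_simp
    linear_combination -h
  have q4 : par s f' 2 1 = par s e 1 2 / par s e' 1 2 := by
    have h := bin3 hBin s hs (ptm e 2) (ptm e' 1) (ptm f' 2) (ptm e 1) (ptm e' 2) (ptm f' 1)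
      rfl (fun n => by
      rw [ptm_e, ptm_e, ptm_e, ptm_e, ptm_e, ptm_e, m2, m3, m5, m6, m9, m10]
      simp only
      omega)
    unfold par
    have := np e 2
    have := np e 1
    have := np e' 2
    have := np e' 1
    have := np f' 2
    field_simp
    linear_combination -h
  have hx'0 : par s e' 1 0 ≠ 0 := div_ne_zero (np _ _) (np _ _)
  have hy'0 : par s e' 1 2 ≠ 0 := div_ne_zero (np _ _) (np _ _)
  have self' : par s e' 1 0 ∈ cl k (par s e' 1 0) := self_mem_cl _
  have alg_cl : ∀ y : L, IsAlgebraic k y → y ∈ cl k (par s e' 1 0) := by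
    intro y hy
    rw [mem_cl]
    exact ao_of_alg hy
  refine ⟨hao, ht1, ht2, ?_, ?_, ?_, ?_⟩
  · intro h
    apply ht1
    rw [q1] at h
    have := (isAlgebraic_one (R := k) (A := L)).sub h
    rwa [sub_sub_cancel] at this
  · intro h
    apply ht2
    rw [q2] at h
    have := (isAlgebraic_one (R := k) (A := L)).sub h
    rwa [sub_sub_cancel] at this
  · intro h
    apply hao
    rw [← mem_cl]
    have e1 : par s e 1 0 = par s f 1 2 * par s e' 1 0 := by
      rw [q3, div_mul_cancel₀ _ hx'0]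
    rw [e1]
    exact mul_mem (alg_cl _ h) self'
  · intro h
    apply hao
    rw [← mem_cl]
    have e1 : par s e 1 0 = 1 - par s f' 2 1 * (1 - par s e' 1 0) := by
      rw [q4, ← q2, div_mul_cancel₀ _ hy'0, q1]
      ring
    rw [e1]
    exact sub_mem (one_mem _) (mul_mem (alg_cl _ h) (sub_mem (one_mem _) self'))

end gen

end Pool.Agent.EN2
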