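import Pool.Agent.EN2.CompEx
import Pool.Agent.SRF.Stmts

/-!
# The maximum principle
-/

set_option autoImplicit false

noncomputable section

namespace Pool.Agent.EN2

open IsLocalRing Pool.Agent.ClaimF Pool.Agent.SRF Pool.Agent.DIS

variable {K : Type} [Field K] {F : Type} [Field F] [Algebra K F]
variable {O : ValuationSubring K} {x y : F}

lemma z_ne (hS : IsSurf K x y) (i : Fin 3) : z x y i ≠ 0 := by
  have hI := hS.indep
  fin_cases i
  · exact one_ne_zero
  · exact hI.ne_zero 0
  · exact hI.ne_zero 1

omit [Algebra K F] in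
/-- one of the three coordinates is maximal -/
lemma zmax (V : ValuationSubring F) : ∃ i, z x y i ≠ 0 ∧ ∀ j, z x y j / z x y i ∈ V := by
  classical
  obtain ⟨i, -, hi⟩ := Finset.exists_max_image (Finset.univ : Finset (Fin 3))
    (fun i => V.valuation (z x y i)) ⟨0, Finset.mem_univ _⟩
  have h0 : z x y i ≠ 0 := by
    intro h
    have h1 := hi 0 (Finset.mem_univ _)
    rw [h, map_zero] at h1
    have h2 : z x y 0 = 1 := rfl
    rw [h2, map_one] at h1
    exact absurd h1 (not_le.mpr zero_lt_one)
  refine ⟨i, h0, fun j => ?_⟩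
  rw [mem_iff_val, map_div₀]
  exact div_le_one_of_le₀ (hi j (Finset.mem_univ _)) zero_le

/-- bounded sections are sections -/
theorem intO_L (hS : IsSurf K x y) {n : ℕ} {f : F} (hf : IntO O x y n f) :
    f ∈ L K x y (fun e => n * H K x y e) := by
  rw [mem_L]
  by_cases h0 : f = 0
  · exact Or.inl h0
  right
  intro e
  obtain ⟨W, hW⟩ := exists_place O e.1 (e.2.const_mem K x y)
  obtain ⟨i, hi⟩ := hf W
  have h1 := hW hi
  have hz := z_ne hS i
  have hzn := pow_ne_zero n hz
  rw [e.isOrd.mem _ (div_ne_zero h0 hzn), div_eq_mul_inv, e.isOrd.mul _ _ h0 (inv_ne_zero hzn),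
    e.isOrd.inv hzn, e.isOrd.pow hz] at h1
  have h2 : - ord e.1 (z x y i) ≤ H K x y e := by
    unfold H
    fin_cases i
    · have : ord e.1 (z x y 0) = 0 := e.isOrd.one
      simp only [Fin.zero_eta]
      rw [this]
      simp
    · exact le_trans (le_max_left _ _) (le_max_right _ _)
    · exact le_trans (le_max_right _ _) (le_max_right _ _)
  have h3 : (n : ℤ) * - ord e.1 (z x y i) ≤ n * H K x y e :=
    mul_le_mul_of_nonneg_left h2 (by positivity)
  linarith

/-- values of polynomials of bounded degree over `O` -/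
lemma hom_mem (W : Pl O F) (i : Fin 3) (hi0 : z x y i ≠ 0) (hi : ∀ j, z x y j / z x y i ∈ W.W)
    (P : MvPolynomial (Fin 2) K) (hP : ∀ d, P.coeff d ∈ O) (n : ℕ) (hn : P.totalDegree ≤ n) :
    MvPolynomial.aeval ![x, y] P / z x y i ^ n ∈ W.W := by
  rw [MvPolynomial.aeval_def, MvPolynomial.eval₂_eq', Finset.sum_div]
  refine sum_mem fun d hd => ?_
  have h1 : d 0 + d 1 ≤ n := by
    have h2 := le_trans (MvPolynomial.le_totalDegree hd) hn
    rwa [Finsupp.sum_fintype _ _ (fun _ => rfl), Fin.sum_univ_two] at h2
  obtain ⟨k, hk⟩ := Nat.exists_eq_add_of_le h1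
  have e : algebraMap K F (P.coeff d) * (∏ j, (![x, y] : Fin 2 → F) j ^ d j) / z x y i ^ n =
      algebraMap K F (P.coeff d) * ((z x y 1 / z x y i) ^ d 0 * (z x y 2 / z x y i) ^ d 1 *
        (z x y 0 / z x y i) ^ k) := by
    rw [Fin.prod_univ_two, hk, pow_add, pow_add, div_pow, div_pow, div_pow]
    have z0 : z x y 0 = 1 := rfl
    have z1 : z x y 1 = x := rfl
    have z2 : z x y 2 = y := rfl
    have y0 : (![x, y] : Fin 2 → F) 0 = x := rfl
    have y1 : (![x, y] : Fin 2 → F) 1 = y := rfl
    rw [z0, z1, z2, y0, y1, one_pow]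
    have hz := pow_ne_zero (d 0) hi0
    have hz' := pow_ne_zero (d 1) hi0
    have hz'' := pow_ne_zero k hi0
    field_simp
  rw [e]
  exact mul_mem (W.mem_alg (hP d)) (mul_mem (mul_mem (pow_mem (hi 1) _) (pow_mem (hi 2) _))
    (pow_mem (hi 0) _))

/-- a function which is integral at all components is integral over the Gauss valuation ring of
the plane -/
lemma int_gauss (hO : Arch O) (hS : IsSurf K x y) (c₀ : Comp O x y) (b : F)
    (hb : ∀ c : Comp O x y, b ∈ c.1.W) :
    ((algebraMap (IntermediateField.adjoin K {x, y}) F).comp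
      (c₀.1.W.comap (algebraMap (IntermediateField.adjoin K {x, y}) F)).subtype).IsIntegralElem
        b := by
  classical
  set E := IntermediateField.adjoin K {x, y} with hE
  set G := c₀.1.W.comap (algebraMap E F) with hG
  let s : Set F := {f | f ∈ E ∧ f ∈ c₀.1.W}
  have hb2 : b ∈ (integralClosure (Subring.closure s) F).toSubring := by
    rw [← iInf_valuationSubring_superset, Subring.mem_iInf]
    rintro ⟨V, hV⟩
    simp only
    have hOV : ∀ a ∈ O, algebraMap K F a ∈ V := fun a ha =>
      hV ⟨E.algebraMap_mem a, c₀.1.mem_alg ha⟩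
    have hxE : x ∈ E := IntermediateField.subset_adjoin K _ (Set.mem_insert _ _)
    have hyE : y ∈ E := IntermediateField.subset_adjoin K _ (Set.mem_insert_of_mem _ rfl)
    have hevE : ∀ P : MvPolynomial (Fin 2) O, MvPolynomial.eval₂ (toF O F) ![x, y] P ∈ E := by
      intro P
      rw [MvPolynomial.eval₂_eq']
      refine sum_mem fun d _ => mul_mem (E.algebraMap_mem ((P.coeff d : O) : K)) ?_
      refine prod_mem fun j _ => pow_mem ?_ _
      fin_cases j
      · exact hxE
      · exact hyE
    by_cases hVK : ∀ a : K, algebraMap K F a ∈ V → a ∈ O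
    · obtain ⟨c, hcW, hc⟩ := comp_of (O := O) hS.indep V (fun P Q hQ => by
        have h1 := eval_mem c₀.1 ![x, y] c₀.2.mem P
        have h2 := eval_mem c₀.1 ![x, y] c₀.2.mem Q
        have h3 : c₀.1.res (MvPolynomial.eval₂ (toF O F) ![x, y] Q) ≠ 0 := by
          rw [h2.2]
          intro h
          apply hQ
          have := c₀.2.ind
          rw [AlgebraicIndependent] at this
          exact this (by rw [h, map_zero])
        exact hV ⟨div_mem (hevE P) (hevE Q), c₀.1.div_mem h1.1 h3⟩) (fun c hc => by
        rw [nu_iff]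
        by_cases hc0 : c = 0
        · left
          rw [hc0, map_zero]
        right
        rw [← map_inv₀]
        intro h
        exact nu_inv_not_mem hc hc0 (hVK _ h))
      have := hb ⟨c, hc⟩
      simp only [hcW] at this
      exact this
    · push Not at hVK
      obtain ⟨a, haV, haO⟩ := hVK
      have ha0 : a ≠ 0 := by
        rintro rfl
        exact haO (zero_mem _)
      have hKV : ∀ b' : K, algebraMap K F b' ∈ V := by
        intro b'
        obtain ⟨n, hn⟩ := hO.arch a⁻¹ b' (nu_of_inv haO)
        have e : b' = a ^ n * (a⁻¹ ^ n * b') := by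
          rw [inv_pow, ← mul_assoc, mul_inv_cancel₀ (pow_ne_zero _ ha0), one_mul]
        rw [e, map_mul, map_pow]
        exact mul_mem (pow_mem haV _) (hOV _ hn)
      have hEV : ∀ g : E, algebraMap E F g ∈ V := by
        intro g
        by_cases hg : g = 0
        · rw [hg, map_zero]
          exact zero_mem _
        have hg' : (g : F) ≠ 0 := fun h => hg (by ext; exact h)
        obtain ⟨κ, hκ, h1⟩ := sizeU (O := O) (g : F) g.2 hg'
        have h2 : κ⁻¹ • (g : F) ∈ V := hV ⟨by
          rw [Algebra.smul_def]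
          exact mul_mem (E.algebraMap_mem _) g.2, (h1 c₀.1 c₀.2).1⟩
        have e : algebraMap E F g = algebraMap K F κ * (κ⁻¹ • (g : F)) := by
          rw [Algebra.smul_def, map_inv₀, ← mul_assoc, mul_inv_cancel₀ (by simpa using hκ), one_mul]
          rfl
        rw [e]
        exact mul_mem (hKV κ) h2
      have hfin := hS.fin
      have hbE : (algebraMap E F).IsIntegralElem b :=
        (Algebra.IsIntegral.isIntegral (R := E) b)
      have hbV : IsIntegral V b := by
        have h1 : (V.subtype.comp ((algebraMap E F).codRestrict V.toSubring hEV)).IsIntegralElem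
            b := hbE
        exact RingHom.IsIntegralElem.of_comp h1
      obtain ⟨v, hv⟩ := IsIntegrallyClosed.isIntegral_iff.mp hbV
      rw [← hv]
      exact v.2
  have hsE : ∀ f ∈ Subring.closure s, f ∈ E ∧ f ∈ c₀.1.W := by
    intro f hf
    have h1 : Subring.closure s ≤ E.toSubring ⊓ c₀.1.W.toSubring := by
      rw [Subring.closure_le]
      rintro g ⟨h1, h2⟩
      exact ⟨h1, h2⟩
    exact h1 hf
  let f1 : Subring.closure s →+* G :=
    { toFun := fun f => ⟨⟨f, (hsE f f.2).1⟩, (hsE f f.2).2⟩
      map_one' := rfl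
      map_mul' := fun _ _ => rfl
      map_zero' := rfl
      map_add' := fun _ _ => rfl }
  have h1 : ((((algebraMap E F).comp G.subtype)).comp f1).IsIntegralElem b := hb2
  exact RingHom.IsIntegralElem.of_comp h1

/-- **The maximum principle.** -/
theorem maxpr (hSCQ : Stmt_SCQ) (hO : Arch O) (hS : IsSurf K x y) (n : ℕ) (f : F)
    (hf : f ∈ L K x y (fun e => n * H K x y e)) (hc : ∀ c : Comp O x y, f ∈ c.1.W) :
    IntO O x y n f := by
  classical
  obtain ⟨c₀⟩ := comp_nonempty (O := O) hS
  set E := IntermediateField.adjoin K {x, y} with hE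
  set G := c₀.1.W.comap (algebraMap E F) with hG
  have hfin := hS.fin
  obtain ⟨q, hq1, hq2⟩ := hSCQ K F x y hS n f hf
  set D := (minpoly E f).natDegree with hD
  -- the coefficients of the minimal polynomial
  have hcoef : ∀ m, algebraMap E F ((minpoly E f).coeff m) ∈ c₀.1.W := by
    intro m
    let alg : Algebra G F := ((algebraMap E F).comp G.subtype).toAlgebra
    have : IsScalarTower G E F := IsScalarTower.of_algebraMap_eq (fun _ => rfl)
    have hint : IsIntegral G f := int_gauss hO hS c₀ f hc
    have h1 := minpoly.isIntegrallyClosed_eq_field_fractions' (K := E) hint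
    rw [h1, Polynomial.coeff_map]
    exact ((minpoly G f).coeff m).2
  have hq3 : ∀ j ≤ D, ∀ d, (q j).coeff d ∈ O := by
    intro j hj d
    refine coeff_mem c₀.1 ![x, y] c₀.2.mem c₀.2.ind (q j) ?_ d
    have h1 : MvPolynomial.aeval ![x, y] (q j) = algebraMap E F ((minpoly E f).coeff (D - j)) :=
      (hq2 j hj).symm
    rw [h1]
    exact hcoef _
  intro W
  obtain ⟨i, hi0, hi⟩ := zmax (x := x) (y := y) W.W
  refine ⟨i, ?_⟩
  by_contra hn
  have hzn := pow_ne_zero n hi0
  have hf0 : f ≠ 0 := by
    rintro rfl
    rw [zero_div] at hn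
    exact hn (zero_mem _)
  set β := f / z x y i ^ n with hβ
  have hβ0 : β ≠ 0 := div_ne_zero hf0 hzn
  have hβn := nu_of_inv hn
  -- the equation
  have heq : ∑ m ∈ Finset.range (D + 1), algebraMap E F ((minpoly E f).coeff m) * f ^ m = 0 := by
    have h1 := minpoly.aeval E f
    rw [Polynomial.aeval_eq_sum_range] at h1
    rw [← h1]
    refine Finset.sum_congr rfl fun m _ => ?_
    rw [Algebra.smul_def]
  have hmon : (minpoly E f).coeff D = 1 :=
    (minpoly.monic (Algebra.IsIntegral.isIntegral f)).coeff_natDegree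
  rw [Finset.sum_range_succ, hmon, map_one, one_mul] at heq
  have hone : (1 : F) = -∑ m ∈ Finset.range D,
      algebraMap E F ((minpoly E f).coeff m) / z x y i ^ (n * (D - m)) * β⁻¹ ^ (D - m) := by
    have h1 : ∀ m ∈ Finset.range D,
        algebraMap E F ((minpoly E f).coeff m) / z x y i ^ (n * (D - m)) * β⁻¹ ^ (D - m) =
        algebraMap E F ((minpoly E f).coeff m) * f ^ m / f ^ D := by
      intro m hm
      have h2 : m < D := Finset.mem_range.mp hm
      have h3 : f ^ D = f ^ m * f ^ (D - m) := by
        rw [← pow_add]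
        congr 1
        omega
      rw [h3, hβ, inv_div, div_pow, ← pow_mul]
      have hfm := pow_ne_zero m hf0
      have hfm' := pow_ne_zero (D - m) hf0
      have hz' := pow_ne_zero (n * (D - m)) hi0
      field_simp
    rw [Finset.sum_congr rfl h1, ← Finset.sum_div]
    have hfD := pow_ne_zero D hf0
    field_simp
    linear_combination heq
  have hnon : ∀ S : Finset ℕ, (∀ m ∈ S, m < D) → ∑ m ∈ S,
      algebraMap E F ((minpoly E f).coeff m) / z x y i ^ (n * (D - m)) * β⁻¹ ^ (D - m) ∈
        W.W.nonunits := by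
    intro S
    induction S using Finset.induction_on with
    | empty =>
      intro _
      rw [Finset.sum_empty]
      exact nu_zero
    | insert m S hm ih =>
      intro hS'
      rw [Finset.sum_insert hm]
      refine nu_add ?_ (ih fun k hk => hS' k (Finset.mem_insert_of_mem hk))
      have h2 := hS' m (Finset.mem_insert_self _ _)
      have h3 : algebraMap E F ((minpoly E f).coeff m) =
          MvPolynomial.aeval ![x, y] (q (D - m)) := by
        rw [← hq2 (D - m) (Nat.sub_le _ _)]
        have : D - (D - m) = m := by omega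
        rw [this]
        rfl
      rw [h3]
      refine nu_mul (hom_mem W i hi0 hi _ (hq3 _ (Nat.sub_le _ _)) _ (hq1 _)) ?_
      obtain ⟨k, hk⟩ := Nat.exists_eq_add_of_lt h2
      have h4 : D - m = k + 1 := by omega
      rw [h4, pow_succ]
      exact nu_mul (pow_mem (nu_mem hβn) _) hβn
  have h1 := nu_neg (hnon (Finset.range D) fun m hm => Finset.mem_range.mp hm)
  rw [← hone] at h1
  exact one_not_nu h1

end Pool.Agent.EN2
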