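import Pool.Agent.EN2.Basic

/-!
# Leading coefficients of functions on a pencil are algebraic
-/

set_option autoImplicit false

noncomputable section

namespace Pool.Agent.EN2

open IsLocalRing Pool.Agent.ClaimF Polynomial

variable {K : Type} [Field K] {O : ValuationSubring K} {F : Type} [Field F] [Algebra K F]

/-- evaluation of polynomials in two variables -/
def ev {A B : Type} [CommRing A] [CommRing B] (i : A →+* B) (u y : B) : (A[X])[X] →+* B :=
  Polynomial.eval₂RingHom (Polynomial.eval₂RingHom i u) y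

lemma ev_comp {A B B' : Type} [CommRing A] [CommRing B] [CommRing B'] (i : A →+* B) (u y : B)
    (φ : B →+* B') (χ : (A[X])[X]) : φ (ev i u y χ) = ev (φ.comp i) (φ u) (φ y) χ := by
  have h : φ.comp (ev i u y) = ev (φ.comp i) (φ u) (φ y) := by
    apply Polynomial.ringHom_ext
    · intro a
      simp [ev, Polynomial.hom_eval₂]
    · simp [ev]
  exact congrArg (fun f => f χ) h

lemma ev_map {A A' B : Type} [CommRing A] [CommRing A'] [CommRing B] (i : A →+* B) (u y : B)
    (j : A' →+* A) (χ : (A'[X])[X]) :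
    ev i u y (χ.map (Polynomial.mapRingHom j)) = ev (i.comp j) u y χ := by
  simp only [ev, Polynomial.coe_eval₂RingHom, Polynomial.eval₂_map]
  congr 1
  apply Polynomial.ringHom_ext
  · intro a
    simp
  · simp

lemma ev_zero_right {A B : Type} [CommRing A] [CommRing B] (i : A →+* B) (u : B) (χ : (A[X])[X]) :
    ev i u 0 χ = (χ.coeff 0).eval₂ i u := by
  simp [ev, Polynomial.eval₂_at_zero]

/-- the homomorphism `O → F` -/
def toF (O : ValuationSubring K) (F : Type) [Field F] [Algebra K F] : O →+* F :=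
  (algebraMap K F).comp O.subtype

lemma ev_mem (c : Pl O F) {u y : F} (hu : u ∈ c.W) (hy : y ∈ c.W) (χ : (O[X])[X]) :
    ev (toF O F) u y χ ∈ c.W ∧ c.res (ev (toF O F) u y χ) =
      ev (algebraMap (ResidueField O) (ResidueField c.W)) (c.res u) (c.res y)
        (χ.map (Polynomial.mapRingHom (residue O))) := by
  have h1 : ev (toF O F) u y χ = c.W.subtype (ev c.inc ⟨u, hu⟩ ⟨y, hy⟩ χ) := by
    rw [ev_comp]
    rfl
  have h2 : ev (toF O F) u y χ ∈ c.W := by
    rw [h1]
    exact (ev c.inc ⟨u, hu⟩ ⟨y, hy⟩ χ).2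
  refine ⟨h2, ?_⟩
  rw [ev_map, c.res_of_mem h2, c.res_of_mem hu, c.res_of_mem hy]
  have h3 : (⟨ev (toF O F) u y χ, h2⟩ : c.W) = ev c.inc ⟨u, hu⟩ ⟨y, hy⟩ χ := by
    ext
    exact h1
  rw [h3, ev_comp]
  rfl

lemma ev_mem_alg (R : Subalgebra K F) {u y : F} (hu : u ∈ R) (hy : y ∈ R) (χ : (O[X])[X]) :
    ev (toF O F) u y χ ∈ R := by
  have h1 : ev (toF O F) u y χ = R.val.toRingHom
      (ev ((algebraMap K R).comp O.subtype) ⟨u, hu⟩ ⟨y, hy⟩ χ) := by
    rw [ev_comp]
    rfl
  rw [h1]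
  exact (ev ((algebraMap K R).comp O.subtype) ⟨u, hu⟩ ⟨y, hy⟩ χ).2

/-- a polynomial relation with nonzero constant term -/
lemma exists_rel {k Ω : Type} [Field k] [Field Ω] [Algebra k Ω] {x ρ : Ω} (h : AO k x ρ)
    (h0 : ρ ≠ 0) : ∃ χ : (k[X])[X], χ.coeff 0 ≠ 0 ∧ ev (algebraMap k Ω) x ρ χ = 0 := by
  rw [AO, IntermediateField.isAlgebraic_adjoin_iff] at h
  obtain ⟨P, hP0, hP⟩ := h.exists_nonzero_coeff_and_aeval_eq_zero
    (mem_nonZeroDivisors_of_ne_zero h0)
  let φ : k[X] →+* Algebra.adjoin k {x} :=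
    ((Polynomial.aeval (R := k) x).codRestrict (Algebra.adjoin k {x}) (fun q => by
      rw [Algebra.adjoin_singleton_eq_range_aeval]
      exact ⟨q, rfl⟩)).toRingHom
  have hφ : Function.Surjective φ := by
    rintro ⟨b, hb⟩
    have hb' := hb
    rw [Algebra.adjoin_singleton_eq_range_aeval] at hb'
    obtain ⟨q, hq⟩ := hb'
    exact ⟨q, by ext; exact hq⟩
  obtain ⟨χ, hχ⟩ := Polynomial.map_surjective φ hφ P
  refine ⟨χ, ?_, ?_⟩
  · intro h2
    apply hP0
    rw [← hχ, Polynomial.coeff_map, h2, map_zero]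
  · rw [← hχ, Polynomial.aeval_def, Polynomial.eval₂_map] at hP
    rw [← hP]
    show Polynomial.eval₂ _ _ _ = _
    congr 1

lemma lift_rel (χ : ((ResidueField O)[X])[X]) :
    ∃ ψ : (O[X])[X], ψ.map (Polynomial.mapRingHom (residue O)) = χ :=
  Polynomial.map_surjective _ (Polynomial.map_surjective _ residue_surjective) χ

section

variable {C : Type} {P : C → Pl O F}

/-- the value of `ε(u)` in the residue field -/
lemma eps_ne (Q : Pen P) (c : C) (j : Q.J) {ε : (ResidueField O)[X]} (h : ε ≠ 0) :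
    ε.eval₂ (algebraMap _ _) ((P c).res (Q.u j)) ≠ 0 := by
  intro h2
  exact Q.u_tr c j ⟨ε, h, h2⟩

/-- the data used to kill the large values at a place `a` -/
structure Kill (Q : Pen P) (f : Q.J → F) (κ : K) (a : C) where
  κ' : K
  ne : κ' ≠ 0
  big : κ'⁻¹ * κ ∈ O.nonunits
  mem : ∀ j, κ'⁻¹ • f j ∈ (P a).W
  ψ : (O[X])[X]
  coeff : (ψ.map (Polynomial.mapRingHom (residue O))).coeff 0 ≠ 0
  rel : ∀ j, ev (toF O F) (Q.u j) (κ'⁻¹ • f j) ψ ∈ (P a).W.nonunits

open Classical in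
lemma peel_aux (hO : Arch O) (Q : Pen P) (f : Q.J → F) (hf : ∀ j, f j ∈ Q.R j) (κ : K)
    (hκ : κ ≠ 0) (c : C) (hc : ∀ j, κ⁻¹ • f j ∈ (P c).W)
    (B : Set C) (hB : ∀ a, a ∉ B → ∀ j, κ⁻¹ • f j ∈ (P a).W)
    (kill : ∀ a ∈ B, Kill Q f κ a) (s : Finset C)
    (hs : ∀ a ∈ s, a ∈ B) (hvg : VG P) :
    ∃ G : Q.J → F, (∀ j, G j ∈ Q.R j) ∧ (∀ a, a ∉ B → ∀ j, G j ∈ (P a).W) ∧
      (∃ ε : (ResidueField O)[X], ε ≠ 0 ∧
        ∀ j, (P c).res (G j) = ε.eval₂ (algebraMap _ _) ((P c).res (Q.u j))) ∧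
      (∀ j, G j ∈ (P c).W) ∧
      ∀ a ∈ s, ∀ j, κ⁻¹ • (G j * f j) ∈ (P a).W := by
  induction s using Finset.induction_on_max_value
    (f := fun a => if h : a ∈ B then O.valuation (kill a h).κ' else 0) with
  | empty =>
    refine ⟨fun _ => 1, fun j => one_mem _, fun a _ j => one_mem _, ⟨1, one_ne_zero, fun j => ?_⟩,
      fun j => one_mem _, fun a ha => absurd ha (by simp)⟩
    rw [Polynomial.eval₂_one, Pl.res_one]
  | insert a s has hmax ih =>
    obtain ⟨G, hG1, hG2, ⟨ε, hε, hG3⟩, hG4, hG5⟩ := ih fun b hb => hs b (Finset.mem_insert_of_mem hb)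
    have haB : a ∈ B := hs a (Finset.mem_insert_self _ _)
    set D := kill a haB with hD
    let g : Q.J → F := fun j => ev (toF O F) (Q.u j) (D.κ'⁻¹ • f j) D.ψ
    have hgR : ∀ j, g j ∈ Q.R j := fun j =>
      ev_mem_alg (Q.R j) (Q.u_mem j) ((Q.R j).smul_mem (hf j) _) _
    have hsmall : ∀ b, (∀ j, κ⁻¹ • f j ∈ (P b).W) → ∀ j, D.κ'⁻¹ • f j ∈ (P b).W.nonunits :=
      fun b hb j => size_lt (P b) hκ D.big (hb j)
    have hgB : ∀ b, b ∉ B → ∀ j, g j ∈ (P b).W := fun b hb j =>
      (ev_mem (P b) (Q.u_int b j) ((P b).mem_of_nonunit (hsmall b (hB b hb) j)) _).1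
    have hgc : ∀ j, g j ∈ (P c).W ∧ (P c).res (g j) =
        ((D.ψ.map (Polynomial.mapRingHom (residue O))).coeff 0).eval₂ (algebraMap _ _)
          ((P c).res (Q.u j)) := by
      intro j
      have h1 := ev_mem (P c) (Q.u_int c j) ((P c).mem_of_nonunit (hsmall c hc j)) D.ψ
      refine ⟨h1.1, ?_⟩
      rw [← ev_zero_right]
      rw [(P c).res_nonunit (hsmall c hc j)] at h1
      exact h1.2
    -- the exponent
    have hpow : ∀ j, ∃ n : ℕ, ∀ m, n ≤ m → g j ^ m * (κ⁻¹ • (G j * f j)) ∈ (P a).W := by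
      intro j
      by_cases h0 : κ⁻¹ • (G j * f j) = 0
      · exact ⟨0, fun m _ => by rw [h0, mul_zero]; exact zero_mem _⟩
      by_cases hg0 : g j = 0
      · refine ⟨1, fun m hm => ?_⟩
        rw [hg0, zero_pow (by omega), zero_mul]
        exact zero_mem _
      obtain ⟨γ, hγ0, hγ1, hγ2⟩ := hvg a (g j) hg0
      obtain ⟨η, hη0, hη1, hη2⟩ := hvg a _ h0
      have hγn : γ ∈ O.nonunits := by
        rw [← (P a).alg_nonunit]
        have h1 : algebraMap K F γ = g j * (γ⁻¹ • g j)⁻¹ := by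
          rw [Algebra.smul_def, map_inv₀, mul_inv, inv_inv]
          field_simp
        rw [h1, mul_comm]
        exact (P a).nonunit_mul ((P a).inv_mem hγ2) (D.rel j)
      obtain ⟨n, hn⟩ := hO.arch γ η hγn
      refine ⟨n, fun m hm => ?_⟩
      have h2 : g j ^ m * (κ⁻¹ • (G j * f j)) =
          algebraMap K F (γ ^ m * η) * ((γ⁻¹ • g j) ^ m * (η⁻¹ • κ⁻¹ • (G j * f j))) := by
        simp only [Algebra.smul_def, map_mul, map_pow, map_inv₀, mul_pow, inv_pow]
        have hγ' : algebraMap K F γ ≠ 0 := by simpa using hγ0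
        have hη' : algebraMap K F η ≠ 0 := by simpa using hη0
        field_simp
      rw [h2]
      refine mul_mem ((P a).mem_alg ?_) (mul_mem (pow_mem hγ1 m) hη1)
      obtain ⟨l, rfl⟩ := Nat.exists_eq_add_of_le hm
      rw [pow_add]
      have : γ ^ n * γ ^ l * η = γ ^ l * (γ ^ n * η) := by ring
      rw [this]
      exact mul_mem (pow_mem (nonunit_mem hγn) l) hn
    choose nf hnf using hpow
    obtain ⟨N, hN⟩ : ∃ N : ℕ, ∀ j, nf j ≤ N := by
      have := Q.fin
      obtain ⟨M, hM⟩ := (Set.finite_range nf).bddAbove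
      exact ⟨M, fun j => hM ⟨j, rfl⟩⟩
    refine ⟨fun j => G j * g j ^ N, fun j => mul_mem (hG1 j) (pow_mem (hgR j) N),
      fun b hb j => mul_mem (hG2 b hb j) (pow_mem (hgB b hb j) N),
      ⟨ε * ((D.ψ.map (Polynomial.mapRingHom (residue O))).coeff 0) ^ N,
        mul_ne_zero hε (pow_ne_zero _ D.coeff), fun j => ?_⟩,
      fun j => mul_mem (hG4 j) (pow_mem (hgc j).1 N), ?_⟩
    · rw [(P c).res_mul (hG4 j) (pow_mem (hgc j).1 N), (P c).res_pow (hgc j).1, (hgc j).2, hG3 j,
        Polynomial.eval₂_mul, Polynomial.eval₂_pow]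
    · intro b hb j
      rw [Finset.mem_insert] at hb
      rcases hb with rfl | hb
      · have h3 := hnf j N (hN j)
        have h4 : κ⁻¹ • (G j * g j ^ N * f j) = g j ^ N * (κ⁻¹ • (G j * f j)) := by
          simp only [Algebra.smul_def]
          ring
        rw [h4]
        exact h3
      · have hbB : b ∈ B := hs b (Finset.mem_insert_of_mem hb)
        have h5 := hmax b hb
        rw [dif_pos hbB, dif_pos haB] at h5
        have h6 : D.κ'⁻¹ * (kill b hbB).κ' ∈ O := by
          rw [← O.valuation_le_one_iff, map_mul, map_inv₀]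
          have h7 : O.valuation D.κ' ≠ 0 := (Valuation.ne_zero_iff _).mpr D.ne
          rw [mul_comm, ← div_eq_mul_inv]
          exact div_le_one_of_le₀ h5 zero_le
        have h8 : ∀ j, D.κ'⁻¹ • f j ∈ (P b).W := fun j =>
          size_trans (P b) (kill b hbB).ne h6 ((kill b hbB).mem j)
        have h9 : g j ∈ (P b).W := (ev_mem (P b) (Q.u_int b j) (h8 j) _).1
        have h4 : κ⁻¹ • (G j * g j ^ N * f j) = g j ^ N * (κ⁻¹ • (G j * f j)) := by
          simp only [Algebra.smul_def]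
          ring
        rw [h4]
        exact mul_mem (pow_mem h9 N) (hG5 b hb j)

/-- **Peeling**: on every place, the leading coefficient of a function of the pencil is algebraic
over the field of the parameter. -/
theorem peel [Finite C] (hO : Arch O) (hvg : VG P) (Q : Pen P) (f : Q.J → F)
    (hf : ∀ j, f j ∈ Q.R j) : ∀ (κ : K), κ ≠ 0 →
    (∀ a j j', κ⁻¹ • (f j - f j') ∈ (P a).W.nonunits) → ∀ c, (∀ j, κ⁻¹ • f j ∈ (P c).W) →
    ∀ j, AO (ResidueField O) ((P c).res (Q.u j)) ((P c).res (κ⁻¹ • f j)) := by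
  classical
  have hfin : Fintype C := Fintype.ofFinite C
  intro κ
  induction hn : (Finset.univ.filter fun a : C => ∃ j, κ⁻¹ • f j ∉ (P a).W).card using
    Nat.strong_induction_on generalizing κ with
  | _ n ih =>
    intro hκ hcoh c hc j₀
    set B : Set C := {a | ∃ j, κ⁻¹ • f j ∉ (P a).W} with hBdef
    have hB : ∀ a, a ∉ B → ∀ j, κ⁻¹ • f j ∈ (P a).W := by
      intro a ha j
      by_contra h
      exact ha ⟨j, h⟩
    have hkill : ∀ a ∈ B, Nonempty (Kill Q f κ a) := by
      intro a ha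
      obtain ⟨j₁, hj₁⟩ := ha
      have hall : ∀ j, κ⁻¹ • f j ∉ (P a).W := by
        intro j hj
        apply hj₁
        have h1 : κ⁻¹ • f j₁ = κ⁻¹ • (f j₁ - f j) + κ⁻¹ • f j := by
          rw [smul_sub]
          ring
        rw [h1]
        exact add_mem ((P a).mem_of_nonunit (hcoh a j₁ j)) hj
      have hf0 : f j₁ ≠ 0 := by
        intro h
        apply hj₁
        rw [h, smul_zero]
        exact zero_mem _
      obtain ⟨κ', hκ'0, hκ'1, hκ'2⟩ := hvg a (f j₁) hf0
      have hbig : κ'⁻¹ * κ ∈ O.nonunits := size_cmp (P a) hκ hj₁ hκ'0 hκ'1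
      have hcoh' : ∀ b j j', κ'⁻¹ • (f j - f j') ∈ (P b).W.nonunits := fun b j j' =>
        size_lt (P b) hκ hbig ((P b).mem_of_nonunit (hcoh b j j'))
      have hmem : ∀ j, κ'⁻¹ • f j ∈ (P a).W := by
        intro j
        have h1 : κ'⁻¹ • f j = κ'⁻¹ • (f j - f j₁) + κ'⁻¹ • f j₁ := by
          rw [smul_sub]
          ring
        rw [h1]
        exact add_mem ((P a).mem_of_nonunit (hcoh' a j j₁)) hκ'1
      have hres : ∀ j, (P a).res (κ'⁻¹ • f j) = (P a).res (κ'⁻¹ • f j₁) := by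
        intro j
        have h1 : κ'⁻¹ • f j = κ'⁻¹ • (f j - f j₁) + κ'⁻¹ • f j₁ := by
          rw [smul_sub]
          ring
        rw [h1, (P a).res_add ((P a).mem_of_nonunit (hcoh' a j j₁)) hκ'1,
          (P a).res_nonunit (hcoh' a j j₁), zero_add]
      have hlt : (Finset.univ.filter fun b : C => ∃ j, κ'⁻¹ • f j ∉ (P b).W).card < n := by
        rw [← hn]
        apply Finset.card_lt_card
        rw [Finset.ssubset_iff_of_subset]
        · refine ⟨a, ?_, ?_⟩
          · simp only [Finset.mem_filter, Finset.mem_univ, true_and]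
            exact ⟨j₁, hj₁⟩
          · simp only [Finset.mem_filter, Finset.mem_univ, true_and, not_exists, not_not]
            exact hmem
        · intro b hb
          simp only [Finset.mem_filter, Finset.mem_univ, true_and] at hb ⊢
          obtain ⟨j, hj⟩ := hb
          refine ⟨j, fun h => hj ?_⟩
          exact (P b).mem_of_nonunit (size_lt (P b) hκ hbig h)
      have h2 := ih _ hlt κ' rfl hκ'0 hcoh' a hmem j₁
      obtain ⟨χ, hχ0, hχ⟩ := exists_rel h2 hκ'2
      obtain ⟨ψ, hψ⟩ := lift_rel χ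
      refine ⟨κ', hκ'0, hbig, hmem, ψ, by rw [hψ]; exact hχ0, fun j => ?_⟩
      have h3 := ev_mem (P a) (Q.u_int a j) (hmem j) ψ
      rw [(P a).nonunits_iff]
      refine ⟨h3.1, ?_⟩
      rw [h3.2, hψ, Q.u_res a j j₁, hres j]
      exact hχ
    have hkill' : ∀ a ∈ B, Kill Q f κ a := fun a ha => (hkill a ha).some
    obtain ⟨G, hG1, hG2, ⟨ε, hε, hG3⟩, hG4, hG5⟩ := peel_aux hO Q f hf κ hκ c hc B hB hkill'
      (Finset.univ.filter fun a : C => a ∈ B) (by simp) hvg
    have hGall : ∀ a j, κ⁻¹ • (G j * f j) ∈ (P a).W := by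
      intro a j
      by_cases ha : a ∈ B
      · exact hG5 a (by simpa using ha) j
      · have h1 : κ⁻¹ • (G j * f j) = G j * (κ⁻¹ • f j) := by
          simp only [Algebra.smul_def]
          ring
        rw [h1]
        exact mul_mem (hG2 a ha j) (hB a ha j)
    rw [AO]
    apply algebraic_of_valuations
    intro V hV
    have hVE : ∀ j, ∀ e ∈ IntermediateField.adjoin (ResidueField O) {(P c).res (Q.u j)},
        e ∈ V := by
      intro j e he
      rw [Q.u_res c j j₀] at he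
      exact hV ⟨e, he⟩
    obtain ⟨j, hj⟩ := Q.key c V hVE
    have h1 := hj (κ⁻¹ • (G j * f j)) ((Q.R j).smul_mem (mul_mem (hG1 j) (hf j)) _)
      fun a => hGall a j
    have h2 : κ⁻¹ • (G j * f j) = G j * (κ⁻¹ • f j) := by
      simp only [Algebra.smul_def]
      ring
    rw [h2, (P c).res_mul (hG4 j) (hc j), hG3 j] at h1
    have h3 : ε.eval₂ (algebraMap _ _) ((P c).res (Q.u j)) ≠ 0 := eps_ne Q c j hε
    have h4 : (ε.eval₂ (algebraMap _ _) ((P c).res (Q.u j)))⁻¹ ∈
        IntermediateField.adjoin (ResidueField O) {(P c).res (Q.u j)} := by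
      apply inv_mem
      have h5 : ε.eval₂ (algebraMap _ _) ((P c).res (Q.u j)) =
          Polynomial.aeval ((P c).res (Q.u j)) ε := rfl
      rw [h5]
      exact IntermediateField.algebra_adjoin_le_adjoin _ _
        (by
          rw [Algebra.adjoin_singleton_eq_range_aeval]
          exact ⟨ε, rfl⟩)
    have h6 := V.mul_mem _ _ (hVE j _ h4) h1
    rw [← mul_assoc, inv_mul_cancel₀ h3, one_mul] at h6
    have h7 : (P c).res (κ⁻¹ • f j₀) = (P c).res (κ⁻¹ • f j) := by
      have h1 : κ⁻¹ • f j₀ = κ⁻¹ • (f j₀ - f j) + κ⁻¹ • f j := by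
        rw [smul_sub]
        ring
      rw [h1, (P c).res_add ((P c).mem_of_nonunit (hcoh c j₀ j)) (hc j),
        (P c).res_nonunit (hcoh c j₀ j), zero_add]
    rw [h7]
    exact h6

end

end Pool.Agent.EN2
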