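import Pool.Agent.XV.Stmts
import Pool.Agent.EN2.Defs

/-!
# Solutions of the integral equations at the generic point, matchings
-/

set_option autoImplicit false

noncomputable section

namespace Pool.Agent.EN2

open Pool.Agent.XV MvPolynomial Pool.Agent.ClaimF

/-- `k`, `l` is a perfect matching of the four points different from `q`. -/
def Mt (q : Fin 5) (k l : Fin 10) : Prop := Disj k l ∧ eS k ≠ q ∧ eT k ≠ q ∧ eS l ≠ q ∧ eT l ≠ q

instance (q : Fin 5) (k l : Fin 10) : Decidable (Mt q k l) := by unfold Mt; infer_instance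

lemma mt_pe (π : Equiv.Perm (Fin 5)) {q : Fin 5} {k l : Fin 10} (h : Mt q k l) :
    Mt (π q) (pe π k) (pe π l) := by
  obtain ⟨h0, h1, h2, h3, h4⟩ := h
  have a := (pe_end π k q).not.mpr (by rw [not_or]; exact ⟨h1, h2⟩)
  have b := (pe_end π l q).not.mpr (by rw [not_or]; exact ⟨h3, h4⟩)
  rw [not_or] at a b
  exact ⟨disj_pe π k l h0, a.1, a.2, b.1, b.2⟩

lemma table_mt : ∀ q : Fin 5, ∃ n : Fin 10, (n = 0 ∨ ∃ j, n = tU j) ∧ ∃ k l : Fin 10,
    Mt q k l ∧ 1 ≤ te 0 n k ∧ 1 ≤ te 0 n l := by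
  decide +kernel

lemma mt_deg : ∀ (q : Fin 5) (k l : Fin 10), Mt q k l → ∀ i : Fin 5,
    mdeg (ind k) i + mdeg (ind l) i = if i = q then 0 else 1 := by
  decide +kernel

lemma mdeg_add (e f : Fin 10 → ℕ) (i : Fin 5) :
    mdeg (fun n => e n + f n) i = mdeg e i + mdeg f i := by
  unfold mdeg
  rw [← Finset.sum_add_distrib]
  refine Finset.sum_congr rfl fun k _ => ?_
  split_ifs <;> simp

/-- the common parts of the coordinates of a pencil -/
def Cm (q : Fin 5) : Type := {e : Fin 10 → ℕ // ∀ i, mdeg e i = if i = q then 4 else 3}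

/-- the point with the edges `k`, `l` added -/
def pte {q : Fin 5} (e : Cm q) (k l : Fin 10) (h : Mt q k l) : Pt where
  w := 0
  e n := e.1 n + ind k n + ind l n
  adm :=
    { deg := by
        intro i
        have h1 : mdeg (fun n => e.1 n + ind k n + ind l n) i =
            mdeg e.1 i + (mdeg (ind k) i + mdeg (ind l) i) := by
          rw [mdeg_add (fun n => e.1 n + ind k n) (ind l), mdeg_add]
          ring
        rw [h1, mt_deg q k l h i, e.2 i]
        split_ifs <;> rfl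
      top := by omega
      one := fun _ => by omega
      two := fun _ => by omega
      dbl := fun _ _ _ => by omega }

instance (q : Fin 5) : Finite (Cm q) := by
  obtain ⟨n, -, k, l, h, -⟩ := table_mt q
  refine Finite.of_injective (fun e : Cm q => pte e k l h) ?_
  intro e f hef
  have h1 : (pte e k l h).e = (pte f k l h).e := congrArg Pt.e hef
  apply Subtype.ext
  funext n
  have h2 := congrFun h1 n
  simp only [pte] at h2
  omega

/-- the common part of a point which contains a matching -/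
lemma exists_cm {q : Fin 5} {k l : Fin 10} (h : Mt q k l) (c : Pt) (hw : c.w = 0)
    (hk : 1 ≤ c.e k) (hl : 1 ≤ c.e l) : ∃ e : Cm q, pte e k l h = c := by
  have hkl : k ≠ l := by
    rintro rfl
    exact h.1.1 rfl
  have h1 : ∀ n, c.e n = c.e n - ind k n - ind l n + ind k n + ind l n := by
    intro n
    unfold ind
    by_cases h2 : n = k
    · have h3 : n ≠ l := by
        rintro rfl
        exact hkl h2.symm
      rw [if_pos h2, if_neg h3, h2]
      omega
    · by_cases h3 : n = l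
      · rw [if_neg h2, if_pos h3, h3]
        omega
      · rw [if_neg h2, if_neg h3]
        omega
  have h2 : ∀ i, mdeg (fun n => c.e n - ind k n - ind l n) i = if i = q then 4 else 3 := by
    intro i
    have h3 : mdeg c.e i = mdeg (fun n => c.e n - ind k n - ind l n) i +
        (mdeg (ind k) i + mdeg (ind l) i) := by
      have h4 : c.e = fun n => (c.e n - ind k n - ind l n) + ind k n + ind l n := funext h1
      conv_lhs => rw [h4]
      rw [mdeg_add (fun n => c.e n - ind k n - ind l n + ind k n) (ind l),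
        mdeg_add (fun n => c.e n - ind k n - ind l n) (ind k)]
      ring
    rw [mt_deg q k l h i, c.adm.deg i, hw] at h3
    split_ifs at h3 ⊢ <;> omega
  refine ⟨⟨_, h2⟩, ?_⟩
  ext n
  · exact hw.symm
  · exact (h1 n).symm

lemma act_inv (π : Equiv.Perm (Fin 5)) (c : Pt) : act π (act π⁻¹ c) = c := by
  ext n
  · rfl
  · show c.e (pe π⁻¹⁻¹ (pe π⁻¹ n)) = c.e n
    rw [← pe_mul, inv_inv, mul_inv_cancel, pe_one]

lemma tw_pos : ∀ σ : Fin 6, σ ≠ 0 → 1 ≤ tw σ 0 := by decide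

lemma tw_zero : tw 0 0 = 0 ∧ ∀ j : Fin 3, tw 0 (tU j) = 0 := by decide

section sol

variable {L : Type} [Field L]

/-- solutions in the special fibre of the tube: the chart of the covering lemma is a chart of the
surface -/
lemma chart_zero (hCov : Stmt_Cov) (s : Pt → L) (hs : IsSol s) (hw : ∀ c, 1 ≤ c.w → s c = 0)
    (h0 : ∃ c, s c ≠ 0) : ∃ π : Equiv.Perm (Fin 5),
      tws π s (tp 0 0) ≠ 0 ∧ ∀ j, tws π s (tp 0 (tU j)) ≠ 0 := by
  obtain ⟨π, σ, h1, h2⟩ := hCov L s hs h0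
  have hσ : σ = 0 := by
    by_contra hσ
    apply h1
    have h3 : 1 ≤ (act π (tp σ 0)).w := tw_pos σ hσ
    unfold tws
    rw [hw _ h3, mul_zero]
  subst hσ
  exact ⟨π, h1, h2⟩

lemma tws_ne {π : Equiv.Perm (Fin 5)} {s : Pt → L} {c : Pt} (h : tws π s c ≠ 0) :
    s (act π c) ≠ 0 := by
  intro h0
  apply h
  unfold tws
  rw [h0, mul_zero]

/-- **The base locus of a pencil is empty.** -/
lemma exists_edge (hCov : Stmt_Cov) (s : Pt → L) (hs : IsSol s) (hw : ∀ c, 1 ≤ c.w → s c = 0)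
    (h0 : ∃ c, s c ≠ 0) (q : Fin 5) :
    ∃ (k l : Fin 10) (h : Mt q k l) (e : Cm q), s (pte e k l h) ≠ 0 := by
  obtain ⟨π, h1, h2⟩ := chart_zero hCov s hs hw h0
  obtain ⟨n, hn, k, l, hkl, hk, hl⟩ := table_mt (π⁻¹ q)
  have hc : s (act π (tp 0 n)) ≠ 0 := by
    rcases hn with rfl | ⟨j, rfl⟩
    · exact tws_ne h1
    · exact tws_ne (h2 j)
  have hM : Mt q (pe π k) (pe π l) := by
    have := mt_pe π hkl
    have e : π (π⁻¹ q) = q := π.apply_symm_apply q
    rwa [e] at this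
  have hw0 : (act π (tp 0 n)).w = 0 := by
    show tw 0 n = 0
    rcases hn with rfl | ⟨j, rfl⟩
    · exact tw_zero.1
    · exact tw_zero.2 j
  obtain ⟨e, he⟩ := exists_cm hM (act π (tp 0 n)) hw0 (by rw [act_e]; exact hk)
    (by rw [act_e]; exact hl)
  exact ⟨_, _, hM, e, by rw [he]; exact hc⟩

/-- the ordered four points -/
def q4 : Fin 5 → Fin 4 → Fin 5 :=
  ![![1, 2, 3, 4], ![0, 2, 3, 4], ![0, 1, 3, 4], ![0, 1, 2, 4], ![0, 1, 2, 3]]

lemma q4_lt : ∀ q, q4 q 0 < q4 q 1 ∧ q4 q 1 < q4 q 2 ∧ q4 q 2 < q4 q 3 := by decide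

/-- the three matchings of the four points -/
def mk (q : Fin 5) (a : Fin 3) : Fin 10 × Fin 10 :=
  (![(ed (q4 q 0) (q4 q 1), ed (q4 q 2) (q4 q 3)), (ed (q4 q 0) (q4 q 2), ed (q4 q 1) (q4 q 3)),
    (ed (q4 q 0) (q4 q 3), ed (q4 q 1) (q4 q 2))] : Fin 3 → Fin 10 × Fin 10) a

lemma mk_mt : ∀ q a, Mt q (mk q a).1 (mk q a).2 := by decide

lemma mk_all : ∀ q k l, Mt q k l → ∃ a, (k = (mk q a).1 ∧ l = (mk q a).2) ∨
    (l = (mk q a).1 ∧ k = (mk q a).2) := by decide +kernel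

lemma pte_swap {q : Fin 5} (e : Cm q) (k l : Fin 10) (h : Mt q k l) (h' : Mt q l k) :
    pte e k l h = pte e l k h' := by
  ext n
  · rfl
  · show e.1 n + ind k n + ind l n = e.1 n + ind l n + ind k n
    omega

/-- the point with the `a`-th matching -/
def ptm {q : Fin 5} (e : Cm q) (a : Fin 3) : Pt := pte e (mk q a).1 (mk q a).2 (mk_mt q a)

lemma ptm_w {q : Fin 5} (e : Cm q) (a : Fin 3) : (ptm e a).w = 0 := rfl

lemma ptm_e {q : Fin 5} (e : Cm q) (a : Fin 3) (n : Fin 10) :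
    (ptm e a).e n = e.1 n + ind (mk q a).1 n + ind (mk q a).2 n := rfl

/-- **The base locus of a pencil is empty.** -/
lemma exists_ptm (hCov : Stmt_Cov) (s : Pt → L) (hs : IsSol s) (hw : ∀ c, 1 ≤ c.w → s c = 0)
    (h0 : ∃ c, s c ≠ 0) (q : Fin 5) : ∃ (e : Cm q) (a : Fin 3), s (ptm e a) ≠ 0 := by
  obtain ⟨k, l, h, e, hne⟩ := exists_edge hCov s hs hw h0 q
  obtain ⟨a, ha⟩ := mk_all q k l h
  refine ⟨e, a, ?_⟩
  rcases ha with ⟨rfl, rfl⟩ | ⟨rfl, rfl⟩
  · exact hne
  · rw [pte_swap e _ _ h (mk_mt q a)] at hne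
    exact hne

lemma plucker (hTri : Stmt_Tri) {B : Type} [CommRing B] (s : Pt → B) (hs : IsSol s) {q : Fin 5}
    (e : Cm q) : s (ptm e 1) = s (ptm e 0) + s (ptm e 2) := by
  obtain ⟨h1, h2, h3⟩ := q4_lt q
  exact hTri B s hs _ _ _ _ h1 h2 h3 e.1 (ptm e 0) (ptm e 1) (ptm e 2) rfl rfl
    (fun n => rfl) (fun n => rfl) (fun n => rfl)

lemma exists_ptm2 (hCov : Stmt_Cov) (hTri : Stmt_Tri) (s : Pt → L) (hs : IsSol s)
    (hw : ∀ c, 1 ≤ c.w → s c = 0) (h0 : ∃ c, s c ≠ 0) (q : Fin 5) (a₀ a₁ : Fin 3)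
    (ha : a₀ ≠ a₁) : ∃ e : Cm q, s (ptm e a₀) ≠ 0 ∨ s (ptm e a₁) ≠ 0 := by
  obtain ⟨e, a, hne⟩ := exists_ptm hCov s hs hw h0 q
  refine ⟨e, ?_⟩
  by_contra hcon
  rw [not_or, not_not, not_not] at hcon
  obtain ⟨h1, h2⟩ := hcon
  have hp := plucker hTri s hs e
  apply hne
  fin_cases a₀ <;> fin_cases a₁ <;> fin_cases a <;> simp_all

/-- binomials -/
lemma bin2 (hBin : Stmt_Bin) {B : Type} [CommRing B] (s : Pt → B) (hs : IsSol s)
    (a b c d : Pt) (hw : a.w + b.w = c.w + d.w) (he : ∀ n, a.e n + b.e n = c.e n + d.e n) :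
    s a * s b = s c * s d := by
  have := hBin B s hs {a, b} {c, d} (by simp) (by simpa using hw) (fun n => by simpa using he n)
  simpa using this

lemma bin3 (hBin : Stmt_Bin) {B : Type} [CommRing B] (s : Pt → B) (hs : IsSol s)
    (a b c a' b' c' : Pt) (hw : a.w + b.w + c.w = a'.w + b'.w + c'.w)
    (he : ∀ n, a.e n + b.e n + c.e n = a'.e n + b'.e n + c'.e n) :
    s a * s b * s c = s a' * s b' * s c' := by
  have := hBin B s hs {a, b, c} {a', b', c'} (by simp) (by simp; omega)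
    (fun n => by have := he n; simp; omega)
  simpa [mul_assoc] using this

end sol

end Pool.Agent.EN2
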