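import Pool.Agent.EN2.Chain
import Pool.Agent.EN2.ClaimM
import Pool.Agent.EN2.ClaimG

/-!
# Leading terms of the functions `a`, `1 - a`
-/

set_option autoImplicit false

noncomputable section

namespace Pool.Agent.EN2

open IsLocalRing Pool.Agent.ClaimF Polynomial

variable {K : Type} [Field K] {O : ValuationSubring K} {F : Type} [Field F] [Algebra K F]
  {C : Type} {P : C → Pl O F}

lemma alg_pow_of {k L : Type} [Field k] [Field L] [Algebra k L] {x : L} (hx : Transcendental k x)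
    {A : ℤ} (h : IsAlgebraic k (x ^ A)) : A = 0 := by
  have hx0 : x ≠ 0 := by
    rintro rfl
    exact hx isAlgebraic_zero
  rcases lt_trichotomy A 0 with h1 | h1 | h1
  · exfalso
    obtain ⟨n, rfl⟩ := Int.exists_eq_neg_ofNat h1.le
    have h2 : x ^ (-(n : ℤ)) ∈ algebraicClosure k L := mem_algebraicClosure_iff.mpr h
    have h3 := inv_mem h2
    rw [zpow_neg, inv_inv, zpow_natCast] at h3
    exact hx ((mem_algebraicClosure_iff.mp h3).of_pow (by omega))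
  · exact h1
  · exfalso
    obtain ⟨n, rfl⟩ := Int.eq_ofNat_of_zero_le h1.le
    rw [zpow_natCast] at h
    exact hx (h.of_pow (by omega))

/-- the residues of the functions of a chain are monomials, up to powers -/
lemma mono [Finite C] [IsAlgClosed K] (p : ℕ) [Fact p.Prime] [CharP K p] (hO : Arch O)
    (hvg : VG P) (hba : BA P) (Q₁ Q₂ Q₃ : Pen P) (c : C) (j₁ : Q₁.J) (j₂ : Q₂.J) (j₃ : Q₃.J)
    (hrel : (P c).res (Q₃.u j₃) = (P c).res (Q₁.u j₁) / (P c).res (Q₂.u j₂))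
    (hind : ¬ AO (ResidueField O) ((P c).res (Q₂.u j₂)) ((P c).res (Q₁.u j₁)))
    (z₁ z₂ z₃ : F) (hz : z₁ = z₂ * z₃) (hz1 : ∀ j, z₁ ∈ Q₁.R j) (hz2 : ∀ j, z₂ ∈ Q₂.R j)
    (hz3 : ∀ j, z₃ ∈ Q₃.R j) (hne : z₁ ∉ Set.range (algebraMap K F)) (κ : K) (hκ : κ ≠ 0)
    (hr : (P c).res (κ⁻¹ • z₁) ≠ 0) (κ₂ : K) (hκ₂ : κ₂ ≠ 0) (hr₂ : (P c).res (κ₂⁻¹ • z₂) ≠ 0) :
    ∃ (A : ℤ) (b : ℕ), 0 < b ∧ A ≠ 0 ∧
      IsAlgebraic (ResidueField O) ((P c).res (Q₁.u j₁) ^ A * (P c).res (κ⁻¹ • z₁) ^ b) ∧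
      IsAlgebraic (ResidueField O) ((P c).res (Q₂.u j₂) ^ A * (P c).res (κ₂⁻¹ • z₂) ^ b) := by
  have h10 : z₁ ≠ 0 := by
    rintro rfl
    exact hne ⟨0, map_zero _⟩
  have h30 : z₃ ≠ 0 := by
    rintro rfl
    exact h10 (by rw [hz, mul_zero])
  have hchar : CharP (ResidueField (P c).W) p := charP_res p (P c)
  obtain ⟨κ₃, k30, k31, k32⟩ := hvg c z₃ h30
  obtain ⟨γ, hγ, hγ0, hγe⟩ := res_prod hκ hκ₂ k30 hz hr hr₂ k32
  have a1 := peel_one hO hvg Q₁ z₁ hz1 κ hκ c ((P c).mem_of_res hr) j₁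
  have a2 := peel_one hO hvg Q₂ z₂ hz2 κ₂ hκ₂ c ((P c).mem_of_res hr₂) j₂
  have a3 := peel_one hO hvg Q₃ z₃ hz3 κ₃ k30 c k31 j₃
  rw [hrel] at a3
  have a3' : AO (ResidueField O) ((P c).res (Q₁.u j₁) / (P c).res (Q₂.u j₂))
      (γ * (P c).res (κ₃⁻¹ • z₃)) := by
    rw [← mem_cl]
    exact mul_mem ((mem_cl _ _).mpr (ao_of_alg ((P c).algebraic_of_cst hγ)))
      ((mem_cl _ _).mpr a3)
  obtain ⟨A, b, hb, h1, h2⟩ := claimM p _ _ _ _ _ (Q₂.u_tr c j₂) hind a1 a2 a3'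
    (by rw [hγe]; ring) hr
  refine ⟨A, b, hb, ?_, h1, h2⟩
  rintro rfl
  rw [zpow_zero, one_mul] at h1
  exact chain p hO hvg hba Q₁ Q₂ Q₃ c j₁ j₂ j₃ hrel hind z₁ z₂ z₃ hz hz1 hz2 hz3 hne κ hκ hr
    ((P c).cst_of_algebraic (h1.of_pow hb))

/-- monomiality at a place -/
def Mon (c : Pl O F) (x : ResidueField c.W) (z : F) : Prop :=
  ∀ κ : K, κ ≠ 0 → c.res (κ⁻¹ • z) ≠ 0 → ∃ (A : ℤ) (b : ℕ), 0 < b ∧ A ≠ 0 ∧
    IsAlgebraic (ResidueField O) (x ^ A * c.res (κ⁻¹ • z) ^ b)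

lemma Mon.not_alg {c : Pl O F} {x : ResidueField c.W} {z : F} (h : Mon c x z)
    (hx : Transcendental (ResidueField O) x) {κ : K} (hκ : κ ≠ 0) (hr : c.res (κ⁻¹ • z) ≠ 0) :
    Transcendental (ResidueField O) (c.res (κ⁻¹ • z)) := by
  intro hn
  obtain ⟨A, b, hb, hA, h1⟩ := h κ hκ hr
  have h2 : x ^ A * c.res (κ⁻¹ • z) ^ b ∈ algebraicClosure (ResidueField O) (ResidueField c.W) :=
    mem_algebraicClosure_iff.mpr h1
  have h3 : c.res (κ⁻¹ • z) ∈ algebraicClosure (ResidueField O) (ResidueField c.W) :=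
    mem_algebraicClosure_iff.mpr hn
  have h4 : x ^ A ∈ algebraicClosure (ResidueField O) (ResidueField c.W) := by
    have : x ^ A = x ^ A * c.res (κ⁻¹ • z) ^ b / c.res (κ⁻¹ • z) ^ b := by
      rw [mul_div_assoc, div_self (pow_ne_zero _ hr), mul_one]
    rw [this]
    exact div_mem h2 (pow_mem h3 b)
  exact hA (alg_pow_of hx (mem_algebraicClosure_iff.mp h4))

/-- `z` and `1 - z` are units -/
lemma unit_of [IsAlgClosed K] (c : Pl O F) (x : ResidueField c.W)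
    (hx : Transcendental (ResidueField O) x) (z : F) (H1 : Mon c x z) (H2 : Mon c (1 - x) (1 - z))
    (hvg : ∃ κ : K, κ ≠ 0 ∧ c.res (κ⁻¹ • z) ≠ 0) :
    c.res z ≠ 0 ∧ c.res (1 - z) ≠ 0 := by
  have hy : Transcendental (ResidueField O) (1 - x) := by
    intro h
    apply hx
    have h4 := (isAlgebraic_one (R := ResidueField O) (A := ResidueField c.W)).sub h
    rwa [sub_sub_cancel] at h4
  have hone : ∀ f : F, (1 : K)⁻¹ • f = f := fun f => by rw [inv_one, one_smul]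
  obtain ⟨κ, hκ, hr⟩ := hvg
  have hzW : z ∈ c.W := by
    by_contra hzW
    have hκn : κ⁻¹ ∈ O.nonunits := by
      rw [← c.alg_nonunit]
      have h1 : algebraMap K F κ⁻¹ = (κ⁻¹ • z) * z⁻¹ := by
        have hz0 : z ≠ 0 := by
          rintro rfl
          exact hzW (zero_mem _)
        rw [Algebra.smul_def, mul_assoc, mul_inv_cancel₀ hz0, mul_one]
      rw [h1]
      exact c.nonunit_mul (c.mem_of_res hr) (c.not_mem_inv hzW)
    have h2 : c.res (κ⁻¹ • (1 - z)) = -c.res (κ⁻¹ • z) := by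
      have h3 : κ⁻¹ • (1 - z) = algebraMap K F κ⁻¹ - κ⁻¹ • z := by
        rw [smul_sub, Algebra.algebraMap_eq_smul_one]
      rw [h3, c.res_sub (c.mem_alg (nonunit_mem hκn)) (c.mem_of_res hr),
        c.res_nonunit (c.alg_nonunit.mpr hκn), zero_sub]
    obtain ⟨A, b, hb, hA, h4⟩ := H1 κ hκ hr
    obtain ⟨A', b', hb', hA', h5⟩ := H2 κ hκ (by rw [h2]; exact neg_ne_zero.mpr hr)
    rw [h2] at h5
    have h6 : IsAlgebraic (ResidueField O) ((1 - x) ^ A' * c.res (κ⁻¹ • z) ^ b') := by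
      rw [neg_pow] at h5
      rcases neg_one_pow_eq_or (ResidueField c.W) b' with h7 | h7
      · rwa [h7, one_mul] at h5
      · rw [h7, neg_one_mul, mul_neg] at h5
        have := h5.neg
        rwa [neg_neg] at this
    exact H1.not_alg hx hκ hr (claimG_inf x _ hx A A' b b' hb hb' h4 h6)
  have h1z : c.res (1 - z) = 1 - c.res z := by
    rw [c.res_sub (one_mem _) hzW, c.res_one]
  have hz1 : c.res z ≠ 0 := by
    intro h
    have h3 : c.res ((1 : K)⁻¹ • (1 - z)) ≠ 0 := by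
      rw [hone, h1z, h, sub_zero]
      exact one_ne_zero
    apply H2.not_alg hy one_ne_zero h3
    rw [hone, h1z, h, sub_zero]
    exact isAlgebraic_one
  refine ⟨hz1, ?_⟩
  intro h
  have h3 : c.res ((1 : K)⁻¹ • z) ≠ 0 := by rwa [hone]
  apply H1.not_alg hx one_ne_zero h3
  rw [hone]
  rw [h1z] at h
  rw [← sub_eq_zero.mp h]
  exact isAlgebraic_one

lemma frob_of [IsAlgClosed K] (p : ℕ) [Fact p.Prime] [CharP K p] (c : Pl O F)
    (x : ResidueField c.W) (hx : Transcendental (ResidueField O) x) (z : F) (H1 : Mon c x z)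
    (H2 : Mon c (1 - x) (1 - z)) (hvg : ∃ κ : K, κ ≠ 0 ∧ c.res (κ⁻¹ • z) ≠ 0) :
    ∃ m n : ℕ, c.res z ^ (p ^ m) = x ^ (p ^ n) := by
  obtain ⟨hz1, hz2⟩ := unit_of c x hx z H1 H2 hvg
  have hone : ∀ f : F, (1 : K)⁻¹ • f = f := fun f => by rw [inv_one, one_smul]
  have hzW : z ∈ c.W := c.mem_of_res hz1
  have h1z : c.res (1 - z) = 1 - c.res z := by
    rw [c.res_sub (one_mem _) hzW, c.res_one]
  obtain ⟨A, b, hb, hA, h4⟩ := H1 1 one_ne_zero (by rwa [hone])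
  obtain ⟨A', b', hb', hA', h5⟩ := H2 1 one_ne_zero (by rwa [hone])
  rw [hone] at h4 h5
  rw [h1z] at h5
  have hchar : CharP (ResidueField O) p := by
    have h0 : ((p : ℕ) : ResidueField O) = 0 := by
      have h2 : ((p : ℕ) : O) = 0 := by
        ext
        simp
      have := congrArg (residue O) h2
      rwa [map_natCast, map_zero] at this
    have h1 := CharP.ringChar_of_prime_eq_zero (Fact.out : p.Prime) h0
    rw [← h1]
    exact ringChar.charP _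
  have ht := H1.not_alg hx one_ne_zero (by rwa [hone])
  rw [hone] at ht
  exact claimG p x (c.res z) hx ht A A' b b' hb hb' h4 h5

end Pool.Agent.EN2
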